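import Mathlib
import Pool.Agent.Work.CM.Defs

/-!
# KL/Defs: definitions of the block KL (fixed file)

The limit formula of Kronecker for the zeta function of a lattice in the complex numbers, and the
sum over the classes.
-/

set_option autoImplicit false

namespace Pool.Agent.Work.MP_8efaaa_nt.KL

open Pool.Agent.Work.CM
open scoped Pointwise

/-- The zeta function of a lattice, `∑ |x| ^ (-2 s)` over the nonzero elements (for `s ≠ 0` the term of
`x = 0` is `0`). -/
noncomputable def zl (L : Submodule ℤ ℂ) (s : ℝ) : ℝ := ∑' x : L, ‖(x : ℂ)‖ ^ (-(2 * s))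

/-- `L` has a basis which spans a parallelogram of area `A`. -/
def HasArea (L : Submodule ℤ ℂ) (A : ℝ) : Prop :=
  0 < A ∧ ∃ w1 w2 : ℂ, L = Submodule.span ℤ {w1, w2} ∧ A = |((starRingEnd ℂ) w1 * w2).im|

/-- the lattice generated by `a` and `b` -/
def sp (a b : ℂ) : Submodule ℤ ℂ := Submodule.span ℤ {a, b}

/-- the terms of the double sum -/
noncomputable def tt (τ : ℂ) (s : ℝ) (k : ℤ × ℤ) : ℝ :=
  ‖(2 * k.1 + 1) * τ + 2 * k.2‖ ^ (-(2 * s)) - ‖(2 * k.1 + 1) * τ + 2 * k.2 + 1‖ ^ (-(2 * s))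

/-- `exp (π i τ)` -/
noncomputable def nome (τ : ℂ) : ℂ := Complex.exp (Real.pi * Complex.I * τ)

/-- the product `∏ (1 + e p ^ (2 k + 1) w) (1 + e p ^ (2 k + 1) / w)` with `p = exp (π i τ)`,
`w = exp (2 π i z)` -/
noncomputable def ph (e : ℂ) (τ z : ℂ) : ℂ :=
  ∏' k : ℕ, (1 + e * nome τ ^ (2 * k + 1) * Complex.exp (2 * Real.pi * Complex.I * z)) *
    (1 + e * nome τ ^ (2 * k + 1) * Complex.exp (-(2 * Real.pi * Complex.I * z)))

end Pool.Agent.Work.MP_8efaaa_nt.KL
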