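import Mathlib
import Pool.Agent.Work.CM.Bas
import Pool.Agent.Work.CM.Hom
import Pool.Agent.Work.MP_8efaaa_nt.KL.Defs

/-!
# KL/Zeta (M): basic facts on `zl` and `HasArea`

`isLat`: the real linear independence of `w1, w2` follows from `A ≠ 0` (`IsLat L` unfolds to the existence of a
`PeriodPair` with lattice `L`; `PeriodPair.lattice` is the span of its two numbers; the order does not matter).
`summable_zl`: for a period pair `P`, `L ≃ ℤ × ℤ` (`PeriodPair.latticeEquivProd`, see the proof of
`tsum_tauLat` in `CM/Eis.lean`), and `‖a w1 + b w2‖ ≥ c ‖(a, b)‖` with `c > 0` (all norms on a space of finite dimension are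
equivalent, or the estimates of Mathlib in `PeriodPair` / `EisensteinSeries.summable_norm_eisSummand`, `EisensteinSeries.summand_bound`,
`EisensteinSeries.summable_one_div_norm_rpow`; for `L = span {w1, w2}` one may pass to `τ = w2 / w1` in the upper half plane after
a change of sign and use `EisensteinSeries.r`). Also in Mathlib: summability over a `ℤ`-lattice in a normed space,
`ZLattice.summable_norm_rpow` (`Mathlib/Algebra/Module/ZLattice/Summable.lean`): this is the quickest way, with
`IsLat.isZLattice`; the rank is 2.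
`zl_smul`: the bijection `L ≃ m • L`, `x ↦ m x`, compare `tsum_smul` in `CM/Hom.lean` (private there, copy it);
`Real.mul_rpow`.
-/

set_option autoImplicit false

namespace Pool.Agent.Work.MP_8efaaa_nt.KL

open Pool.Agent.Work.CM
open scoped Pointwise

variable {L : Submodule ℤ ℂ} {A s : ℝ} {m : ℂ}

private theorem indep_of_im {w1 w2 : ℂ} (h : ((starRingEnd ℂ) w1 * w2).im ≠ 0) :
    LinearIndependent ℝ ![w1, w2] := by
  rw [LinearIndependent.pair_iff]
  intro s t hst
  have h1 : s * w1.re + t * w2.re = 0 := by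
    have := congrArg Complex.re hst
    simpa using this
  have h2 : s * w1.im + t * w2.im = 0 := by
    have := congrArg Complex.im hst
    simpa using this
  have h3 : ((starRingEnd ℂ) w1 * w2).im = w1.re * w2.im - w1.im * w2.re := by
    simp only [Complex.mul_im, Complex.conj_re, Complex.conj_im]
    ring
  rw [h3] at h
  constructor
  · have h4 : s * (w1.re * w2.im - w1.im * w2.re) = 0 := by
      linear_combination w2.im * h1 - w2.re * h2
    rcases mul_eq_zero.1 h4 with h5 | h5
    · exact h5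
    · exact absurd h5 h
  · have h4 : t * (w1.re * w2.im - w1.im * w2.re) = 0 := by
      linear_combination w1.re * h2 - w1.im * h1
    rcases mul_eq_zero.1 h4 with h5 | h5
    · exact h5
    · exact absurd h5 h

private theorem im_ne_of_indep {w1 w2 : ℂ} (h : LinearIndependent ℝ ![w1, w2]) :
    ((starRingEnd ℂ) w1 * w2).im ≠ 0 := by
  intro h0
  rw [LinearIndependent.pair_iff] at h
  have h3 : ((starRingEnd ℂ) w1 * w2).im = w1.re * w2.im - w1.im * w2.re := by
    simp only [Complex.mul_im, Complex.conj_re, Complex.conj_im]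
    ring
  rw [h3] at h0
  have h4 := h (w1.re * w2.re + w1.im * w2.im) (-(w1.re ^ 2 + w1.im ^ 2)) (by
    apply Complex.ext
    · rw [Complex.add_re, Complex.smul_re, Complex.smul_re, smul_eq_mul, smul_eq_mul,
        Complex.zero_re]
      linear_combination w1.im * h0
    · rw [Complex.add_im, Complex.smul_im, Complex.smul_im, smul_eq_mul, smul_eq_mul,
        Complex.zero_im]
      linear_combination -w1.re * h0)
  have h5 : w1.re ^ 2 + w1.im ^ 2 = 0 := by linarith [h4.2]
  have h6 : w1.re = 0 := by nlinarith [sq_nonneg w1.re, sq_nonneg w1.im]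
  have h7 : w1.im = 0 := by nlinarith [sq_nonneg w1.re, sq_nonneg w1.im]
  have h8 : w1 = 0 := Complex.ext h6 h7
  have h9 := h 1 0 (by rw [h8]; simp)
  exact one_ne_zero h9.1

theorem HasArea.isLat (h : HasArea L A) : IsLat L := by
  obtain ⟨hA, w1, w2, hL, hA2⟩ := h
  have hne : ((starRingEnd ℂ) w1 * w2).im ≠ 0 := by
    intro h0
    rw [h0, abs_zero] at hA2
    exact hA.ne' hA2
  exact ⟨⟨w1, w2, indep_of_im hne⟩, hL.symm⟩

theorem exists_hasArea (h : IsLat L) : ∃ A, HasArea L A := by
  obtain ⟨P, rfl⟩ := h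
  exact ⟨_, abs_pos.2 (im_ne_of_indep P.indep), P.ω₁, P.ω₂, rfl, rfl⟩

theorem HasArea.smul (h : HasArea L A) (hm : m ≠ 0) : HasArea (m • L) (‖m‖ ^ 2 * A) := by
  obtain ⟨hA, w1, w2, hL, hA2⟩ := h
  refine ⟨by positivity, m * w1, m * w2, ?_, ?_⟩
  · rw [hL, Submodule.smul_span]
    congr 1
    rw [Set.smul_set_insert, Set.smul_set_singleton, smul_eq_mul, smul_eq_mul]
  · rw [hA2, ← Complex.normSq_eq_norm_sq]
    have h1 : ((starRingEnd ℂ) (m * w1) * (m * w2)).im =
        Complex.normSq m * ((starRingEnd ℂ) w1 * w2).im := by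
      simp only [Complex.mul_im, Complex.mul_re, Complex.conj_re, Complex.conj_im,
        Complex.normSq_apply]
      ring
    rw [h1, abs_mul, abs_of_nonneg (Complex.normSq_nonneg m)]

theorem summable_zl (h : IsLat L) (hs : 1 < s) :
    Summable fun x : L => ‖(x : ℂ)‖ ^ (-(2 * s)) := by
  obtain ⟨P, rfl⟩ := h
  have h1 := ZLattice.summable_norm_rpow P.lattice (-(2 * s)) (by
    rw [PeriodPair.finrank_lattice]
    push_cast
    linarith)
  exact h1

private theorem mem_smul_iff2 {m : ℂ} {L : Submodule ℤ ℂ} {z : ℂ} :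
    z ∈ m • L ↔ ∃ s ∈ L, m * s = z := by
  rw [Submodule.mem_smul_pointwise_iff_exists]
  rfl

/-- reindexing -/
private noncomputable def smulEq (L : Submodule ℤ ℂ) {m : ℂ} (hm : m ≠ 0) :
    L ≃ (m • L : Submodule ℤ ℂ) where
  toFun l := ⟨m * l, mem_smul_iff2.2 ⟨l, l.2, rfl⟩⟩
  invFun l := ⟨m⁻¹ * l, by
    obtain ⟨s, hs, h⟩ := mem_smul_iff2.1 l.2
    rw [← h, ← mul_assoc, inv_mul_cancel₀ hm, one_mul]
    exact hs⟩
  left_inv l := by
    ext
    show m⁻¹ * (m * (l : ℂ)) = l
    rw [← mul_assoc, inv_mul_cancel₀ hm, one_mul]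
  right_inv l := by
    ext
    show m * (m⁻¹ * (l : ℂ)) = l
    rw [← mul_assoc, mul_inv_cancel₀ hm, one_mul]

theorem zl_smul (hm : m ≠ 0) (L : Submodule ℤ ℂ) (s : ℝ) :
    zl (m • L) s = ‖m‖ ^ (-(2 * s)) * zl L s := by
  unfold zl
  rw [← (smulEq L hm).tsum_eq fun l : (m • L : Submodule ℤ ℂ) => ‖(l : ℂ)‖ ^ (-(2 * s)),
    ← tsum_mul_left]
  refine tsum_congr fun l => ?_
  show ‖m * (l : ℂ)‖ ^ (-(2 * s)) = _
  rw [norm_mul, Real.mul_rpow (norm_nonneg _) (norm_nonneg _)]

end Pool.Agent.Work.MP_8efaaa_nt.KL
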