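import Mathlib
import Pool.Agent.Work.CM.Tw5
import Pool.Agent.Work.MP_8efaaa_nt.KL.Defs
import Pool.Agent.Work.MP_8efaaa_nt.KL.Zeta

/-!
# KL/Basis (M): a basis adapted to the three superlattices of index two

`L = span {w1, w2}`. For `Two L L'` and `u ∈ L'`, `u ∉ L`: `2 u ∈ L` (`Two.two_mem`), so `2 u = a w1 + b w2` with `a, b` not both even,
and `L' = L + ℤ u` is determined by the parities of `a`, `b` (`Two.eq_of_mem`): `L' = L + ℤ (a' w1 + b' w2) / 2` with
`(a', b')` one of `(1,0), (0,1), (1,1)`. As `L1, L2, L3` are different, the pair `(L1, L2)` is one of 6 cases, and in each case there is a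
basis `(v1, v2)` of `L` among `(w1, w2), (w2, w1), (w1, w1+w2), (w1+w2, w1), (w2, w1+w2), (w1+w2, w2)` with
`v1 / 2 ∈ L1`, `v2 / 2 ∈ L2`; then `(v1 + v2) / 2 ∈ L3` (it is in neither `L1` nor `L2`, `Two.mk'`, `Two.third`), and the absolute value
of the area is unchanged (`(conj v1 * v2).im = ± (conj w1 * w2).im`). Put `m = v1`, `τ = ± v2 / v1`, with the sign for which
`0 < τ.im` (nonzero because `A ≠ 0`); `‖m‖ ^ 2 * τ.im = |(conj v1 * v2).im|`. Finally
`L = sp v1 v2`, `L1 = sp (v1 / 2) v2`, `L2 = sp v1 (v2 / 2)`, `L3 = sp v1 ((v1 + v2) / 2)` (`Two.eq_of_mem`, or both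
inclusions by hand) and `m • sp a b = sp (m a) (m b)` (`Submodule.smul_span` or `Submodule.map_span`).
-/

set_option autoImplicit false

namespace Pool.Agent.Work.MP_8efaaa_nt.KL

open Pool.Agent.Work.CM
open scoped Pointwise

variable {L L1 L2 L3 : Submodule ℤ ℂ} {A : ℝ}

private theorem mem_sp {a b z : ℂ} : z ∈ sp a b ↔ ∃ x y : ℤ, (x : ℂ) * a + y * b = z := by
  unfold sp
  rw [Submodule.mem_span_pair]
  simp only [zsmul_eq_mul]

private theorem left_mem (a b : ℂ) : a ∈ sp a b := mem_sp.2 ⟨1, 0, by simp⟩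

private theorem right_mem (a b : ℂ) : b ∈ sp a b := mem_sp.2 ⟨0, 1, by simp⟩

private theorem sp_le {a b : ℂ} {S : Submodule ℤ ℂ} (ha : a ∈ S) (hb : b ∈ S) : sp a b ≤ S := by
  intro z hz
  obtain ⟨x, y, rfl⟩ := mem_sp.1 hz
  have h1 := S.smul_mem x ha
  have h2 := S.smul_mem y hb
  rw [zsmul_eq_mul] at h1 h2
  exact add_mem h1 h2

private theorem smul_sp (m a b : ℂ) : m • sp a b = sp (m * a) (m * b) := by
  ext z
  rw [Submodule.mem_smul_pointwise_iff_exists]
  constructor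
  · rintro ⟨w, hw, rfl⟩
    obtain ⟨x, y, rfl⟩ := mem_sp.1 hw
    refine mem_sp.2 ⟨x, y, ?_⟩
    rw [smul_eq_mul]
    ring
  · intro hz
    obtain ⟨x, y, rfl⟩ := mem_sp.1 hz
    refine ⟨(x : ℂ) * a + y * b, mem_sp.2 ⟨x, y, rfl⟩, ?_⟩
    rw [smul_eq_mul]
    ring

private theorem sp_comm (a b : ℂ) : sp a b = sp b a :=
  le_antisymm (sp_le (right_mem b a) (left_mem b a)) (sp_le (right_mem a b) (left_mem a b))

private theorem sp_add (a b : ℂ) : sp a b = sp a (a + b) := by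
  refine le_antisymm (sp_le (left_mem _ _) (mem_sp.2 ⟨-1, 1, by push_cast; ring⟩))
    (sp_le (left_mem _ _) (mem_sp.2 ⟨1, 1, by push_cast; ring⟩))

private theorem sp_neg (a b : ℂ) : sp a b = sp a (-b) := by
  refine le_antisymm (sp_le (left_mem _ _) (mem_sp.2 ⟨0, -1, by push_cast; ring⟩))
    (sp_le (left_mem _ _) (mem_sp.2 ⟨0, -1, by push_cast; ring⟩))

/-- a basis with area `A` -/
private def Gb (L : Submodule ℤ ℂ) (A : ℝ) (v w : ℂ) : Prop :=
  L = sp v w ∧ A = |((starRingEnd ℂ) v * w).im|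

private theorem im_formula (v w : ℂ) : ((starRingEnd ℂ) v * w).im = v.re * w.im - v.im * w.re := by
  rw [Complex.mul_im, Complex.conj_re, Complex.conj_im]
  ring

private theorem Gb.swap {v w : ℂ} (h : Gb L A v w) : Gb L A w v := by
  refine ⟨h.1.trans (sp_comm v w), ?_⟩
  rw [h.2, im_formula, im_formula, ← abs_neg]
  congr 1
  ring

private theorem Gb.add {v w : ℂ} (h : Gb L A v w) : Gb L A v (v + w) := by
  refine ⟨h.1.trans (sp_add v w), ?_⟩
  rw [h.2, im_formula, im_formula, Complex.add_im, Complex.add_re]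
  congr 1
  ring

private theorem Gb.neg {v w : ℂ} (h : Gb L A v w) : Gb L A v (-w) := by
  refine ⟨h.1.trans (sp_neg v w), ?_⟩
  rw [h.2, im_formula, im_formula, Complex.neg_im, Complex.neg_re, ← abs_neg]
  congr 1
  ring

private theorem indep {v w : ℂ} (h : ((starRingEnd ℂ) v * w).im ≠ 0) (x y : ℝ)
    (e : (x : ℂ) * v + y * w = 0) : x = 0 ∧ y = 0 := by
  rw [im_formula] at h
  have h1 := congrArg Complex.re e
  have h2 := congrArg Complex.im e
  simp only [Complex.add_re, Complex.re_ofReal_mul, Complex.add_im, Complex.im_ofReal_mul,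
    Complex.zero_re, Complex.zero_im] at h1 h2
  constructor
  · have : x * (v.re * w.im - v.im * w.re) = 0 := by linear_combination w.im * h1 - w.re * h2
    exact (mul_eq_zero.1 this).resolve_right h
  · have : y * (v.re * w.im - v.im * w.re) = 0 := by linear_combination v.re * h2 - v.im * h1
    exact (mul_eq_zero.1 this).resolve_right h

private theorem half_not_mem {v w : ℂ} (hA : 0 < A) (h : Gb L A v w) : v / 2 ∉ L := by
  intro hm
  rw [h.1, mem_sp] at hm
  obtain ⟨x, y, hxy⟩ := hm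
  have h0 : ((starRingEnd ℂ) v * w).im ≠ 0 := by
    intro h1
    rw [h.2, h1, abs_zero] at hA
    exact lt_irrefl _ hA
  have h1 := indep h0 ((x : ℝ) - 1 / 2) y (by push_cast; linear_combination hxy)
  have h2 : (2 : ℝ) * x = 1 := by linarith [h1.1]
  have h3 : (2 : ℤ) * x = 1 := by exact_mod_cast h2
  omega

private theorem half_cases {L' : Submodule ℤ ℂ} (hT : Two L L') {v w : ℂ} (hL : L = sp v w) :
    v / 2 ∈ L' ∨ w / 2 ∈ L' ∨ (v + w) / 2 ∈ L' := by
  obtain ⟨u, hu, hu', -⟩ := hT.ex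
  have h2 := hT.two_mem hu
  rw [hL, mem_sp] at h2
  obtain ⟨a, b, hab⟩ := h2
  have mem : ∀ x y : ℤ, (x : ℂ) * v + y * w ∈ L := by
    intro x y
    rw [hL]
    exact mem_sp.2 ⟨x, y, rfl⟩
  obtain ⟨x, hx | hx⟩ := Int.even_or_odd' a <;> obtain ⟨y, hy | hy⟩ := Int.even_or_odd' b <;>
    rw [hx, hy] at hab <;> push_cast at hab
  · exfalso
    apply hu'
    have e : u = (x : ℂ) * v + y * w := by linear_combination (-1 / 2) * hab
    rw [e]
    exact mem x y
  · right; left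
    have e : w / 2 = u - ((x : ℂ) * v + y * w) := by linear_combination (1 / 2) * hab
    rw [e]
    exact _root_.sub_mem hu (hT.le (mem x y))
  · left
    have e : v / 2 = u - ((x : ℂ) * v + y * w) := by linear_combination (1 / 2) * hab
    rw [e]
    exact _root_.sub_mem hu (hT.le (mem x y))
  · right; right
    have e : (v + w) / 2 = u - ((x : ℂ) * v + y * w) := by linear_combination (1 / 2) * hab
    rw [e]
    exact _root_.sub_mem hu (hT.le (mem x y))

private theorem eq_sp {L' : Submodule ℤ ℂ} (hT : Two L L') {u a b : ℂ} (hu : u ∈ L') (hu' : u ∉ L)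
    (ha : a ∈ L') (hb : b ∈ L') (hL : L ≤ sp a b) (hu2 : u ∈ sp a b) : L' = sp a b := by
  refine le_antisymm (fun z hz => ?_) (sp_le ha hb)
  by_cases hz' : z ∈ L
  · exact hL hz'
  · have h1 := hL (hT.sub_mem hz hz' hu hu')
    have h2 := add_mem h1 hu2
    have e : z - u + u = z := by ring
    rwa [e] at h2

private theorem exists_v (hA : 0 < A) {w1 w2 : ℂ} (h : Gb L A w1 w2) (h1 : Two L L1) (h2 : Two L L2)
    (h12 : L1 ≠ L2) : ∃ v1 v2 : ℂ, Gb L A v1 v2 ∧ v1 / 2 ∈ L1 ∧ v2 / 2 ∈ L2 := by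
  have g21 := h.swap
  have g13 := h.add
  have g31 := g13.swap
  have g23 : Gb L A w2 (w1 + w2) := by
    have := g21.add
    rwa [add_comm] at this
  have g32 := g23.swap
  rcases half_cases h1 h.1 with a | a | a <;> rcases half_cases h2 h.1 with b | b | b
  · exact absurd (h1.eq_of_mem h2 a b (half_not_mem hA h)) h12
  · exact ⟨_, _, h, a, b⟩
  · exact ⟨_, _, g13, a, b⟩
  · exact ⟨_, _, g21, a, b⟩
  · exact absurd (h1.eq_of_mem h2 a b (half_not_mem hA g21)) h12
  · exact ⟨_, _, g23, a, b⟩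
  · exact ⟨_, _, g31, a, b⟩
  · exact ⟨_, _, g32, a, b⟩
  · exact absurd (h1.eq_of_mem h2 a b (half_not_mem hA g31)) h12

theorem exists_basis (hA : HasArea L A) (h1 : Two L L1) (h2 : Two L L2) (h3 : Two L L3)
    (h12 : L1 ≠ L2) (h13 : L1 ≠ L3) (h23 : L2 ≠ L3) :
    ∃ m τ : ℂ, m ≠ 0 ∧ 0 < τ.im ∧ A = ‖m‖ ^ 2 * τ.im ∧ L = m • sp 1 τ ∧ L1 = m • sp (1 / 2) τ ∧
      L2 = m • sp 1 (τ / 2) ∧ L3 = m • sp 1 ((1 + τ) / 2) := by
  obtain ⟨hA0, w1, w2, hL, hAe⟩ := hA
  obtain ⟨v1, v2', hg', ha1, hb'⟩ := exists_v hA0 (w1 := w1) (w2 := w2) ⟨hL, hAe⟩ h1 h2 h12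
  -- the sign
  obtain ⟨v2, hg, hb2, hpos⟩ : ∃ v2 : ℂ, Gb L A v1 v2 ∧ v2 / 2 ∈ L2 ∧
      0 < ((starRingEnd ℂ) v1 * v2).im := by
    have hne : ((starRingEnd ℂ) v1 * v2').im ≠ 0 := by
      intro h0
      have := hg'.2
      rw [h0, abs_zero] at this
      linarith
    rcases lt_or_gt_of_ne hne with h0 | h0
    · refine ⟨-v2', hg'.neg, ?_, ?_⟩
      · have e : -v2' / 2 = -(v2' / 2) := by ring
        rw [e]
        exact neg_mem hb'
      · rw [mul_neg, Complex.neg_im]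
        linarith
    · exact ⟨v2', hg', hb', h0⟩
  have n1 : v1 / 2 ∉ L := half_not_mem hA0 hg
  have n2 : v2 / 2 ∉ L := half_not_mem hA0 hg.swap
  have n3 : (v1 + v2) / 2 ∉ L := half_not_mem hA0 hg.add.swap
  have hc3 : (v1 + v2) / 2 ∈ L3 := by
    rcases half_cases h3 hg.1 with c | c | c
    · exact absurd (h1.eq_of_mem h3 ha1 c n1) h13
    · exact absurd (h2.eq_of_mem h3 hb2 c n2) h23
    · exact c
  have hv1 : v1 ≠ 0 := by
    intro h0
    rw [h0] at hpos
    simp at hpos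
  have hv1L : v1 ∈ L := by
    rw [hg.1]
    exact left_mem _ _
  have hv2L : v2 ∈ L := by
    rw [hg.1]
    exact right_mem _ _
  have e1 : v1 * (v2 / v1) = v2 := by field_simp
  refine ⟨v1, v2 / v1, hv1, ?_, ?_, ?_, ?_, ?_, ?_⟩
  · have h5 : (v2 / v1).im = ((starRingEnd ℂ) v1 * v2).im / Complex.normSq v1 := by
      rw [im_formula, Complex.div_im]
      ring
    rw [h5]
    exact div_pos hpos (Complex.normSq_pos.2 hv1)
  · have h5 : (v2 / v1).im = ((starRingEnd ℂ) v1 * v2).im / Complex.normSq v1 := by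
      rw [im_formula, Complex.div_im]
      ring
    have h6 : Complex.normSq v1 ≠ 0 := (Complex.normSq_pos.2 hv1).ne'
    rw [h5, hg.2, abs_of_pos hpos, ← Complex.normSq_eq_norm_sq]
    field_simp
  · rw [smul_sp, mul_one, e1]
    exact hg.1
  · rw [smul_sp, e1]
    have e2 : v1 * (1 / 2) = v1 / 2 := by ring
    rw [e2]
    refine eq_sp h1 ha1 n1 ha1 (h1.le hv2L) ?_ (left_mem _ _)
    rw [hg.1]
    exact sp_le (mem_sp.2 ⟨2, 0, by push_cast; ring⟩) (right_mem _ _)
  · rw [smul_sp, mul_one]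
    have e2 : v1 * (v2 / v1 / 2) = v2 / 2 := by field_simp
    rw [e2]
    refine eq_sp h2 hb2 n2 (h2.le hv1L) hb2 ?_ (right_mem _ _)
    rw [hg.1]
    exact sp_le (left_mem _ _) (mem_sp.2 ⟨0, 2, by push_cast; ring⟩)
  · rw [smul_sp, mul_one]
    have e2 : v1 * ((1 + v2 / v1) / 2) = (v1 + v2) / 2 := by field_simp
    rw [e2]
    refine eq_sp h3 hc3 n3 (h3.le hv1L) hc3 ?_ (right_mem _ _)
    rw [hg.1]
    exact sp_le (left_mem _ _) (mem_sp.2 ⟨-1, 2, by push_cast; ring⟩)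

end Pool.Agent.Work.MP_8efaaa_nt.KL
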