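import Mathlib
import Pool.Agent.Work.MP_8efaaa_nt.KL.Defs

/-!
# KL/Dom (M): convergence at `s = 1`

For `s ∈ [1, 2]` and `x = (2 k.1 + 1) τ + 2 k.2`: `|‖x‖ ^ (-2 s) - ‖x + 1‖ ^ (-2 s)| ≤ C ‖k'‖ ^ (-3)` with
`k' = (2 k.1 + 1, 2 k.2)` (which is not zero): by the mean value theorem for `t ↦ t ^ (-2 s)` on the segment between `‖x‖` and `‖x + 1‖`,
which differ by at most 1: the difference is at most `2 s * min (‖x‖, ‖x + 1‖) ^ (-2 s - 1)`, and `‖x‖`, `‖x + 1‖ ≥ c ‖k'‖` resp.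
`≥ c (‖k'‖)/2` (`‖x‖ ≥ r(τ) ‖(2 k.1 + 1, 2 k.2)‖`, `EisensteinSeries.r`, `EisensteinSeries.summand_bound`, or by hand: both `‖x‖`, `‖x + 1‖`
are `≥ |2 k.1 + 1| τ.im ≥ τ.im`, and `≥ |2 k.2 (+1)| - |2 k.1 + 1| |τ|`); `‖k'‖ ≥ 1` and `-2 s - 1 ≤ -3` give a bound independent of `s`
up to a constant. Summable: `EisensteinSeries.summable_one_div_norm_rpow` (exponent `3 > 2`; it is for `Fin 2 → ℤ`) composed with an
injective map. Then dominated convergence `tendsto_tsum_of_dominated_convergence` (filter `𝓝[>] 1`; the terms are continuous in `s`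
because the norms are not zero).
-/

set_option autoImplicit false

namespace Pool.Agent.Work.MP_8efaaa_nt.KL

open Filter Topology

private lemma aux_lt {m M p : ℝ} (hm : 0 < m) (hM : m ≤ M) (hp : 0 ≤ p) :
    m ^ (-p) - M ^ (-p) ≤ p * (M - m) * m ^ (-p - 1) := by
  have hMp : 0 < M := lt_of_lt_of_le hm hM
  have h1 : M ^ (-p) = m ^ (-p) * (M / m) ^ (-p) := by
    rw [← Real.mul_rpow hm.le (by positivity)]
    congr 1
    field_simp
  have h2 : 1 - p * (M / m - 1) ≤ (M / m) ^ (-p) := by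
    rw [Real.rpow_def_of_pos (by positivity)]
    have h3 := Real.add_one_le_exp (Real.log (M / m) * -p)
    have h4 := Real.log_le_sub_one_of_pos (show 0 < M / m by positivity)
    nlinarith
  have h5 : m ^ (-p - 1) = m ^ (-p) / m := by
    rw [Real.rpow_sub_one hm.ne']
  rw [h1, h5]
  have h6 : (0 : ℝ) < m ^ (-p) := by positivity
  have h7 : p * (M - m) * (m ^ (-p) / m) = m ^ (-p) * (p * (M / m - 1)) := by
    field_simp
  rw [h7]
  nlinarith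

private lemma aux_pow {c m s : ℝ} (hc : 0 < c) (hm : c ≤ m) (h1 : 1 ≤ s) (h2 : s ≤ 2) :
    m ^ (-(2 * s) - 1) ≤ (1 + c⁻¹ ^ 2) * m ^ (-(3 : ℝ)) := by
  have hmp : 0 < m := lt_of_lt_of_le hc hm
  have e : m ^ (-(2 * s) - 1) = m ^ (-(2 * s - 2)) * m ^ (-(3 : ℝ)) := by
    rw [← Real.rpow_add hmp]
    congr 1
    ring
  rw [e]
  refine mul_le_mul_of_nonneg_right ?_ (by positivity)
  rcases le_total 1 m with h | h
  · have := Real.rpow_le_one_of_one_le_of_nonpos h (show -(2 * s - 2) ≤ 0 by linarith)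
    have h3 : (0 : ℝ) ≤ c⁻¹ ^ 2 := by positivity
    linarith
  · have h3 : m ^ (-(2 * s - 2)) ≤ m ^ (-(2 : ℝ)) :=
      Real.rpow_le_rpow_of_exponent_ge hmp h (by linarith)
    have h4 : m ^ (-(2 : ℝ)) ≤ c ^ (-(2 : ℝ)) :=
      Real.rpow_le_rpow_of_nonpos hc hm (by norm_num)
    have h5 : c ^ (-(2 : ℝ)) = c⁻¹ ^ 2 := by
      rw [Real.rpow_neg hc.le]
      norm_num
    linarith

private lemma aux_main {c a b A B s : ℝ} (hc : 0 < c) (hA : 1 ≤ A) (hB : 1 ≤ B)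
    (ha : c * A ≤ a) (hb : c * B ≤ b) (hab : |a - b| ≤ 1) (h1 : 1 ≤ s) (h2 : s ≤ 2) :
    |a ^ (-(2 * s)) - b ^ (-(2 * s))| ≤
      4 * (1 + c⁻¹ ^ 2) * c ^ (-(3 : ℝ)) * (A ^ (-(3 : ℝ)) + B ^ (-(3 : ℝ))) := by
  wlog hle : a ≤ b generalizing a b A B with H
  · have := H hB hA hb ha (by rw [abs_sub_comm]; exact hab) (le_of_not_ge hle)
    rw [abs_sub_comm, add_comm (A ^ (-(3 : ℝ)))]
    exact this
  have hca : c ≤ a := le_trans (by nlinarith) ha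
  have hap : 0 < a := lt_of_lt_of_le hc hca
  have h3 := aux_lt hap hle (show 0 ≤ 2 * s by linarith)
  have h4 : b ^ (-(2 * s)) ≤ a ^ (-(2 * s)) :=
    Real.rpow_le_rpow_of_nonpos hap hle (by linarith)
  rw [abs_of_nonneg (by linarith)]
  have h5 := aux_pow hc hca h1 h2
  have h6 : b - a ≤ 1 := by
    have := (abs_le.mp hab).1
    linarith
  have h7 : (0 : ℝ) ≤ a ^ (-(2 * s) - 1) := by positivity
  have h8 : 2 * s * (b - a) * a ^ (-(2 * s) - 1) ≤ 4 * a ^ (-(2 * s) - 1) := by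
    refine mul_le_mul_of_nonneg_right ?_ h7
    nlinarith
  have h9 : a ^ (-(3 : ℝ)) ≤ c ^ (-(3 : ℝ)) * A ^ (-(3 : ℝ)) := by
    rw [← Real.mul_rpow hc.le (by linarith)]
    exact Real.rpow_le_rpow_of_nonpos (by positivity) ha (by norm_num)
  have h10 : (0 : ℝ) ≤ c ^ (-(3 : ℝ)) * B ^ (-(3 : ℝ)) := by positivity
  have h11 : (0 : ℝ) ≤ 1 + c⁻¹ ^ 2 := by positivity
  calc a ^ (-(2 * s)) - b ^ (-(2 * s)) ≤ 4 * a ^ (-(2 * s) - 1) := by linarith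
    _ ≤ 4 * ((1 + c⁻¹ ^ 2) * a ^ (-(3 : ℝ))) := by linarith
    _ ≤ 4 * ((1 + c⁻¹ ^ 2) * (c ^ (-(3 : ℝ)) * A ^ (-(3 : ℝ)) + c ^ (-(3 : ℝ)) * B ^ (-(3 : ℝ)))) := by
        have := mul_le_mul_of_nonneg_left (show a ^ (-(3 : ℝ)) ≤
          c ^ (-(3 : ℝ)) * A ^ (-(3 : ℝ)) + c ^ (-(3 : ℝ)) * B ^ (-(3 : ℝ)) by linarith) h11
        linarith
    _ = _ := by ring

private def v0 (k : ℤ × ℤ) : Fin 2 → ℤ := ![2 * k.1 + 1, 2 * k.2]
private def v1 (k : ℤ × ℤ) : Fin 2 → ℤ := ![2 * k.1 + 1, 2 * k.2 + 1]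

private lemma v0_inj : Function.Injective v0 := by
  rintro ⟨a, b⟩ ⟨c, d⟩ h
  have h0 := congrFun h 0
  have h1 := congrFun h 1
  simp [v0] at h0 h1
  ext <;> simp <;> omega

private lemma v1_inj : Function.Injective v1 := by
  rintro ⟨a, b⟩ ⟨c, d⟩ h
  have h0 := congrFun h 0
  have h1 := congrFun h 1
  simp [v1] at h0 h1
  ext <;> simp <;> omega

private lemma v0_one (k : ℤ × ℤ) : 1 ≤ ‖v0 k‖ := by
  have h := EisensteinSeries.abs_le_left_of_norm (2 * k.2) (2 * k.1 + 1)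
  have h1 : (1 : ℤ) ≤ |2 * k.1 + 1| := by
    rw [le_abs]; omega
  have h2 : (1 : ℝ) ≤ ((|2 * k.1 + 1| : ℤ) : ℝ) := by exact_mod_cast h1
  exact h2.trans h

private lemma v1_one (k : ℤ × ℤ) : 1 ≤ ‖v1 k‖ := by
  have h := EisensteinSeries.abs_le_left_of_norm (2 * k.2 + 1) (2 * k.1 + 1)
  have h1 : (1 : ℤ) ≤ |2 * k.1 + 1| := by
    rw [le_abs]; omega
  have h2 : (1 : ℝ) ≤ ((|2 * k.1 + 1| : ℤ) : ℝ) := by exact_mod_cast h1
  exact h2.trans h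

private lemma low {τ : ℂ} (hτ : 0 < τ.im) : ∃ c : ℝ, 0 < c ∧ ∀ k : ℤ × ℤ,
    c * ‖v0 k‖ ≤ ‖(2 * k.1 + 1) * τ + 2 * k.2‖ ∧
    c * ‖v1 k‖ ≤ ‖(2 * k.1 + 1) * τ + 2 * k.2 + 1‖ := by
  refine ⟨EisensteinSeries.r ⟨τ, hτ⟩, EisensteinSeries.r_pos _, fun k => ⟨?_, ?_⟩⟩
  · have h := EisensteinSeries.r_mul_max_le ⟨τ, hτ⟩ (x := v0 k)
      (by intro h0; have := v0_one k; rw [h0, norm_zero] at this; linarith)
    simpa [v0] using h
  · have h := EisensteinSeries.r_mul_max_le ⟨τ, hτ⟩ (x := v1 k)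
      (by intro h0; have := v1_one k; rw [h0, norm_zero] at this; linarith)
    have e : (2 * k.1 + 1) * τ + 2 * k.2 + 1 = (2 * k.1 + 1) * τ + (2 * k.2 + 1) := by ring
    rw [e]
    simpa [v1] using h

private lemma dom {τ : ℂ} (hτ : 0 < τ.im) : ∃ B : ℤ × ℤ → ℝ, Summable B ∧
    (∀ k, ∀ s : ℝ, 1 ≤ s → s ≤ 2 → |tt τ s k| ≤ B k) ∧
    ∀ k : ℤ × ℤ, ‖(2 * k.1 + 1) * τ + 2 * k.2‖ ≠ 0 ∧
      ‖(2 * k.1 + 1) * τ + 2 * k.2 + 1‖ ≠ 0 := by
  obtain ⟨c, hc, h⟩ := low hτ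
  have hs := EisensteinSeries.summable_one_div_norm_rpow (k := 3) (by norm_num)
  refine ⟨fun k => 4 * (1 + c⁻¹ ^ 2) * c ^ (-(3 : ℝ)) * (‖v0 k‖ ^ (-(3 : ℝ)) + ‖v1 k‖ ^ (-(3 : ℝ))),
    ((hs.comp_injective v0_inj).add (hs.comp_injective v1_inj)).mul_left _, fun k s h1 h2 => ?_,
    fun k => ⟨?_, ?_⟩⟩
  · refine aux_main hc (v0_one k) (v1_one k) (h k).1 (h k).2 ?_ h1 h2
    refine (abs_norm_sub_norm_le _ _).trans ?_
    rw [sub_add_cancel_left]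
    simp
  · have := (h k).1
    have := v0_one k
    have : 0 < c * ‖v0 k‖ := by positivity
    linarith
  · have := (h k).2
    have := v1_one k
    have : 0 < c * ‖v1 k‖ := by positivity
    linarith

theorem summable_tt {τ : ℂ} (hτ : 0 < τ.im) : Summable (tt τ 1) := by
  obtain ⟨B, hB, h, -⟩ := dom hτ
  exact Summable.of_norm_bounded hB (fun k => h k 1 le_rfl one_le_two)

theorem tendsto_tt {τ : ℂ} (hτ : 0 < τ.im) :
    Tendsto (fun s : ℝ => ∑' k : ℤ × ℤ, tt τ s k) (𝓝[>] 1) (𝓝 (∑' k : ℤ × ℤ, tt τ 1 k)) := by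
  obtain ⟨B, hB, h, hne⟩ := dom hτ
  refine tendsto_tsum_of_dominated_convergence hB (fun k => ?_) ?_
  · have hcont : ContinuousAt (fun s : ℝ => tt τ s k) 1 := by
      unfold tt
      refine ContinuousAt.sub ?_ ?_
      · exact ContinuousAt.rpow continuousAt_const (by fun_prop) (Or.inl (hne k).1)
      · exact ContinuousAt.rpow continuousAt_const (by fun_prop) (Or.inl (hne k).2)
    exact hcont.tendsto.mono_left nhdsWithin_le_nhds
  · have h2 : Set.Ioo (1 : ℝ) 2 ∈ 𝓝[>] (1 : ℝ) := Ioo_mem_nhdsGT one_lt_two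
    filter_upwards [h2] with s hs k
    exact h k s hs.1.le hs.2.le

end Pool.Agent.Work.MP_8efaaa_nt.KL
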