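import Mathlib
import Pool.Agent.Work.CM.Evp

/-!
# KL/EvLin (S): even elliptic functions with a double pole at zero

As in the proof of `IsLat.even_poly` (case `N = 0` of the step), or from its statement with `N = 1`: `f = P (wp L)`, and
`‖z ^ 2 P (wp L z)‖ ≤ C` near zero, where `wp L z ~ 1 / z ^ 2` (`IsLat.exists_local`), so `‖P (x)‖ ≤ C' ‖x‖` for large
`‖x‖` in the image, hence `P.natDegree ≤ 1`.
-/

set_option autoImplicit false

namespace Pool.Agent.Work.MP_8efaaa_nt.KL

open Filter Topology Pool.Agent.Work.CM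

variable {L : Submodule ℤ ℂ}

theorem even_lin (h : IsLat L) {f : ℂ → ℂ} (hf : AnalyticOnNhd ℂ f (L : Set ℂ)ᶜ)
    (hper : ∀ z, ∀ l ∈ L, f (z + l) = f z) (heven : ∀ z, f (-z) = f z) {C : ℝ}
    (hb : ∀ᶠ z in 𝓝[≠] (0 : ℂ), ‖z ^ 2 * f z‖ ≤ C) :
    ∃ a b : ℂ, ∀ z ∉ L, f z = a * wp L z + b := by
  obtain ⟨P, hP⟩ := h.even_poly (N := 1) hf hper heven (C := C) (by simpa using hb)
  obtain ⟨φ, hφ, hφ0, hφz⟩ := h.exists_local
  have hdeg : P.natDegree ≤ 1 := by
    by_contra hcon
    have hn : 2 ≤ P.natDegree := by omega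
    let K : ℂ → ℂ := fun z => ∑ i ∈ Finset.range (P.natDegree + 1),
      P.coeff i * z ^ (2 * (P.natDegree - i)) * (1 + z ^ 2 * φ z) ^ i
    have hKc : ContinuousAt K 0 := by
      refine tendsto_finsetSum _ fun i _ => ?_
      exact (continuousAt_const.mul (continuousAt_id.pow _)).mul
        ((continuousAt_const.add ((continuousAt_id.pow 2).mul hφ.continuousAt)).pow _)
    have hK0 : K 0 = P.leadingCoeff := by
      simp only [K]
      rw [Finset.sum_range_succ, Finset.sum_eq_zero, zero_add]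
      · simp
      · intro i hi
        have h1 : 2 * (P.natDegree - i) ≠ 0 := by
          have := Finset.mem_range.1 hi
          omega
        rw [zero_pow h1]
        ring
    have hKz : ∀ᶠ z in 𝓝[≠] (0 : ℂ), K z = z ^ (2 * P.natDegree - 2) * (z ^ 2 * f z) := by
      filter_upwards [h.compl_mem_nhdsNE 0, self_mem_nhdsWithin] with z hz hz0
      have hz0' : z ≠ 0 := hz0
      rw [hP z hz, Polynomial.eval_eq_sum_range, Finset.mul_sum, Finset.mul_sum]
      refine Finset.sum_congr rfl fun i hi => ?_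
      have hi' : i ≤ P.natDegree := by
        have := Finset.mem_range.1 hi
        omega
      have h1 : z ^ 2 * wp L z = 1 + z ^ 2 * φ z := by
        rw [hφz z]
        field_simp
      rw [← h1, mul_pow, ← pow_mul]
      have h2 : z ^ (2 * P.natDegree - 2) * z ^ 2 = z ^ (2 * (P.natDegree - i)) * z ^ (2 * i) := by
        rw [← pow_add, ← pow_add]
        congr 1
        omega
      linear_combination (-(P.coeff i * wp L z ^ i)) * h2
    have hlim : Tendsto K (𝓝[≠] (0 : ℂ)) (𝓝 0) := by
      have h1 : Tendsto (fun z : ℂ => ‖z‖ ^ (2 * P.natDegree - 2) * C) (𝓝[≠] (0 : ℂ)) (𝓝 0) := by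
        have h2 : ContinuousAt (fun z : ℂ => ‖z‖ ^ (2 * P.natDegree - 2) * C) 0 := by fun_prop
        have h3 := h2.tendsto
        simp only [norm_zero] at h3
        rw [zero_pow (by omega), zero_mul] at h3
        exact h3.mono_left nhdsWithin_le_nhds
      refine squeeze_zero_norm' ?_ h1
      filter_upwards [hKz, hb] with z hz hz'
      rw [hz, norm_mul, norm_pow]
      exact mul_le_mul_of_nonneg_left hz' (by positivity)
    have h0 : P.leadingCoeff = 0 := by
      rw [← hK0]
      exact tendsto_nhds_unique (hKc.tendsto.mono_left nhdsWithin_le_nhds) hlim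
    rw [Polynomial.leadingCoeff_eq_zero] at h0
    rw [h0, Polynomial.natDegree_zero] at hn
    omega
  refine ⟨P.coeff 1, P.coeff 0, fun z hz => ?_⟩
  rw [hP z hz]
  conv_lhs => rw [Polynomial.eq_X_add_C_of_natDegree_le_one hdeg]
  simp

end Pool.Agent.Work.MP_8efaaa_nt.KL
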