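import Mathlib
import Pool.Agent.Work.MP_8efaaa_nt.KL.Defs

/-!
# KL/Row (M): the sum over a row

Here `y = z.im > 0`, `P = exp (π i z)`. `1 / |x|^2 = -(1 / x.im) Im (1 / x)` for `x = z + n` (`x.im = y`), so the sum over `n` of
`(-1) ^ n / |z + n|^2` is `-(1 / y) Im ∑ (-1)^n / (z + n)`, and `∑ (-1)^n / (z + n) = π / sin (π z)`, in the form
`∑_j (1 / (z + 2 j) - 1 / (z + 2 j + 1)) = π / sin (π z)`: from the series of the cotangent in Mathlib
(`cot_series_rep'`, `pi_mul_cot_pi_q_exp`, `Mathlib/Analysis/SpecialFunctions/Trigonometric/Cotangent.lean`):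
`π cot (π z) = 1 / z + ∑_{n ≥ 1} (1 / (z - n) + 1 / (z + n))`, applied to `z / 2` and `z`, with
`1 / sin x = cot (x / 2) - cot x`; or to `z / 2` and `(z + 1) / 2`: `π / sin (π z) = (π / 2) (cot (π z / 2) - cot (π (z + 1) / 2))
= (π/2) (cot (π z / 2) + tan (π z / 2))`, which gives at once the sum over `j` of `1 / (z + 2 j) - 1 / (z + 2 j + 1)` (this is summable
over `j ∈ ℤ`; the cotangent series is a sum over `n ≥ 1` of the terms `±n`, `HasSum.of_nat_of_neg_add_one`-like lemmas, or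
`Summable.tsum_of_nat_of_neg`...). Finally `1 / sin (π z) = 2 i / (P - P⁻¹) = -2 i P / (1 - P ^ 2)`.
-/

set_option autoImplicit false

namespace Pool.Agent.Work.MP_8efaaa_nt.KL

open Filter Topology

theorem hasSum_row {z : ℂ} (hz : 0 < z.im) :
    HasSum (fun j : ℤ => (‖z + 2 * j‖ ^ 2)⁻¹ - (‖z + 2 * j + 1‖ ^ 2)⁻¹)
      (2 * Real.pi / z.im * (nome z / (1 - nome z ^ 2)).re) := by
  sorry

end Pool.Agent.Work.MP_8efaaa_nt.KL
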