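import Mathlib
import Pool.Agent.Work.MP_8efaaa_nt.KL.Defs
import Pool.Agent.Work.MP_8efaaa_nt.KL.Dom
import Pool.Agent.Work.MP_8efaaa_nt.KL.Row

/-!
# KL/LogS (M): the value of the double sum

`p = nome τ`, `‖p‖ = exp (-π τ.im) < 1`, `nome ((2 k + 1) τ) = p ^ (2 k + 1)` for `k : ℕ`. `tt τ 1 (k, j)` is the term of the row
`z = (2 k + 1) τ` (`‖x‖ ^ (-(2 * 1)) = (‖x‖ ^ 2)⁻¹`). By `summable_tt`, `∑' k : ℤ × ℤ = ∑' k, ∑' j` (`Summable.tsum_prod`). For `k ≥ 0` the row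
has the sum `2 π / ((2 k + 1) τ.im) Re (p ^ (2 k + 1) / (1 - p ^ (2 (2 k + 1))))` (`hasSum_row`); the row of `-1 - k` has the same sum
(`(2 (-1 - k) + 1) τ = -(2 k + 1) τ`, substitute `j ↦ -j` in the first and `j ↦ -1 - j` in the second term: `‖-z + 2 j‖ = ‖z - 2 j‖`,
`‖-z + 2 j + 1‖ = ‖z - 2 j - 1‖ = ‖z + 2 (-1 - j) + 1‖`; as the two parts are separately summable over `j`, this is allowed). So the sum is
`(4 π / τ.im) ∑_{k ≥ 0} (1 / (2 k + 1)) Re (p ^ (2 k + 1) / (1 - p ^ (2 (2 k + 1))))`, and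
`∑_k (1 / (2 k + 1)) p ^ (2 k + 1) / (1 - p ^ (2 (2 k + 1))) = ∑_k ∑_j (p ^ (2 j + 1)) ^ (2 k + 1) / (2 k + 1)` (geometric series)
`= ∑_j (1 / 2) (log (1 + p ^ (2 j + 1)) - log (1 - p ^ (2 j + 1)))` (`Complex.hasSum_log_sub_log_of_abs_lt_one`-like, or from
`Complex.hasSum_taylorSeries_neg_log` for `±x`), absolutely summable, real part `(1 / 2) log ‖(1 + p ^ (2 j + 1)) / (1 - p ^ (2 j + 1))‖`
(`Complex.log_re`).
-/

set_option autoImplicit false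

namespace Pool.Agent.Work.MP_8efaaa_nt.KL

open Filter Topology

private theorem odd_log {y : ℂ} (hy : ‖y‖ < 1) :
    HasSum (fun k : ℕ => y ^ (2 * k + 1) / ((2 * k + 1 : ℕ) : ℂ))
      ((Complex.log (1 + y) - Complex.log (1 - y)) / 2) := by
  have a := Complex.hasSum_taylorSeries_neg_log hy
  have b := Complex.hasSum_taylorSeries_neg_log (z := -y) (by rwa [norm_neg])
  have c := (a.sub b).div_const 2
  rw [sub_neg_eq_add] at c
  have hinj : Function.Injective (fun k : ℕ => 2 * k + 1) := by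
    intro k l hkl
    simpa using hkl
  have hz : ∀ n, n ∉ Set.range (fun k : ℕ => 2 * k + 1) → (y ^ n / (n : ℂ) - (-y) ^ n / (n : ℂ)) / 2 = 0 := by
    intro n hn
    have he : Even n := by
      by_contra ho
      rw [Nat.not_even_iff_odd] at ho
      obtain ⟨k, hk⟩ := ho
      exact hn ⟨k, hk.symm⟩
    rw [he.neg_pow, sub_self, zero_div]
  have d := (hinj.hasSum_iff hz).2 c
  have e : (fun n : ℕ => (y ^ n / (n : ℂ) - (-y) ^ n / (n : ℂ)) / 2) ∘ (fun k : ℕ => 2 * k + 1) =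
      fun k : ℕ => y ^ (2 * k + 1) / ((2 * k + 1 : ℕ) : ℂ) := by
    funext k
    have ho : Odd (2 * k + 1) := ⟨k, rfl⟩
    show (y ^ (2 * k + 1) / ((2 * k + 1 : ℕ) : ℂ) - (-y) ^ (2 * k + 1) / ((2 * k + 1 : ℕ) : ℂ)) / 2 = _
    rw [ho.neg_pow]
    ring
  rw [e] at d
  convert d using 1
  ring

private theorem odd_log_re {y : ℂ} (hy : ‖y‖ < 1) :
    HasSum (fun k : ℕ => (y ^ (2 * k + 1)).re / ((2 * k + 1 : ℕ) : ℝ))
      (1 / 2 * Real.log ‖(1 + y) / (1 - y)‖) := by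
  have h := Complex.hasSum_re (odd_log hy)
  have e1 : ∀ k : ℕ, (y ^ (2 * k + 1) / ((2 * k + 1 : ℕ) : ℂ)).re =
      (y ^ (2 * k + 1)).re / ((2 * k + 1 : ℕ) : ℝ) := fun k => by
    rw [← Complex.ofReal_natCast, Complex.div_ofReal_re]
  simp only [e1] at h
  have h1 : 1 + y ≠ 0 := by
    intro h0
    have : y = -1 := by linear_combination h0
    rw [this] at hy
    simp at hy
  have h2 : 1 - y ≠ 0 := by
    intro h0
    have : y = 1 := by linear_combination -h0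
    rw [this] at hy
    simp at hy
  have e2 : ((Complex.log (1 + y) - Complex.log (1 - y)) / 2).re =
      1 / 2 * Real.log ‖(1 + y) / (1 - y)‖ := by
    have e3 : ((Complex.log (1 + y) - Complex.log (1 - y)) / 2).re =
        (Complex.log (1 + y) - Complex.log (1 - y)).re / 2 := by
      simp
    rw [e3, Complex.sub_re, Complex.log_re, Complex.log_re, norm_div,
      Real.log_div (norm_ne_zero_iff.2 h1) (norm_ne_zero_iff.2 h2)]
    ring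
  rw [e2] at h
  exact h

private theorem odd_geom {x : ℂ} (hx : ‖x‖ < 1) :
    HasSum (fun j : ℕ => x ^ (2 * j + 1)) (x / (1 - x ^ 2)) := by
  have h1 : ‖x ^ 2‖ < 1 := by
    rw [norm_pow]
    exact pow_lt_one₀ (norm_nonneg _) hx two_ne_zero
  have h := (hasSum_geometric_of_norm_lt_one h1).mul_left x
  rw [← div_eq_mul_inv] at h
  refine h.congr_fun ?_
  intro j
  ring

private theorem norm_nome {τ : ℂ} (hτ : 0 < τ.im) : ‖nome τ‖ < 1 := by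
  unfold nome
  rw [Complex.norm_exp]
  have e : (Real.pi * Complex.I * τ).re = -(Real.pi * τ.im) := by
    simp
  rw [e]
  rw [← Real.exp_zero]
  exact Real.exp_lt_exp.2 (by have := mul_pos Real.pi_pos hτ; linarith)

private noncomputable def Gg (p : ℂ) (k : ℕ × ℕ) : ℝ :=
  (p ^ ((2 * k.1 + 1) * (2 * k.2 + 1))).re / ((2 * k.1 + 1 : ℕ) : ℝ)

private theorem summable_Gg {p : ℂ} (hp : ‖p‖ < 1) : Summable (Gg p) := by
  have h1 : Summable (fun n : ℕ => ‖p‖ ^ n) := summable_geometric_of_lt_one (norm_nonneg _) hp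
  have h2 := h1.mul_of_nonneg h1 (fun n => by positivity) (fun n => by positivity)
  refine h2.of_norm_bounded fun k => ?_
  unfold Gg
  rw [norm_div, Real.norm_eq_abs, Real.norm_natCast]
  have h3 : |(p ^ ((2 * k.1 + 1) * (2 * k.2 + 1))).re| ≤ ‖p‖ ^ ((2 * k.1 + 1) * (2 * k.2 + 1)) := by
    rw [← norm_pow]
    exact Complex.abs_re_le_norm _
  have h4 : ‖p‖ ^ ((2 * k.1 + 1) * (2 * k.2 + 1)) ≤ ‖p‖ ^ (k.1 + k.2) :=
    pow_le_pow_of_le_one (norm_nonneg _) hp.le (by nlinarith)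
  have h5 : (1 : ℝ) ≤ ((2 * k.1 + 1 : ℕ) : ℝ) := by
    exact_mod_cast Nat.le_add_left 1 (2 * k.1)
  calc |(p ^ ((2 * k.1 + 1) * (2 * k.2 + 1))).re| / ((2 * k.1 + 1 : ℕ) : ℝ)
      ≤ |(p ^ ((2 * k.1 + 1) * (2 * k.2 + 1))).re| := div_le_self (abs_nonneg _) h5
    _ ≤ ‖p‖ ^ (k.1 + k.2) := h3.trans h4
    _ = ‖p‖ ^ k.1 * ‖p‖ ^ k.2 := pow_add _ _ _

private theorem norm_pow_lt {p : ℂ} (hp : ‖p‖ < 1) (k : ℕ) : ‖p ^ (2 * k + 1)‖ < 1 := by
  rw [norm_pow]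
  exact pow_lt_one₀ (norm_nonneg _) hp (by omega)

private theorem row_Gg {p : ℂ} (hp : ‖p‖ < 1) (k : ℕ) :
    HasSum (fun j : ℕ => Gg p (k, j))
      ((p ^ (2 * k + 1) / (1 - (p ^ (2 * k + 1)) ^ 2)).re / ((2 * k + 1 : ℕ) : ℝ)) := by
  have h := (Complex.hasSum_re (odd_geom (norm_pow_lt hp k))).div_const ((2 * k + 1 : ℕ) : ℝ)
  refine h.congr_fun ?_
  intro j
  show Gg p (k, j) = _
  unfold Gg
  rw [pow_mul]

private theorem col_Gg {p : ℂ} (hp : ‖p‖ < 1) (j : ℕ) :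
    HasSum (fun k : ℕ => Gg p (k, j))
      (1 / 2 * Real.log ‖(1 + p ^ (2 * j + 1)) / (1 - p ^ (2 * j + 1))‖) := by
  have h := odd_log_re (norm_pow_lt hp j)
  refine h.congr_fun ?_
  intro k
  show Gg p (k, j) = _
  unfold Gg
  rw [mul_comm (2 * k + 1), pow_mul]

private theorem tt_eq (τ : ℂ) (k j : ℤ) : tt τ 1 (k, j) =
    (‖(2 * (k : ℂ) + 1) * τ + 2 * (j : ℂ)‖ ^ 2)⁻¹ - (‖(2 * (k : ℂ) + 1) * τ + 2 * (j : ℂ) + 1‖ ^ 2)⁻¹ := by
  unfold tt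
  have e : ∀ x : ℝ, 0 ≤ x → x ^ (-(2 * (1 : ℝ))) = (x ^ 2)⁻¹ := by
    intro x hx
    rw [mul_one, Real.rpow_neg hx]
    norm_num
  rw [e _ (norm_nonneg _), e _ (norm_nonneg _)]

private theorem nome_odd (τ : ℂ) (k : ℕ) : nome ((2 * (k : ℂ) + 1) * τ) = nome τ ^ (2 * k + 1) := by
  unfold nome
  rw [← Complex.exp_nat_mul]
  congr 1
  push_cast
  ring

private theorem row_pos {τ : ℂ} (hτ : 0 < τ.im) (k : ℕ) :
    HasSum (fun j : ℤ => tt τ 1 ((k : ℤ), j)) (2 * Real.pi / τ.im *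
      ((nome τ ^ (2 * k + 1) / (1 - (nome τ ^ (2 * k + 1)) ^ 2)).re / ((2 * k + 1 : ℕ) : ℝ))) := by
  have him : ((2 * (k : ℂ) + 1) * τ).im = ((2 * k + 1 : ℕ) : ℝ) * τ.im := by
    have e : (2 * (k : ℂ) + 1) = ((((2 * k + 1 : ℕ) : ℝ)) : ℂ) := by push_cast; ring
    rw [e, Complex.im_ofReal_mul]
  have hpos : 0 < ((2 * (k : ℂ) + 1) * τ).im := by
    rw [him]
    positivity
  have h := hasSum_row hpos
  rw [nome_odd, him] at h
  have e2 : 2 * Real.pi / (((2 * k + 1 : ℕ) : ℝ) * τ.im) *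
      (nome τ ^ (2 * k + 1) / (1 - (nome τ ^ (2 * k + 1)) ^ 2)).re = 2 * Real.pi / τ.im *
      ((nome τ ^ (2 * k + 1) / (1 - (nome τ ^ (2 * k + 1)) ^ 2)).re / ((2 * k + 1 : ℕ) : ℝ)) := by
    have h0 : ((2 * k + 1 : ℕ) : ℝ) ≠ 0 := by positivity
    field_simp
  rw [e2] at h
  refine h.congr_fun ?_
  intro j
  show tt τ 1 ((k : ℤ), j) = _
  rw [tt_eq]
  simp only [Int.cast_natCast]

private theorem row_neg {τ : ℂ} (hτ : 0 < τ.im) (k : ℕ) :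
    HasSum (fun j : ℤ => tt τ 1 (-((k : ℤ) + 1), j)) (2 * Real.pi / τ.im *
      ((nome τ ^ (2 * k + 1) / (1 - (nome τ ^ (2 * k + 1)) ^ 2)).re / ((2 * k + 1 : ℕ) : ℝ))) := by
  set σ : ℂ := -(starRingEnd ℂ) τ with hσ
  have hσi : σ.im = τ.im := by rw [hσ, Complex.neg_im, Complex.conj_im, neg_neg]
  have hσ0 : 0 < σ.im := by rw [hσi]; exact hτ
  have hn : nome σ = (starRingEnd ℂ) (nome τ) := by
    unfold nome
    rw [← Complex.exp_conj]
    congr 1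
    rw [map_mul, map_mul, Complex.conj_I, Complex.conj_ofReal, hσ]
    ring
  have h := row_pos hσ0 k
  rw [hσi, hn] at h
  have e3 : ((starRingEnd ℂ) (nome τ) ^ (2 * k + 1) /
      (1 - ((starRingEnd ℂ) (nome τ) ^ (2 * k + 1)) ^ 2)).re =
      (nome τ ^ (2 * k + 1) / (1 - (nome τ ^ (2 * k + 1)) ^ 2)).re := by
    rw [← Complex.conj_re (nome τ ^ (2 * k + 1) / (1 - (nome τ ^ (2 * k + 1)) ^ 2))]
    congr 1
    simp only [map_div₀, map_sub, map_one, map_pow]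
  rw [e3] at h
  refine h.congr_fun ?_
  intro j
  show tt τ 1 (-((k : ℤ) + 1), j) = tt σ 1 ((k : ℤ), j)
  rw [tt_eq, tt_eq]
  have c1 : (2 * ((-((k : ℤ) + 1) : ℤ) : ℂ) + 1) * τ + 2 * (j : ℂ) =
      (starRingEnd ℂ) ((2 * ((k : ℤ) : ℂ) + 1) * σ + 2 * (j : ℂ)) := by
    rw [hσ]
    simp only [map_add, map_mul, map_neg, map_one, Complex.conj_conj, map_intCast,
      Complex.conj_ofNat]
    push_cast
    ring
  have c2 : (2 * ((-((k : ℤ) + 1) : ℤ) : ℂ) + 1) * τ + 2 * (j : ℂ) + 1 =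
      (starRingEnd ℂ) ((2 * ((k : ℤ) : ℂ) + 1) * σ + 2 * (j : ℂ) + 1) := by
    rw [c1, map_add _ _ (1 : ℂ), map_one]
  rw [c2, c1, Complex.norm_conj, Complex.norm_conj]

theorem summable_log {τ : ℂ} (hτ : 0 < τ.im) :
    Summable fun k : ℕ =>
      Real.log ‖(1 + nome τ ^ (2 * k + 1)) / (1 - nome τ ^ (2 * k + 1))‖ := by
  have hp := norm_nome hτ
  have h1 := (summable_Gg hp).prod_symm.prod
  have h2 : (fun j : ℕ => ∑' k : ℕ, Gg (nome τ) (k, j)) = fun j : ℕ =>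
      1 / 2 * Real.log ‖(1 + nome τ ^ (2 * j + 1)) / (1 - nome τ ^ (2 * j + 1))‖ :=
    funext fun j => (col_Gg hp j).tsum_eq
  have h3 : Summable fun j : ℕ =>
      1 / 2 * Real.log ‖(1 + nome τ ^ (2 * j + 1)) / (1 - nome τ ^ (2 * j + 1))‖ := by
    rw [← h2]
    exact h1
  have h4 := h3.mul_left 2
  refine h4.congr fun k => ?_
  ring

theorem tsum_tt {τ : ℂ} (hτ : 0 < τ.im) :
    ∑' k : ℤ × ℤ, tt τ 1 k = 2 * Real.pi / τ.im *
      ∑' k : ℕ, Real.log ‖(1 + nome τ ^ (2 * k + 1)) / (1 - nome τ ^ (2 * k + 1))‖ := by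
  have hp := norm_nome hτ
  have hs := summable_tt hτ
  have hF := hs.prod
  set c : ℕ → ℝ := fun k => 2 * Real.pi / τ.im *
    ((nome τ ^ (2 * k + 1) / (1 - (nome τ ^ (2 * k + 1)) ^ 2)).re / ((2 * k + 1 : ℕ) : ℝ)) with hc
  have e1 : ∀ k : ℕ, ∑' j : ℤ, tt τ 1 ((k : ℤ), j) = c k := fun k => (row_pos hτ k).tsum_eq
  have e2 : ∀ k : ℕ, ∑' j : ℤ, tt τ 1 (-((k : ℤ) + 1), j) = c k := fun k => (row_neg hτ k).tsum_eq
  have hsum : Summable fun k : ℕ => ∑' j : ℕ, Gg (nome τ) (k, j) := (summable_Gg hp).prod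
  have hrow : ∀ k : ℕ, c k = 2 * Real.pi / τ.im * ∑' j : ℕ, Gg (nome τ) (k, j) := by
    intro k
    rw [(row_Gg hp k).tsum_eq]
  have hcs : Summable c := by
    have : c = fun k => 2 * Real.pi / τ.im * ∑' j : ℕ, Gg (nome τ) (k, j) := funext hrow
    rw [this]
    exact hsum.mul_left _
  have h1 : ∑' k : ℤ × ℤ, tt τ 1 k = ∑' k : ℤ, ∑' j : ℤ, tt τ 1 (k, j) := hs.tsum_prod
  rw [h1, tsum_of_nat_of_neg_add_one]
  · simp only [e1, e2]
    have h2 : ∑' k, c k = 2 * Real.pi / τ.im * ∑' k : ℕ, ∑' j : ℕ, Gg (nome τ) (k, j) := by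
      simp only [hrow]
      exact tsum_mul_left
    have h3 : ∑' k : ℕ, ∑' j : ℕ, Gg (nome τ) (k, j) = ∑' j : ℕ, ∑' k : ℕ, Gg (nome τ) (k, j) :=
      (Summable.tsum_comm (f := fun k j => Gg (nome τ) (k, j)) (summable_Gg hp)).symm
    have h4 : ∑' j : ℕ, ∑' k : ℕ, Gg (nome τ) (k, j) = 1 / 2 *
        ∑' k : ℕ, Real.log ‖(1 + nome τ ^ (2 * k + 1)) / (1 - nome τ ^ (2 * k + 1))‖ := by
      rw [← tsum_mul_left]
      exact tsum_congr fun j => (col_Gg hp j).tsum_eq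
    rw [h2, h3, h4]
    ring
  · simp only [e1]
    exact hcs
  · simp only [e2]
    exact hcs

end Pool.Agent.Work.MP_8efaaa_nt.KL
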