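import Mathlib
import Pool.Agent.Work.MP_8efaaa_nt.KL.Defs

/-!
# KL/Prod (M): the theta products

`p = nome τ`, `‖p‖ < 1`. `mult`: the factors are `1 + g k z` with `∑ ‖g k z‖ < ∞` locally uniformly in `z`
(`multipliable_one_add_of_summable`, `Complex.differentiableOn_tprod...`; in Mathlib the analyticity of such
products: `Mathlib/Analysis/Complex/...`, `HasProdLocallyUniformlyOn`, `Summable.hasProdLocallyUniformlyOn_one_add`-like lemmas, as used for
the function `eta` in `Mathlib/NumberTheory/ModularForms/DedekindEta.lean`; then `DifferentiableOn` of a locally uniform limit).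
`ne`: a product of nonzero factors `1 + a_k` with `∑ ‖a_k‖ < ∞` is not zero (`tprod_one_add_ne_zero_of_summable` or the
variant used for `eta`). `add_tau`: with `w = exp (2 π i z)`, `ph e τ z = (1 + e p w) R`, `ph e τ (z + τ) = (1 + e p⁻¹ w⁻¹) R` with the same `R`
(shift the index of the first family by one up, of the second by one down; split the products into the product over the factors in `w` and
the product over the factors in `w⁻¹`, both multipliable), and `1 + e p⁻¹ w⁻¹ = e p⁻¹ w⁻¹ (1 + e p w)` as `e ^ 2 = 1`.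
`fac`: split off the second factor of `k = 0`; `R` is the product of all the others.
-/

set_option autoImplicit false

namespace Pool.Agent.Work.MP_8efaaa_nt.KL

open Filter Topology

variable {e τ z : ℂ}

private theorem nome_norm (hτ : 0 < τ.im) : ‖nome τ‖ < 1 := by
  unfold nome
  rw [Complex.norm_exp]
  have : (Real.pi * Complex.I * τ : ℂ).re = -(Real.pi * τ.im) := by
    simp [Complex.mul_re]
  rw [this]
  have := mul_pos Real.pi_pos hτ
  exact Real.exp_lt_one_iff.2 (by linarith)

private theorem nome_ne (τ : ℂ) : nome τ ≠ 0 := Complex.exp_ne_zero _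

private noncomputable def FF (p c : ℂ) : ℂ := ∏' k : ℕ, (1 + c * p ^ (2 * k + 1))

private theorem summ_FF {p : ℂ} (hp : ‖p‖ < 1) (c : ℂ) :
    Summable fun k : ℕ => ‖c * p ^ (2 * k + 1)‖ := by
  have h1 : Summable fun k : ℕ => (‖p‖ ^ 2) ^ k :=
    summable_geometric_of_lt_one (by positivity) (by nlinarith [norm_nonneg p])
  have h2 := h1.mul_left (‖c‖ * ‖p‖)
  refine h2.congr fun k => ?_
  rw [norm_mul, norm_pow, ← pow_mul, pow_succ]
  ring

private theorem mult_FF {p : ℂ} (hp : ‖p‖ < 1) (c : ℂ) :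
    Multipliable fun k : ℕ => 1 + c * p ^ (2 * k + 1) :=
  multipliable_one_add_of_summable (summ_FF hp c)

private theorem diff_FF {p : ℂ} (hp : ‖p‖ < 1) : Differentiable ℂ (FF p) := by
  have key : ∀ R : ℝ, 0 < R → DifferentiableOn ℂ (FF p) (Metric.ball 0 R) := by
    intro R hR
    have h1 : Summable fun k : ℕ => ‖((R : ℝ) : ℂ) * p ^ (2 * k + 1)‖ := summ_FF hp _
    have h2 := h1.hasProdLocallyUniformlyOn_nat_one_add (f := fun (k : ℕ) (c : ℂ) => c * p ^ (2 * k + 1))
      (K := Metric.ball (0 : ℂ) R) Metric.isOpen_ball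
      (.of_forall fun n x hx => by
        rw [norm_mul, norm_mul, Complex.norm_real, Real.norm_of_nonneg hR.le]
        have hx' : ‖x‖ < R := by simpa using hx
        gcongr) (fun _ => by fun_prop)
    exact h2.differentiableOn
      (.of_forall fun _ ↦ by simpa [Finset.prod_fn] using
        DifferentiableOn.finsetProd (fun _ _ ↦ by fun_prop)) Metric.isOpen_ball
  intro c
  exact (key (‖c‖ + 1) (by positivity)).differentiableAt
    (Metric.isOpen_ball.mem_nhds (by simp))

private theorem ne_FF {p : ℂ} (hp : ‖p‖ < 1) {c : ℂ} (h : ∀ k : ℕ, 1 + c * p ^ (2 * k + 1) ≠ 0) :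
    FF p c ≠ 0 :=
  tprod_one_add_ne_zero_of_summable h (summ_FF hp c)

private theorem shift_FF {p : ℂ} (hp : ‖p‖ < 1) (c : ℂ) :
    FF p c = (1 + c * p) * FF p (c * p ^ 2) := by
  have h := mult_FF hp (c * p ^ 2)
  have h' : (fun k : ℕ => 1 + c * p ^ 2 * p ^ (2 * k + 1)) =
      fun k : ℕ => (fun n : ℕ => 1 + c * p ^ (2 * n + 1)) (k + 1) := by
    funext k
    have : 2 * (k + 1) + 1 = 2 + (2 * k + 1) := by ring
    simp only [this, pow_add p 2]
    ring
  rw [h'] at h
  have h2 := tprod_eq_zero_mul' (f := fun n : ℕ => 1 + c * p ^ (2 * n + 1)) h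
  unfold FF
  rw [h2, h']
  simp

private theorem ph_eq {p : ℂ} (hτ : 0 < τ.im) (hp : nome τ = p) (e z : ℂ) :
    ph e τ z = FF p (e * Complex.exp (2 * Real.pi * Complex.I * z)) *
      FF p (e * Complex.exp (-(2 * Real.pi * Complex.I * z))) := by
  have hn : ‖p‖ < 1 := hp ▸ nome_norm hτ
  unfold ph FF
  rw [← Multipliable.tprod_mul (mult_FF hn _) (mult_FF hn _), hp]
  refine tprod_congr fun k => ?_
  ring

theorem ph_differentiable (e : ℂ) (hτ : 0 < τ.im) : Differentiable ℂ (ph e τ) := by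
  have hn : ‖nome τ‖ < 1 := nome_norm hτ
  have h : ph e τ = fun z => FF (nome τ) (e * Complex.exp (2 * Real.pi * Complex.I * z)) *
      FF (nome τ) (e * Complex.exp (-(2 * Real.pi * Complex.I * z))) := by
    funext z
    exact ph_eq hτ rfl e z
  rw [h]
  have h1 := diff_FF hn
  exact (h1.comp (by fun_prop)).mul (h1.comp (by fun_prop))

theorem ph_neg (e τ z : ℂ) : ph e τ (-z) = ph e τ z := by
  unfold ph
  refine tprod_congr fun k => ?_
  have h1 : (2 * Real.pi * Complex.I * (-z) : ℂ) = -(2 * Real.pi * Complex.I * z) := by ring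
  rw [h1, neg_neg]
  ring

theorem ph_add_one (e τ z : ℂ) : ph e τ (z + 1) = ph e τ z := by
  unfold ph
  refine tprod_congr fun k => ?_
  have h1 : Complex.exp (2 * Real.pi * Complex.I * (z + 1)) =
      Complex.exp (2 * Real.pi * Complex.I * z) := by
    rw [mul_add, mul_one, Complex.exp_add, Complex.exp_two_pi_mul_I, mul_one]
  have h2 : Complex.exp (-(2 * Real.pi * Complex.I * (z + 1))) =
      Complex.exp (-(2 * Real.pi * Complex.I * z)) := by
    rw [Complex.exp_neg, h1, ← Complex.exp_neg]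
  rw [h1, h2]

theorem ph_add_half (e τ z : ℂ) : ph e τ (z + 1 / 2) = ph (-e) τ z := by
  unfold ph
  refine tprod_congr fun k => ?_
  have h1 : Complex.exp (2 * Real.pi * Complex.I * (z + 1 / 2)) =
      -Complex.exp (2 * Real.pi * Complex.I * z) := by
    have : (2 * Real.pi * Complex.I * (z + 1 / 2) : ℂ) =
      2 * Real.pi * Complex.I * z + Real.pi * Complex.I := by ring
    rw [this, Complex.exp_add, Complex.exp_pi_mul_I]
    ring
  have h2 : Complex.exp (-(2 * Real.pi * Complex.I * (z + 1 / 2))) =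
      -Complex.exp (-(2 * Real.pi * Complex.I * z)) := by
    rw [Complex.exp_neg, h1, Complex.exp_neg, ← neg_inv]
  rw [h1, h2]
  ring

theorem ph_add_tau (he : e ^ 2 = 1) (hτ : 0 < τ.im) (z : ℂ) :
    ph e τ (z + τ) = e * (nome τ)⁻¹ * Complex.exp (-(2 * Real.pi * Complex.I * z)) * ph e τ z := by
  have hn : ‖nome τ‖ < 1 := nome_norm hτ
  have hp0 : nome τ ≠ 0 := nome_ne τ
  rw [ph_eq hτ rfl e z, ph_eq hτ rfl e (z + τ)]
  have h1 : Complex.exp (2 * Real.pi * Complex.I * (z + τ)) =
      Complex.exp (2 * Real.pi * Complex.I * z) * nome τ ^ 2 := by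
    unfold nome
    rw [← Complex.exp_nat_mul, ← Complex.exp_add]
    congr 1
    push_cast
    ring
  have h2 : Complex.exp (-(2 * Real.pi * Complex.I * (z + τ))) =
      Complex.exp (-(2 * Real.pi * Complex.I * z)) * (nome τ ^ 2)⁻¹ := by
    rw [Complex.exp_neg, h1, Complex.exp_neg, mul_inv]
  have hw : Complex.exp (2 * Real.pi * Complex.I * z) *
      Complex.exp (-(2 * Real.pi * Complex.I * z)) = 1 := by
    rw [← Complex.exp_add]
    simp
  rw [h1, h2]
  generalize Complex.exp (2 * Real.pi * Complex.I * z) = w at *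
  generalize Complex.exp (-(2 * Real.pi * Complex.I * z)) = w' at *
  generalize nome τ = p at *
  have e1 := shift_FF hn (e * w)
  have e2 := shift_FF hn (e * (w' * (p ^ 2)⁻¹))
  have e3 : e * (w' * (p ^ 2)⁻¹) * p ^ 2 = e * w' := by
    field_simp
  rw [e3] at e2
  rw [e1, e2, ← mul_assoc e w (p ^ 2)]
  have e4 : 1 + e * (w' * (p ^ 2)⁻¹) * p = e * p⁻¹ * w' * (1 + e * w * p) := by
    have : e * p⁻¹ * w' * (1 + e * w * p) = e * p⁻¹ * w' + e ^ 2 * (w * w') * (p⁻¹ * p) := by ring
    rw [this, he, hw, inv_mul_cancel₀ hp0]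
    field_simp
    ring
  rw [e4]
  ring

/-- the product is not zero if no factor is zero -/
theorem ph_ne (hτ : 0 < τ.im)
    (h : ∀ k : ℕ, 1 + e * nome τ ^ (2 * k + 1) * Complex.exp (2 * Real.pi * Complex.I * z) ≠ 0)
    (h' : ∀ k : ℕ, 1 + e * nome τ ^ (2 * k + 1) * Complex.exp (-(2 * Real.pi * Complex.I * z)) ≠ 0) :
    ph e τ z ≠ 0 := by
  have hn : ‖nome τ‖ < 1 := nome_norm hτ
  rw [ph_eq hτ rfl e z]
  refine mul_ne_zero (ne_FF hn fun k => ?_) (ne_FF hn fun k => ?_)
  · have := h k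
    convert this using 1
    ring
  · have := h' k
    convert this using 1
    ring

/-- near `(1 + τ) / 2`, where the second factor of `k = 0` is zero for `e = 1` -/
theorem ph_fac (hτ : 0 < τ.im) :
    ∃ R : ℂ → ℂ, Continuous R ∧ R ((1 + τ) / 2) ≠ 0 ∧ ∀ z, ph 1 τ z =
      (1 + nome τ * Complex.exp (-(2 * Real.pi * Complex.I * z))) * R z := by
  have hn : ‖nome τ‖ < 1 := nome_norm hτ
  have hp0 : nome τ ≠ 0 := nome_ne τ
  have hd := (diff_FF hn).continuous
  have hw : Complex.exp (2 * Real.pi * Complex.I * ((1 + τ) / 2)) = -nome τ := by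
    unfold nome
    have : (2 * Real.pi * Complex.I * ((1 + τ) / 2) : ℂ) =
      Real.pi * Complex.I + Real.pi * Complex.I * τ := by ring
    rw [this, Complex.exp_add, Complex.exp_pi_mul_I]
    ring
  have hne : FF (nome τ) (-nome τ) ≠ 0 := by
    refine ne_FF hn fun k => ?_
    intro h0
    have h1 : nome τ ^ (2 * k + 2) = 1 := by
      have h2 : (nome τ) ^ (2 * k + 2) = nome τ * nome τ ^ (2 * k + 1) := by ring
      rw [h2]
      linear_combination -h0
    have h2 : ‖nome τ‖ ^ (2 * k + 2) = 1 := by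
      rw [← norm_pow, h1, norm_one]
    have h3 : ‖nome τ‖ ^ (2 * k + 2) < 1 := pow_lt_one₀ (norm_nonneg _) hn (by omega)
    linarith
  refine ⟨fun z => FF (nome τ) (Complex.exp (2 * Real.pi * Complex.I * z)) *
    FF (nome τ) (Complex.exp (-(2 * Real.pi * Complex.I * z)) * nome τ ^ 2), ?_, ?_, ?_⟩
  · exact (hd.comp (by fun_prop)).mul (hd.comp (by fun_prop))
  · have h2 : Complex.exp (-(2 * Real.pi * Complex.I * ((1 + τ) / 2))) * nome τ ^ 2 = -nome τ := by
      rw [Complex.exp_neg, hw]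
      field_simp
    simp only [hw, h2]
    exact mul_ne_zero hne hne
  · intro z
    rw [ph_eq hτ rfl 1 z, one_mul, one_mul,
      shift_FF hn (Complex.exp (-(2 * Real.pi * Complex.I * z)))]
    ring

/-- the values at zero -/
theorem ph_zero (e : ℂ) (hτ : 0 < τ.im) :
    ph e τ 0 = (∏' k : ℕ, (1 + e * nome τ ^ (2 * k + 1))) ^ 2 ∧
      Multipliable fun k : ℕ => 1 + e * nome τ ^ (2 * k + 1) := by
  have hn : ‖nome τ‖ < 1 := nome_norm hτ
  refine ⟨?_, mult_FF hn e⟩
  rw [ph_eq hτ rfl e 0]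
  simp only [mul_zero, neg_zero, Complex.exp_zero, mul_one]
  unfold FF
  ring

end Pool.Agent.Work.MP_8efaaa_nt.KL
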