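import Mathlib
import Pool.Agent.Work.CM.Bas2
import Pool.Agent.Work.CM.Inj
import Pool.Agent.Work.MP_8efaaa_nt.KL.Defs
import Pool.Agent.Work.MP_8efaaa_nt.KL.Zeta
import Pool.Agent.Work.MP_8efaaa_nt.KL.Prod
import Pool.Agent.Work.MP_8efaaa_nt.KL.EvLin

/-!
# KL/Quo (M/L): the quotient of the differences of the values at the half periods

`L = sp 1 τ`, `c = (1 + τ) / 2`, `F z = ph (-1) τ (z + c) ^ 2 / ph 1 τ (z + c) ^ 2`.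
* `ph 1 τ (z + c) ≠ 0` for `z ∉ L` (`ph_ne`: `1 + p ^ (2 k + 1) exp (2 π i (z + c)) = 1 - p ^ (2 k + 2) exp (2 π i z)` is zero iff
  `z + (k + 1) τ ∈ ℤ`, `1 + p ^ (2 k + 1) exp (- 2 π i (z + c)) = 1 - p ^ (2 k) exp (- 2 π i z)` iff `z - k τ ∈ ℤ`; `Complex.exp_eq_one_iff`).
  So `F` is analytic off `L` (`ph_differentiable`).
* `F (z + 1) = F z`, `F (z + τ) = F z` (`ph_add_tau`: the factors of the two functions differ by the sign only, and are squared), so `F` has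
  the periods `L` (`Submodule.span_induction` or `Submodule.mem_span_pair`). `F (-z) = F z`: `ph e τ (-z + c) = ph e τ (z - c)`, and `2 c ∈ L`.
* near 0: `ph 1 τ (z + c) = (1 - exp (- 2 π i z)) R (z + c)` (`ph_fac`; `1 + p exp (- 2 π i (z + c)) = 1 - exp (- 2 π i z)`), `R c ≠ 0`, and
  `‖z‖ ≤ C' ‖1 - exp (- 2 π i z)‖` near 0 (derivative), so `‖z ^ 2 F z‖ ≤ C`.
* `even_lin`: `F z = a wp L z + b` off `L`. At `z = 1 / 2`: `F (1 / 2) = 0`, because `ph (-1) τ (1 / 2 + c) = ph 1 τ c = 0` (`ph_add_half`, `ph_fac`)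
  [`1 / 2 + c = c + 1 / 2`]. So `F z = a (wp L z - e1)`, `e1 = wp L (1 / 2)`.
* `F c = ph (-1) τ (1 + τ) ^ 2 / ph 1 τ (1 + τ) ^ 2 = ph (-1) τ 0 ^ 2 / ph 1 τ 0 ^ 2`: `a (e3 - e1) = ph (-1) τ 0 ^ 2 / ph 1 τ 0 ^ 2`.
* `F (τ / 2) = ph (-1) τ (τ + 1 / 2) ^ 2 / ph 1 τ (τ + 1 / 2) ^ 2 = ph (-1) τ (1 / 2) ^ 2 / ph 1 τ (1 / 2) ^ 2
  = ph 1 τ 0 ^ 2 / ph (-1) τ 0 ^ 2`: `a (e2 - e1) = ph 1 τ 0 ^ 2 / ph (-1) τ 0 ^ 2`.
* the quotient is `(e1 - e2) / (e1 - e3) = (ph 1 τ 0 / ph (-1) τ 0) ^ 4`, and `ph_zero`.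
The norm version: `log ‖(e1 - e2) / (e1 - e3)‖ = 8 ∑ log ‖(1 + p ^ (2 k + 1)) / (1 - p ^ (2 k + 1))‖`: the logarithm of
`‖∏' ..‖` (`Multipliable.norm_tprod`-like, continuity of the norm, `Real.rexp_tsum_eq_tprod` or `HasProd` under `Real.log`; the factors are not zero).
-/

set_option autoImplicit false

namespace Pool.Agent.Work.MP_8efaaa_nt.KL

open Filter Topology Pool.Agent.Work.CM

theorem quo_half {τ : ℂ} (hτ : 0 < τ.im) :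
    (wp (sp 1 τ) (1 / 2) - wp (sp 1 τ) (τ / 2)) /
        (wp (sp 1 τ) (1 / 2) - wp (sp 1 τ) ((1 + τ) / 2)) =
      (ph 1 τ 0 / ph (-1) τ 0) ^ 4 := by
  sorry

theorem log_quo_half {τ : ℂ} (hτ : 0 < τ.im) :
    Real.log ‖(wp (sp 1 τ) (1 / 2) - wp (sp 1 τ) (τ / 2)) /
        (wp (sp 1 τ) (1 / 2) - wp (sp 1 τ) ((1 + τ) / 2))‖ =
      8 * ∑' k : ℕ, Real.log ‖(1 + nome τ ^ (2 * k + 1)) / (1 - nome τ ^ (2 * k + 1))‖ := by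
  sorry

end Pool.Agent.Work.MP_8efaaa_nt.KL
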