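import Mathlib
import Pool.Agent.Work.MP_8efaaa_nt.KL.Defs
import Pool.Agent.Work.MP_8efaaa_nt.KL.Zeta

/-!
# KL/TSum (M): the difference of two zeta functions as a double sum

`sp 1 (τ / 2) = (1 / 2) • {a τ + b : a, b ∈ ℤ, b even}` and `sp 1 ((1 + τ) / 2) = (1 / 2) • {a τ + b : a ≡ b mod 2}`. So with
`f x = ‖x‖ ^ (-(2 s))`, `f (x / 2) = 4 ^ s f x`:
`zl (sp 1 ((1 + τ) / 2)) s - zl (sp 1 (τ / 2)) s = 4 ^ s (∑_{a odd, b odd} f (a τ + b) - ∑_{a odd, b even} f (a τ + b))`
(the terms with `a` even, `b` even cancel) `= - 4 ^ s ∑' k, tt τ s k`. Use the bijections `ℤ × ℤ ≃` lattice given by a basis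
(real linear independence of `1, τ`), split the sums according to parity (`Int.even_or_odd'`, the equivalence `ℤ ⊕ ℤ ≃ ℤ`,
`Equiv.intEquivIntSumInt`-like, or `HasSum.even_add_odd` is for `ℕ`; one may also write each of the two lattices as the disjoint union of
`sp 1 τ` and one coset: `sp 1 (τ / 2) = sp 1 τ ∪ (τ / 2 + sp 1 τ)`, `sp 1 ((1 + τ) / 2) = sp 1 τ ∪ ((1 + τ) / 2 + sp 1 τ)`, and
the two cosets are parametrised by `k ∈ ℤ × ℤ`: `τ / 2 + k.1 τ + k.2 = ((2 k.1 + 1) τ + 2 k.2) / 2` and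
`(1 + τ) / 2 + k.1 τ + k.2 = ((2 k.1 + 1) τ + 2 k.2 + 1) / 2`; this is the quickest way). Summability: `summable_zl`.
-/

set_option autoImplicit false

namespace Pool.Agent.Work.MP_8efaaa_nt.KL

open Pool.Agent.Work.CM
open scoped Pointwise

private theorem isLat_sp {u : ℂ} (hu : u.im ≠ 0) : IsLat (sp 1 u) := by
  refine ⟨⟨1, u, ?_⟩, rfl⟩
  rw [LinearIndependent.pair_iff]
  intro a b h
  have h1 := congrArg Complex.im h
  have h2 := congrArg Complex.re h
  simp only [Complex.add_im, Complex.add_re, Complex.real_smul, Complex.mul_im, Complex.mul_re,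
    Complex.ofReal_re, Complex.ofReal_im, Complex.one_re, Complex.one_im, Complex.zero_im,
    Complex.zero_re, mul_zero, zero_mul, mul_one, add_zero, zero_add, sub_zero] at h1 h2
  have hb : b = 0 := by
    rcases mul_eq_zero.1 h1 with h | h
    · exact h
    · exact absurd h hu
  rw [hb, zero_mul, add_zero] at h2
  exact ⟨h2, hb⟩

private theorem mem_sp {u z : ℂ} : z ∈ sp 1 u ↔ ∃ a b : ℤ, (a : ℂ) + b * u = z := by
  unfold sp
  rw [Submodule.mem_span_pair]
  refine exists_congr fun a => exists_congr fun b => ?_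
  rw [zsmul_eq_mul, zsmul_eq_mul, mul_one]

private theorem coset_sum (f : ℂ → ℝ) {τ u : ℂ} (hτ : 0 < τ.im) (hu : u.im = τ.im / 2)
    {L M : Set ℂ} (hM : ∀ z, z ∈ M ↔ ∃ a b : ℤ, (a : ℂ) + b * τ = z)
    (hm : ∀ z, z ∈ L ↔ z ∈ M ∨ z - u ∈ M)
    (hsum : Summable fun x : L => f x) (hs1 : Summable fun x : M => f x) :
    ∑' x : L, f x = ∑' x : M, f x + ∑' k : ℤ × ℤ, f (u + k.1 * τ + k.2) ∧
      Summable fun k : ℤ × ℤ => f (u + k.1 * τ + k.2) := by
  have hg : Function.Injective (fun k : ℤ × ℤ => u + k.1 * τ + k.2) := by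
    rintro ⟨a, b⟩ ⟨a', b'⟩ h
    have h1 := congrArg Complex.im h
    simp only [Complex.add_im, Complex.mul_im, Complex.intCast_im, Complex.intCast_re, zero_mul,
      add_zero] at h1
    have ha : (a : ℝ) = a' := by
      have h2 : ((a : ℝ) - a') * τ.im = 0 := by linarith
      rcases mul_eq_zero.1 h2 with h3 | h3
      · linarith
      · exact absurd h3 hτ.ne'
    have ha' : a = a' := by exact_mod_cast ha
    subst ha'
    have h4 : (b : ℂ) = b' := by
      have h5 : u + (a : ℂ) * τ + (b : ℂ) = u + (a : ℂ) * τ + (b' : ℂ) := h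
      exact add_left_cancel h5
    have h6 : b = b' := by exact_mod_cast h4
    rw [h6]
  have hset : L = M ∪ Set.range (fun k : ℤ × ℤ => u + k.1 * τ + k.2) := by
    ext z
    rw [Set.mem_union, hm, Set.mem_range]
    refine or_congr Iff.rfl ?_
    rw [hM]
    constructor
    · rintro ⟨a, b, h⟩
      refine ⟨(b, a), ?_⟩
      show u + (b : ℂ) * τ + (a : ℂ) = z
      linear_combination h
    · rintro ⟨⟨a, b⟩, h⟩
      refine ⟨b, a, ?_⟩
      have h' : u + (a : ℂ) * τ + (b : ℂ) = z := h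
      linear_combination h'
  have hdis : Disjoint M (Set.range (fun k : ℤ × ℤ => u + k.1 * τ + k.2)) := by
    rw [Set.disjoint_left]
    rintro z hz ⟨⟨a, b⟩, h⟩
    obtain ⟨a', b', h'⟩ := (hM z).1 hz
    have h1 : (a' : ℂ) + b' * τ = u + (a : ℂ) * τ + (b : ℂ) := h'.trans h.symm
    have h2 := congrArg Complex.im h1
    simp only [Complex.add_im, Complex.mul_im, Complex.intCast_im, Complex.intCast_re, zero_mul,
      add_zero, zero_add, hu] at h2
    have h3 : ((2 * b' : ℝ) - (2 * a + 1)) * τ.im = 0 := by linarith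
    rcases mul_eq_zero.1 h3 with h4 | h4
    · have h5 : (2 * b' : ℤ) = 2 * a + 1 := by
        have : (2 * b' : ℝ) = 2 * a + 1 := by linarith
        exact_mod_cast this
      omega
    · exact hτ.ne' h4
  have hsub : Set.range (fun k : ℤ × ℤ => u + k.1 * τ + k.2) ⊆ L := by
    rw [hset]
    exact Set.subset_union_right
  have hs2 : Summable (fun x : Set.range (fun k : ℤ × ℤ => u + k.1 * τ + k.2) => f x) :=
    hsum.comp_injective (Set.inclusion_injective hsub)
  have hs3 : Summable fun k : ℤ × ℤ => f (u + k.1 * τ + k.2) :=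
    hs2.comp_injective (i := fun k => ⟨u + k.1 * τ + k.2, ⟨k, rfl⟩⟩) (by
      intro k k' h
      exact hg (congrArg Subtype.val h))
  refine ⟨?_, hs3⟩
  have e1 : ∑' x : L, f x =
      ∑' x : (M ∪ Set.range (fun k : ℤ × ℤ => u + k.1 * τ + k.2) : Set ℂ), f x :=
    tsum_congr_set_coe f hset
  have e2 : ∑' x : (M ∪ Set.range (fun k : ℤ × ℤ => u + k.1 * τ + k.2) : Set ℂ), f x =
      ∑' x : M, f x + ∑' x : Set.range (fun k : ℤ × ℤ => u + k.1 * τ + k.2), f x :=
    Summable.tsum_union_disjoint hdis hs1 hs2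
  have e3 : ∑' x : Set.range (fun k : ℤ × ℤ => u + k.1 * τ + k.2), f x =
      ∑' k : ℤ × ℤ, f (u + k.1 * τ + k.2) := tsum_range f hg
  rw [e1, e2, e3]

private theorem zl_coset {τ u : ℂ} (hτ : 0 < τ.im) (hu : u.im = τ.im / 2) {s : ℝ} (hs : 1 < s)
    {L : Submodule ℤ ℂ} (hL : IsLat L) (hm : ∀ z, z ∈ L ↔ z ∈ sp 1 τ ∨ z - u ∈ sp 1 τ) :
    zl L s = zl (sp 1 τ) s + ∑' k : ℤ × ℤ, ‖u + k.1 * τ + k.2‖ ^ (-(2 * s)) ∧
      Summable fun k : ℤ × ℤ => ‖u + k.1 * τ + k.2‖ ^ (-(2 * s)) :=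
  coset_sum (fun z : ℂ => ‖z‖ ^ (-(2 * s))) hτ hu (L := (L : Set ℂ))
    (M := ((sp 1 τ : Submodule ℤ ℂ) : Set ℂ)) (fun _ => mem_sp) hm (summable_zl hL hs)
    (summable_zl (isLat_sp hτ.ne') hs)

private theorem norm_half (x : ℂ) {s : ℝ} : ‖x / 2‖ ^ (-(2 * s)) = 4 ^ s * ‖x‖ ^ (-(2 * s)) := by
  rw [norm_div, Complex.norm_ofNat, Real.div_rpow (norm_nonneg _) (by norm_num)]
  have h : (2 : ℝ) ^ (-(2 * s)) = (4 ^ s)⁻¹ := by
    rw [Real.rpow_neg (by norm_num), Real.rpow_mul (by norm_num)]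
    norm_num
  rw [h, div_inv_eq_mul, mul_comm]

theorem zl_sub {τ : ℂ} (hτ : 0 < τ.im) {s : ℝ} (hs : 1 < s) :
    zl (sp 1 ((1 + τ) / 2)) s - zl (sp 1 (τ / 2)) s = -(4 ^ s * ∑' k : ℤ × ℤ, tt τ s k) := by
  have him1 : ((1 + τ) / 2 : ℂ).im = τ.im / 2 := by
    rw [show ((1 + τ) / 2 : ℂ) = ((1 / 2 : ℝ) : ℂ) * (1 + τ) by push_cast; ring,
      Complex.im_ofReal_mul, Complex.add_im, Complex.one_im]
    ring
  have him0 : (τ / 2 : ℂ).im = τ.im / 2 := by
    rw [show (τ / 2 : ℂ) = ((1 / 2 : ℝ) : ℂ) * τ by push_cast; ring, Complex.im_ofReal_mul]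
    ring
  obtain ⟨h1, hs1⟩ := zl_coset hτ him1 hs (L := sp 1 ((1 + τ) / 2))
    (isLat_sp (by rw [him1]; exact (half_pos hτ).ne')) (by
      intro z
      rw [mem_sp, mem_sp, mem_sp]
      constructor
      · rintro ⟨a, b, h⟩
        rcases Int.even_or_odd' b with ⟨c, hc | hc⟩
        · left
          refine ⟨a + c, c, ?_⟩
          rw [hc] at h
          push_cast at h ⊢
          linear_combination h
        · right
          refine ⟨a + c, c, ?_⟩
          rw [hc] at h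
          push_cast at h ⊢
          linear_combination h
      · rintro (⟨a, b, h⟩ | ⟨a, b, h⟩)
        · refine ⟨a - b, 2 * b, ?_⟩
          push_cast
          linear_combination h
        · refine ⟨a - b, 2 * b + 1, ?_⟩
          push_cast
          linear_combination h)
  obtain ⟨h0, hs0⟩ := zl_coset hτ him0 hs (L := sp 1 (τ / 2))
    (isLat_sp (by rw [him0]; exact (half_pos hτ).ne')) (by
      intro z
      rw [mem_sp, mem_sp, mem_sp]
      constructor
      · rintro ⟨a, b, h⟩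
        rcases Int.even_or_odd' b with ⟨c, hc | hc⟩
        · left
          refine ⟨a, c, ?_⟩
          rw [hc] at h
          push_cast at h ⊢
          linear_combination h
        · right
          refine ⟨a, c, ?_⟩
          rw [hc] at h
          push_cast at h ⊢
          linear_combination h
      · rintro (⟨a, b, h⟩ | ⟨a, b, h⟩)
        · refine ⟨a, 2 * b, ?_⟩
          push_cast
          linear_combination h
        · refine ⟨a, 2 * b + 1, ?_⟩
          push_cast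
          linear_combination h)
  have hneg : -(4 ^ s * ∑' k : ℤ × ℤ, tt τ s k) = ∑' k : ℤ × ℤ, (-(4 ^ s) * tt τ s k) := by
    rw [tsum_mul_left, neg_mul]
  rw [h1, h0, add_sub_add_left_eq_sub, ← hs1.tsum_sub hs0, hneg]
  refine tsum_congr fun k => ?_
  have e1 : (1 + τ) / 2 + k.1 * τ + k.2 = ((2 * k.1 + 1) * τ + 2 * k.2 + 1) / 2 := by ring
  have e0 : τ / 2 + k.1 * τ + k.2 = ((2 * k.1 + 1) * τ + 2 * k.2) / 2 := by ring
  rw [e1, e0, norm_half, norm_half]
  unfold tt
  ring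

end Pool.Agent.Work.MP_8efaaa_nt.KL
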