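import Mathlib
import Pool.Agent.Work.CM.Tw5
import Pool.Agent.Work.MP_8efaaa_nt.KL.Defs
import Pool.Agent.Work.MP_8efaaa_nt.KL.Zeta

/-!
# KL/Thr (S/M): the three superlattices of index two

`half L = (2 : ℂ)⁻¹ • L`, so `zl (half L) s = 4 ^ s * zl L s` (`zl_smul`; `‖2⁻¹‖ ^ (-(2 s)) = 4 ^ s`). With
`f x = ‖x‖ ^ (-(2 s))`: a point of `half L` which is not in `L` lies in exactly one of `L1, L2, L3`: if `x ∈ half L`, `x ∉ L`,
then `D = L + ℤ x` has index two over `L` (`Two.mk'`), and the only superlattices of index two are `L1, L2, L3` (`Two.third` and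
`Two.eq_of_mem`; or by hand: `L1 = L ∪ (u1 + L)`, `L2 = L ∪ (u2 + L)`, `u1 + u2` is in neither, so `L3 = L ∪ (u1 + u2 + L)`, and `half L / L` has 4
elements). Then with indicator functions on `ℂ`,
`1_{half L} + 2 * 1_L = 1_{L1} + 1_{L2} + 1_{L3}`; sums over a subtype are sums of indicators (`tsum_subtype`,
`summable_subtype_iff_indicator`), everything is summable by `summable_zl`.
-/

set_option autoImplicit false

namespace Pool.Agent.Work.MP_8efaaa_nt.KL

open Pool.Agent.Work.CM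
open scoped Pointwise

variable {L L1 L2 L3 : Submodule ℤ ℂ} {s : ℝ}

/-- a point of `half L` outside `L` lies in one of three different superlattices of index two -/
private theorem thr_mem (h1 : Two L L1) (h2 : Two L L2) (h3 : Two L L3) (h12 : L1 ≠ L2)
    (h13 : L1 ≠ L3) (h23 : L2 ≠ L3) {z : ℂ} (hz : z ∈ half L) (hz' : z ∉ L) :
    z ∈ L1 ∨ z ∈ L2 ∨ z ∈ L3 := by
  have hD := Two.mk' h1.lat hz hz'
  have hzD : z ∈ L ⊔ Submodule.span ℤ {z} :=
    (le_sup_right : Submodule.span ℤ {z} ≤ _) (Submodule.mem_span_singleton_self z)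
  by_contra hcon
  push Not at hcon
  obtain ⟨n1, n2, n3⟩ := hcon
  have hD1 : L ⊔ Submodule.span ℤ {z} ≠ L1 := fun h => n1 (h ▸ hzD)
  have hD2 : L ⊔ Submodule.span ℤ {z} ≠ L2 := fun h => n2 (h ▸ hzD)
  have hD3 : L ⊔ Submodule.span ℤ {z} ≠ L3 := fun h => n3 (h ▸ hzD)
  have s1 := Two.ev_sum h1 h2 h3 h12 h23 h13.symm
  have s2 := Two.ev_sum h1 h2 hD h12 hD2.symm hD1
  exact Two.ev_ne hD h3 hD3 (by linear_combination s2 - s1)

private theorem thr_le_half (h : Two L L1) : L1 ≤ half L := fun _ hz => mem_half.2 (h.two_mem hz)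

/-- the identity of the indicator functions -/
private theorem thr_ind (h1 : Two L L1) (h2 : Two L L2) (h3 : Two L L3) (h12 : L1 ≠ L2)
    (h13 : L1 ≠ L3) (h23 : L2 ≠ L3) (f : ℂ → ℝ) (z : ℂ) :
    (L1 : Set ℂ).indicator f z + (L2 : Set ℂ).indicator f z + (L3 : Set ℂ).indicator f z =
      (half L : Set ℂ).indicator f z + 2 * (L : Set ℂ).indicator f z := by
  classical
  simp only [Set.indicator_apply, SetLike.mem_coe]
  by_cases hz : z ∈ L
  · rw [if_pos (h1.le hz), if_pos (h2.le hz), if_pos (h3.le hz), if_pos hz,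
      if_pos (thr_le_half h1 (h1.le hz))]
    ring
  · by_cases hh : z ∈ half L
    · rw [if_neg hz, if_pos hh]
      rcases thr_mem h1 h2 h3 h12 h13 h23 hh hz with h | h | h
      · rw [if_pos h, if_neg (fun h' => h12 (h1.eq_of_mem h2 h h' hz)),
          if_neg (fun h' => h13 (h1.eq_of_mem h3 h h' hz))]
        ring
      · rw [if_pos h, if_neg (fun h' => h12 (h1.eq_of_mem h2 h' h hz)),
          if_neg (fun h' => h23 (h2.eq_of_mem h3 h h' hz))]
        ring
      · rw [if_pos h, if_neg (fun h' => h13 (h1.eq_of_mem h3 h' h hz)),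
          if_neg (fun h' => h23 (h2.eq_of_mem h3 h' h hz))]
        ring
    · rw [if_neg hz, if_neg hh, if_neg (fun h => hh (thr_le_half h1 h)),
        if_neg (fun h => hh (thr_le_half h2 h)), if_neg (fun h => hh (thr_le_half h3 h))]
      ring

private theorem thr_zl (L : Submodule ℤ ℂ) (s : ℝ) :
    zl L s = ∑' z : ℂ, (L : Set ℂ).indicator (fun z => ‖z‖ ^ (-(2 * s))) z :=
  tsum_subtype (L : Set ℂ) (fun z : ℂ => ‖z‖ ^ (-(2 * s)))

private theorem thr_sum (h : IsLat L) (hs : 1 < s) :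
    Summable ((L : Set ℂ).indicator (fun z : ℂ => ‖z‖ ^ (-(2 * s)))) :=
  summable_subtype_iff_indicator.1 (summable_zl h hs)

private theorem thr_half (L : Submodule ℤ ℂ) (s : ℝ) : zl (half L) s = 4 ^ s * zl L s := by
  rw [half, zl_smul (by norm_num)]
  congr 1
  rw [norm_inv, Complex.norm_ofNat, Real.inv_rpow (by norm_num), Real.rpow_neg (by norm_num),
    inv_inv, Real.rpow_mul (by norm_num)]
  norm_num

theorem zl_three (h1 : Two L L1) (h2 : Two L L2) (h3 : Two L L3) (h12 : L1 ≠ L2) (h13 : L1 ≠ L3)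
    (h23 : L2 ≠ L3) (hs : 1 < s) :
    zl L1 s + zl L2 s + zl L3 s = (4 ^ s + 2) * zl L s := by
  have hh : IsLat (half L) := h1.lat.smul (by norm_num)
  have e1 := (thr_sum h1.lat' hs).tsum_add (thr_sum h2.lat' hs)
  have e2 := ((thr_sum h1.lat' hs).add (thr_sum h2.lat' hs)).tsum_add (thr_sum h3.lat' hs)
  have e3 := (thr_sum hh hs).tsum_add ((thr_sum h1.lat hs).mul_left 2)
  rw [tsum_mul_left, ← thr_zl, ← thr_zl, thr_half] at e3
  rw [e1, ← thr_zl, ← thr_zl, ← thr_zl] at e2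
  rw [← e2, add_mul, ← e3]
  exact tsum_congr (fun z => thr_ind h1 h2 h3 h12 h13 h23 _ z)

end Pool.Agent.Work.MP_8efaaa_nt.KL
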