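import Mathlib
import Pool.Agent.Work.CM.Tw3
import Pool.Agent.Work.CM.Tw5
import Pool.Agent.Work.MP_8efaaa_nt.KL.Defs
import Pool.Agent.Work.MP_8efaaa_nt.KL.Zeta
import Pool.Agent.Work.MP_8efaaa_nt.KL.Thr
import Pool.Agent.Work.MP_8efaaa_nt.KL.Basis
import Pool.Agent.Work.MP_8efaaa_nt.KL.TSum
import Pool.Agent.Work.MP_8efaaa_nt.KL.LogS
import Pool.Agent.Work.MP_8efaaa_nt.KL.Quo

/-!
# KL/Lim (M): the limit formula

`tendsto_sub`: take `m, τ` from `exists_basis`. For `s > 1` (eventually in `𝓝[>] 1`),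
`zl L3 s - zl L2 s = ‖m‖ ^ (-(2 s)) * (-(4 ^ s * ∑' k, tt τ s k))` (`zl_smul`, `zl_sub`), which tends to
`-4 ‖m‖ ^ (-2) ∑' tt τ 1 k = -(8 π / (‖m‖ ^ 2 τ.im)) ∑' log = -(π / A) log ‖(e1 - e2) / (e1 - e3)‖` (`tendsto_tt`, `tsum_tt`,
`log_quo_half`), where `ev L L1 = (m ^ 2)⁻¹ * wp (sp 1 τ) (1 / 2)`, `ev L L2 = (m ^ 2)⁻¹ * wp (sp 1 τ) (τ / 2)`,
`ev L L3 = (m ^ 2)⁻¹ * wp (sp 1 τ) ((1 + τ) / 2)` (`Two.ev_eq` with the points `m / 2`, `m τ / 2`, `m (1 + τ) / 2`, which are not in `L`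
because `Lᵢ ≠ Lⱼ`, or by linear independence; `wp_smul`); the factor `(m ^ 2)⁻¹` cancels in the quotient.
`tendsto_comb`: `Two.third` gives the third superlattice `L0`; `ev L L0 = - ev L LP - ev L LQ` (`Two.ev_sum`); apply `tendsto_sub` with
`L1 = LP`, `L2 = L0`, `L3 = LQ`, and `zl_three`: `zl L0 s = (4 ^ s + 2) zl L s - zl LP s - zl LQ s`.
-/

set_option autoImplicit false

namespace Pool.Agent.Work.MP_8efaaa_nt.KL

open Filter Topology Pool.Agent.Work.CM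

private theorem lim_mem_sp {a b z : ℂ} : z ∈ sp a b ↔ ∃ x y : ℤ, (x : ℂ) * a + (y : ℂ) * b = z := by
  unfold sp
  rw [Submodule.mem_span_pair]
  constructor
  · rintro ⟨x, y, h⟩
    exact ⟨x, y, by rw [← h, zsmul_eq_mul, zsmul_eq_mul]⟩
  · rintro ⟨x, y, h⟩
    exact ⟨x, y, by rw [← h, zsmul_eq_mul, zsmul_eq_mul]⟩

private theorem lim_im {τ : ℂ} {x y : ℤ} : ((x : ℂ) * 1 + (y : ℂ) * τ).im = y * τ.im := by
  simp

private theorem lim_not_mem_one {τ : ℂ} (hτ : 0 < τ.im) : (1 / 2 : ℂ) ∉ sp 1 τ := by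
  rw [lim_mem_sp]
  rintro ⟨x, y, h⟩
  have h1 := congrArg Complex.im h
  rw [lim_im] at h1
  have h2 : ((1 / 2 : ℂ)).im = 0 := by norm_num
  rw [h2] at h1
  have h3 : (y : ℝ) = 0 := by
    rcases mul_eq_zero.1 h1 with h | h
    · exact h
    · exact absurd h hτ.ne'
  have h4 : y = 0 := by exact_mod_cast h3
  subst h4
  have h5 := congrArg Complex.re h
  have h6 : (x : ℝ) = 1 / 2 := by
    have h7 : ((x : ℂ) * 1 + ((0 : ℤ) : ℂ) * τ).re = x := by simp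
    rw [h7] at h5
    rw [h5]
    norm_num
  have h8 : (2 * x : ℤ) = 1 := by
    have : (2 * x : ℝ) = 1 := by rw [h6]; norm_num
    exact_mod_cast this
  omega

private theorem lim_not_mem {τ c : ℂ} (hτ : 0 < τ.im) (hc : c.im = τ.im / 2) : c ∉ sp 1 τ := by
  rw [lim_mem_sp]
  rintro ⟨x, y, h⟩
  have h1 := congrArg Complex.im h
  rw [lim_im, hc] at h1
  have h6 : (y : ℝ) = 1 / 2 := by
    field_simp at h1
    linarith
  have h8 : (2 * y : ℤ) = 1 := by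
    have : (2 * y : ℝ) = 1 := by rw [h6]; norm_num
    exact_mod_cast this
  omega

theorem tendsto_sub {L L1 L2 L3 : Submodule ℤ ℂ} {A : ℝ} (hA : HasArea L A) (h1 : Two L L1)
    (h2 : Two L L2) (h3 : Two L L3) (h12 : L1 ≠ L2) (h13 : L1 ≠ L3) (h23 : L2 ≠ L3) :
    Tendsto (fun s : ℝ => zl L3 s - zl L2 s) (𝓝[>] 1)
      (𝓝 (-(Real.pi / A) * Real.log ‖(ev L L1 - ev L L2) / (ev L L1 - ev L L3)‖)) := by
  obtain ⟨m, τ, hm, hτ, hAe, hL, e1, e2, e3⟩ := exists_basis hA h1 h2 h3 h12 h13 h23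
  have hmn : ‖m‖ ≠ 0 := norm_ne_zero_iff.2 hm
  have hev : ∀ {L' : Submodule ℤ ℂ} {c : ℂ}, Two L L' → m * c ∈ L' → c ∉ sp 1 τ →
      ev L L' = (m ^ 2)⁻¹ * wp (sp 1 τ) c := by
    intro L' c h hc hc'
    have hz : m * c ∉ L := by
      rw [hL, mem_smul_iff hm]
      exact hc'
    rw [← h.ev_eq hc hz, hL, wp_smul hm]
  have v1 : ev L L1 = (m ^ 2)⁻¹ * wp (sp 1 τ) (1 / 2) := by
    refine hev h1 ?_ (lim_not_mem_one hτ)
    rw [e1, mem_smul_iff hm, lim_mem_sp]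
    exact ⟨1, 0, by push_cast; ring⟩
  have v2 : ev L L2 = (m ^ 2)⁻¹ * wp (sp 1 τ) (τ / 2) := by
    refine hev h2 ?_ (lim_not_mem hτ (by simp))
    rw [e2, mem_smul_iff hm, lim_mem_sp]
    exact ⟨0, 1, by push_cast; ring⟩
  have v3 : ev L L3 = (m ^ 2)⁻¹ * wp (sp 1 τ) ((1 + τ) / 2) := by
    refine hev h3 ?_ (lim_not_mem hτ (by simp))
    rw [e3, mem_smul_iff hm, lim_mem_sp]
    exact ⟨0, 1, by push_cast; ring⟩
  have hm2 : (m ^ 2)⁻¹ ≠ 0 := inv_ne_zero (pow_ne_zero 2 hm)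
  have hq : (ev L L1 - ev L L2) / (ev L L1 - ev L L3) =
      (wp (sp 1 τ) (1 / 2) - wp (sp 1 τ) (τ / 2)) /
        (wp (sp 1 τ) (1 / 2) - wp (sp 1 τ) ((1 + τ) / 2)) := by
    rw [v1, v2, v3, ← mul_sub, ← mul_sub, mul_div_mul_left _ _ hm2]
  rw [hq, log_quo_half hτ]
  have hlim : Tendsto (fun s : ℝ => ‖m‖ ^ (-(2 * s)) * -(4 ^ s * ∑' k : ℤ × ℤ, tt τ s k)) (𝓝[>] 1)
      (𝓝 (‖m‖ ^ (-(2 * (1 : ℝ))) * -((4 : ℝ) ^ (1 : ℝ) * ∑' k : ℤ × ℤ, tt τ 1 k))) := by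
    refine Tendsto.mul ?_ (Tendsto.neg (Tendsto.mul ?_ (tendsto_tt hτ)))
    · have hc : Continuous fun s : ℝ => ‖m‖ ^ (-(2 * s)) := by
        refine Continuous.rpow continuous_const (by fun_prop) fun x => Or.inl hmn
      exact (hc.tendsto 1).mono_left nhdsWithin_le_nhds
    · have hc : Continuous fun s : ℝ => (4 : ℝ) ^ s := by
        refine Continuous.rpow continuous_const continuous_id fun x => Or.inl (by norm_num)
      exact (hc.tendsto 1).mono_left nhdsWithin_le_nhds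
  have hval : ‖m‖ ^ (-(2 * (1 : ℝ))) * -((4 : ℝ) ^ (1 : ℝ) * ∑' k : ℤ × ℤ, tt τ 1 k) =
      -(Real.pi / A) *
        (8 * ∑' k : ℕ, Real.log ‖(1 + nome τ ^ (2 * k + 1)) / (1 - nome τ ^ (2 * k + 1))‖) := by
    rw [tsum_tt hτ, hAe, Real.rpow_one]
    have hp : ‖m‖ ^ (-(2 * (1 : ℝ))) = (‖m‖ ^ 2)⁻¹ := by
      rw [Real.rpow_neg (norm_nonneg _), mul_one]
      norm_num
    rw [hp]
    field_simp
    ring
  rw [hval] at hlim
  refine hlim.congr' ?_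
  filter_upwards [self_mem_nhdsWithin] with s hs
  have hs1 : 1 < s := hs
  rw [e3, e2, zl_smul hm, zl_smul hm, ← mul_sub, zl_sub hτ hs1]

theorem tendsto_comb {L LP LQ : Submodule ℤ ℂ} {A : ℝ} (hA : HasArea L A) (hP : Two L LP)
    (hQ : Two L LQ) (hne : LP ≠ LQ) :
    Tendsto (fun s : ℝ => 2 * zl LQ s + zl LP s - (4 ^ s + 2) * zl L s) (𝓝[>] 1)
      (𝓝 (-(Real.pi / A) *
        Real.log ‖(2 * ev L LP + ev L LQ) / (ev L LP - ev L LQ)‖)) := by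
  obtain ⟨L0, h0, h0P, h0Q⟩ := Two.third hP hQ hne
  have hs := Two.ev_sum hP hQ h0 hne h0Q.symm h0P
  have hev : ev L LP - ev L L0 = 2 * ev L LP + ev L LQ := by
    linear_combination -hs
  have hlim := tendsto_sub hA hP h0 hQ h0P.symm hne h0Q
  rw [hev] at hlim
  refine hlim.congr' ?_
  filter_upwards [self_mem_nhdsWithin] with s hs
  have hs1 : 1 < s := hs
  rw [← zl_three hP h0 hQ h0P.symm hne h0Q hs1]
  ring

end Pool.Agent.Work.MP_8efaaa_nt.KL
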