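import Mathlib
import Pool.Agent.Work.CM.Defs
import Pool.Agent.Work.MP_787500_nt.HC.Defs
import Pool.Agent.Work.MP_8efaaa_nt.T.Defs
import Pool.Agent.Work.MP_8efaaa_nt.KL.Defs

/-!
# KL/QDefs: definitions of the arithmetic part of the block KL (fixed file)
-/

set_option autoImplicit false

namespace Pool.Agent.Work.MP_8efaaa_nt.KL

open Pool.Agent.Work.CM Pool.Agent.Work.MP_787500_nt.HC NumberField IsDedekindDomain
open scoped Pointwise nonZeroDivisors

/-- `F` is the quadratic field generated by the square root `s` of the squarefree integer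
`D = 1 (mod 4)`, `D ≠ 1`. -/
structure QB {F : Type*} [Field F] [NumberField F] (D : ℤ) (s : F) : Prop where
  dim : Module.finrank ℚ F = 2
  sq : s ^ 2 = (D : F)
  sf : Squarefree D
  mod : D % 4 = 1
  ne : D ≠ 1

/-- the series of the Jacobi symbol modulo `N` -/
noncomputable def Lr (N : ℕ) (t : ℝ) : ℝ := ∑' n : ℕ, (jacobiSym n N : ℝ) * (n : ℝ) ^ (-t)

section ideals

variable {K : Type*} [Field K] [NumberField K]

/-- the norm of a fractional ideal, as a real number -/
noncomputable def nI (I : Idl K) : ℝ :=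
  ((FractionalIdeal.absNorm (I : FractionalIdeal (𝓞 K)⁰ K) : ℚ) : ℝ)

/-- the normalised norm of an element of the lattice of a fractional ideal -/
noncomputable def nn (I : Idl K) (x : ℂ) : ℕ := ⌊‖x‖ ^ 2 / nI I⌋₊

/-- the sublattices of index `l` (for a prime `l`) -/
def lns (l : ℕ) (L : Submodule ℤ ℂ) : Set (Submodule ℤ ℂ) := {M | (l : ℂ) • L < M ∧ M < L}

/-- the character of the sublattices of index `l` of the lattice of a fractional ideal -/
noncomputable def psi [Algebra K ℂ] (l : ℕ) (I : Idl K) (M : Submodule ℤ ℂ) : ℤ :=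
  jacobiSym (nn I (Classical.epsilon fun x => x ∈ M ∧ x ∉ (l : ℂ) • lat I)) l

/-- the superlattice of `M` of index two in the direction of the place `v` -/
noncomputable def up [Algebra K ℂ] (v : HeightOneSpectrum (𝓞 K)) (I : Idl K)
    (M : Submodule ℤ ℂ) : Submodule ℤ ℂ :=
  half M ⊓ lat ((pr v)⁻¹ * I)

end ideals

end Pool.Agent.Work.MP_8efaaa_nt.KL
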