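import Mathlib
import Pool.Agent.Work.MP_787500_nt.HC.LatB
import Pool.Agent.Work.MP_8efaaa_nt.T.Quad
import Pool.Agent.Work.MP_8efaaa_nt.T.LatA
import Pool.Agent.Work.MP_8efaaa_nt.T.LatE
import Pool.Agent.Work.MP_8efaaa_nt.KL.QDefs

/-!
# KL/QNrm (M): the normalised norm

`Base K d s`: `K` imaginary quadratic, so for `x : K` the absolute norm `|N(x)| = ‖algebraMap K ℂ x‖ ^ 2` (`Algebra.norm` is the product of the two embeddings,
which are complex conjugate; or with `x = a + b s`, `N x = a ^ 2 + d b ^ 2`, `T/Quad.lean`, `H10_Quad.lean`). `nI_prin`: `FractionalIdeal.absNorm_span_singleton`-like.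
`nn_spec`: `x ∈ I` means that `(x) I⁻¹` is an integral ideal, so its absolute norm, a natural number, is `‖x‖ ^ 2 / nI I` (`Nat.floor_natCast`).
From `nn_spec` everything is a computation in `ℝ`: `nn_add`: the number `c = nn I (x + y) - nn I x - nn I y = 2 Re (x conj y) / nI I` is an integer for all
`x, y ∈ lat I`, and `nn I (x + l y) = nn I x + l c + l ^ 2 nn I y`. `nn_prin`: `nI_mul`, `nI_prin`, no integrality needed. `nI_pr`: the absolute norm of
a place above 2 is 2 (`pr v * pr v' = prin 2`, `nI (prin 2) = 4`, both factors are `> 1`: or `T/LatE.lean`, `exists_places`, `two_lat`).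
-/

set_option autoImplicit false

namespace Pool.Agent.Work.MP_8efaaa_nt.KL

open Pool.Agent.Work.CM Pool.Agent.Work.MP_787500_nt.HC NumberField IsDedekindDomain
open Pool.Agent.Work.MP_8efaaa_nt.T
open scoped Pointwise nonZeroDivisors

variable {K : Type*} [Field K] [NumberField K] [Algebra K ℂ] {d l : ℕ} {s : K} {I J : Idl K}
  {x y : ℂ}

omit [Algebra K ℂ] in
theorem nI_pos (I : Idl K) : 0 < nI I := by
  unfold nI
  have h0 : (0 : ℚ) ≤ FractionalIdeal.absNorm (I : FractionalIdeal (𝓞 K)⁰ K) :=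
    FractionalIdeal.absNorm_nonneg _
  have h1 : FractionalIdeal.absNorm (I : FractionalIdeal (𝓞 K)⁰ K) ≠ 0 := by
    intro h
    exact I.ne_zero (FractionalIdeal.absNorm_eq_zero_iff.1 h)
  exact_mod_cast lt_of_le_of_ne h0 h1.symm

omit [Algebra K ℂ] in
theorem nI_mul (I J : Idl K) : nI (I * J) = nI I * nI J := by
  unfold nI
  rw [Units.val_mul, map_mul]
  push_cast
  rfl

omit [Algebra K ℂ] in
private theorem abs_norm_eq (hb : Base K d s) (φ : K →+* ℂ) (y : K) :
    ((|Algebra.norm ℚ y| : ℚ) : ℝ) = ‖φ y‖ ^ 2 := by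
  obtain ⟨hK, hs, hq, hq16⟩ := hb
  have hq0 : 0 < d := Nat.pos_of_ne_zero hq.ne_zero
  obtain ⟨a, b, rfl⟩ := MP_787500_nt.Quad.exists_coords hK hs hq0 y
  obtain ⟨σ, hσ⟩ := MP_787500_nt.Quad.exists_conj hK hs hq0
  have h1 : ‖φ ((a : K) + b * s)‖ ^ 2 = (a : ℝ) ^ 2 + d * b ^ 2 := by
    rw [← Complex.normSq_eq_norm_sq, MP_787500_nt.Quad.normSq_emb hs hq0]
  rw [h1]
  set x : K := (a : K) + b * s with hx
  have h2 : x * σ x = algebraMap ℚ K (a ^ 2 + d * b ^ 2) := by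
    rw [hx, map_add, map_mul, map_ratCast, map_ratCast, hσ]
    rw [show algebraMap ℚ K (a ^ 2 + d * b ^ 2) = (a : K) ^ 2 + d * (b : K) ^ 2 by simp]
    linear_combination (-(b : K) ^ 2) * hs
  let τ : K ≃ₐ[ℚ] K := AlgEquiv.ofRingEquiv (f := σ) (fun r => by simp)
  have h3 : Algebra.norm ℚ (σ x) = Algebra.norm ℚ x := by
    have := Algebra.norm_eq_of_algEquiv (x := x) τ
    exact this
  have h4 : Algebra.norm ℚ x ^ 2 = (a ^ 2 + d * b ^ 2) ^ 2 := by
    have h5 := congrArg (Algebra.norm ℚ) h2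
    rw [map_mul, h3, Algebra.norm_algebraMap, hK] at h5
    rw [pow_two]
    exact h5
  have h6 : |Algebra.norm ℚ x| = a ^ 2 + d * b ^ 2 := by
    rw [← abs_of_nonneg (show (0 : ℚ) ≤ a ^ 2 + d * b ^ 2 by positivity)]
    exact (sq_eq_sq_iff_abs_eq_abs _ _).1 h4
  rw [h6]
  push_cast
  rfl

omit [Algebra K ℂ] in
private theorem abs_span (hb : Base K d s) (φ : K →+* ℂ) (y : K) :
    ((FractionalIdeal.absNorm (FractionalIdeal.spanSingleton (𝓞 K)⁰ y) : ℚ) : ℝ) =
      ‖φ y‖ ^ 2 := by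
  rw [FractionalIdeal.absNorm_span_singleton, abs_norm_eq hb φ y]

theorem nI_prin (hb : Base K d s) (α : Kˣ) : nI (prin α) = ‖algebraMap K ℂ (α : K)‖ ^ 2 := by
  unfold nI prin
  rw [coe_toPrincipalIdeal, abs_span hb (algebraMap K ℂ) (α : K)]

omit [Algebra K ℂ] in
theorem nI_pr (hb : Base K d s) {v : HeightOneSpectrum (𝓞 K)} (hv : (2 : 𝓞 K) ∈ v.asIdeal) :
    nI (pr v) = 2 := by
  obtain ⟨hK, hs, hq, hq16⟩ := hb
  obtain ⟨h1, -⟩ := Qd.dyadic hK hs hq hq16 hv
  unfold nI pr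
  rw [Units.val_mk0, FractionalIdeal.coeIdeal_absNorm]
  have h2 : Ideal.absNorm v.asIdeal = 2 := by
    rw [Ideal.absNorm_apply, Submodule.cardQuot_apply, Nat.card_eq_two_iff]
    refine ⟨Ideal.Quotient.mk v.asIdeal 0, Ideal.Quotient.mk v.asIdeal 1, ?_, ?_⟩
    · intro h
      rw [eq_comm, Ideal.Quotient.eq, sub_zero] at h
      exact v.isPrime.ne_top ((Ideal.eq_top_iff_one _).2 h)
    · ext z
      simp only [Set.mem_insert_iff, Set.mem_singleton_iff, Set.mem_univ, iff_true]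
      obtain ⟨x, rfl⟩ := Ideal.Quotient.mk_surjective z
      rcases h1 x with h | h
      · left
        rw [Ideal.Quotient.eq, sub_zero]
        exact h
      · right
        rw [Ideal.Quotient.eq]
        exact h
  rw [h2]
  norm_num

theorem nn_spec (hb : Base K d s) (hx : x ∈ lat I) : (nn I x : ℝ) = ‖x‖ ^ 2 / nI I := by
  obtain ⟨y, hy, rfl⟩ := hx
  have h1 : FractionalIdeal.spanSingleton (𝓞 K)⁰ y * ((I⁻¹ : Idl K) : FractionalIdeal (𝓞 K)⁰ K) ≤
      1 := by
    have h2 : FractionalIdeal.spanSingleton (𝓞 K)⁰ y ≤ (I : FractionalIdeal (𝓞 K)⁰ K) :=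
      FractionalIdeal.spanSingleton_le_iff_mem.2 hy
    have h3 : FractionalIdeal.spanSingleton (𝓞 K)⁰ y * ((I⁻¹ : Idl K) : FractionalIdeal (𝓞 K)⁰ K) ≤
      (I : FractionalIdeal (𝓞 K)⁰ K) * ((I⁻¹ : Idl K) : FractionalIdeal (𝓞 K)⁰ K) :=
      FractionalIdeal.mul_le.2 fun i hi j hj => FractionalIdeal.mul_mem_mul (h2 hi) hj
    rwa [Units.mul_inv] at h3
  obtain ⟨J, hJ⟩ := FractionalIdeal.le_one_iff_exists_coeIdeal.1 h1
  have h4 : nI I * nI I⁻¹ = 1 := by
    rw [← nI_mul, mul_inv_cancel]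
    unfold nI
    rw [Units.val_one, FractionalIdeal.absNorm_one]
    norm_num
  have h5 : ((Ideal.absNorm J : ℕ) : ℝ) = ‖algebraMap K ℂ y‖ ^ 2 / nI I := by
    have h6 := congrArg FractionalIdeal.absNorm hJ
    rw [FractionalIdeal.coeIdeal_absNorm, map_mul] at h6
    have h7 : ((Ideal.absNorm J : ℕ) : ℝ) = ‖algebraMap K ℂ y‖ ^ 2 * nI I⁻¹ := by
      rw [← abs_span hb (algebraMap K ℂ) y]
      unfold nI
      exact_mod_cast congrArg (Rat.cast (K := ℝ)) h6
    rw [h7, eq_div_iff (nI_pos I).ne']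
    linear_combination ‖algebraMap K ℂ y‖ ^ 2 * h4
  unfold nn
  rw [← h5, Nat.floor_natCast]

theorem nn_mul (hb : Base K d s) (hx : x ∈ lat I) (hy : y ∈ lat J) :
    nn (I * J) (x * y) = nn I x * nn J y := by
  have hxy : x * y ∈ lat (I * J) := by
    rw [lat_mul]
    exact Submodule.mul_mem_mul hx hy
  have h : (nn (I * J) (x * y) : ℝ) = nn I x * nn J y := by
    rw [nn_spec hb hxy, nn_spec hb hx, nn_spec hb hy, nI_mul, norm_mul, mul_pow,
      div_mul_div_comm]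
  exact_mod_cast h

theorem nn_add_modEq (hb : Base K d s) (hx : x ∈ lat I) (hy : y ∈ lat I) :
    nn I (x + l * y) ≡ nn I x [MOD l] := by
  have hly : (l : ℂ) * y ∈ lat I := by
    have := (lat I).smul_mem (l : ℤ) hy
    simpa using this
  have h1 := nn_spec hb (add_mem hx hly)
  have h2 := nn_spec hb (add_mem hx hy)
  have h3 := nn_spec hb hx
  have h4 := nn_spec hb hy
  have hn : ∀ z : ℂ, ‖z‖ ^ 2 = z.re ^ 2 + z.im ^ 2 := fun z => by
    rw [← Complex.normSq_eq_norm_sq, Complex.normSq_apply]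
    ring
  have h0 := (nI_pos I).ne'
  have h5 : (nn I (x + l * y) : ℝ) = nn I x + l * (nn I (x + y) - nn I x - nn I y) +
      l ^ 2 * nn I y := by
    rw [h1, h2, h3, h4, hn, hn, hn, hn]
    simp only [Complex.add_re, Complex.add_im, Complex.mul_re, Complex.mul_im, Complex.natCast_re,
      Complex.natCast_im]
    field_simp
    ring
  have h6 : (nn I (x + l * y) : ℤ) = nn I x + l * (nn I (x + y) - nn I x - nn I y) +
      l ^ 2 * nn I y := by
    exact_mod_cast h5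
  rw [← Int.natCast_modEq_iff, h6]
  apply Int.ModEq.symm
  rw [Int.modEq_iff_dvd]
  exact ⟨(nn I (x + y) - nn I x - nn I y) + l * nn I y, by ring⟩

theorem nn_int_mul (hb : Base K d s) (hx : x ∈ lat I) (k : ℤ) :
    nn I (k * x) = k.natAbs ^ 2 * nn I x := by
  have hkx : (k : ℂ) * x ∈ lat I := by
    have := (lat I).smul_mem k hx
    simpa using this
  have h : (nn I (k * x) : ℝ) = (k.natAbs : ℝ) ^ 2 * nn I x := by
    rw [nn_spec hb hkx, nn_spec hb hx, norm_mul, mul_pow, Complex.norm_intCast, sq_abs,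
      mul_div_assoc]
    congr 1
    rw [Nat.cast_natAbs, Int.cast_abs, sq_abs]
  exact_mod_cast h

theorem nn_prin (hb : Base K d s) (I : Idl K) (α : Kˣ) (x : ℂ) :
    nn (prin α * I) (algebraMap K ℂ (α : K) * x) = nn I x := by
  unfold nn
  rw [nI_mul, nI_prin hb, norm_mul, mul_pow, mul_div_mul_left]
  have : algebraMap K ℂ (α : K) ≠ 0 := (map_ne_zero _).2 α.ne_zero
  positivity

theorem nn_eq_zero (hb : Base K d s) (hx : x ∈ lat I) : nn I x = 0 ↔ x = 0 := by
  have h := nn_spec hb hx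
  constructor
  · intro h0
    rw [h0, Nat.cast_zero, eq_comm, div_eq_zero_iff] at h
    rcases h with h | h
    · exact norm_eq_zero.1 (pow_eq_zero_iff (by norm_num) |>.1 h)
    · exact absurd h (nI_pos I).ne'
  · rintro rfl
    rw [norm_zero, zero_pow (by norm_num), zero_div] at h
    exact_mod_cast h

/-- an element of `lat I` lies in the lattice of `pr v⁻¹ I`, where its normalised norm is doubled -/
theorem nn_up (hb : Base K d s) {v : HeightOneSpectrum (𝓞 K)} (hv : (2 : 𝓞 K) ∈ v.asIdeal)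
    (hx : x ∈ lat I) : nn ((pr v)⁻¹ * I) x = 2 * nn I x := by
  have h1 : nI (pr v * ((pr v)⁻¹ * I)) = nI I := by rw [mul_inv_cancel_left]
  rw [nI_mul, nI_pr hb hv] at h1
  have h2 : ‖x‖ ^ 2 / nI ((pr v)⁻¹ * I) = ((2 * nn I x : ℕ) : ℝ) := by
    push_cast
    rw [nn_spec hb hx, ← h1]
    have h3 := (nI_pos ((pr v)⁻¹ * I)).ne'
    field_simp
  show ⌊‖x‖ ^ 2 / nI ((pr v)⁻¹ * I)⌋₊ = _
  rw [h2, Nat.floor_natCast]

end Pool.Agent.Work.MP_8efaaa_nt.KL
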