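import Mathlib
import Pool.Agent.Work.MP_787500_nt.HC.LatB
import Pool.Agent.Work.MP_8efaaa_nt.T.Quad
import Pool.Agent.Work.MP_8efaaa_nt.T.LatA
import Pool.Agent.Work.MP_8efaaa_nt.KL.QDefs
import Pool.Agent.Work.MP_8efaaa_nt.KL.QNrm
import Pool.Agent.Work.MP_8efaaa_nt.KL.Zeta

/-!
# KL/QArea (M): the area of the lattice of an ideal

`lat 1` is spanned by `1` and the image of `W = (1 + s) / 2` (`exists_W`), its area is `√d / 2` (`s` maps to `± i √d`). For a fractional ideal `I` with a `ℤ`-basis
`(α, β)`: the determinant of `(α, β)` with respect to the basis `(1, W)` has absolute value `absNorm I` (`FractionalIdeal.abs_det_basis_change`, for integral ideals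
`Ideal.natAbs_det_basis_change`; scale by an integer to reduce to integral ideals: `HasArea.smul`), and `|(conj α * β).im| = |det| √d / 2` when `α = a + b W`, `β = a' + b' W`
with rational `a, b, a', b'`. Other ways are welcome, e.g. multiplicativity of the index.
-/

set_option autoImplicit false

namespace Pool.Agent.Work.MP_8efaaa_nt.KL

open Pool.Agent.Work.CM Pool.Agent.Work.MP_787500_nt.HC NumberField IsDedekindDomain
open Pool.Agent.Work.MP_8efaaa_nt.T
open scoped Pointwise nonZeroDivisors

variable {K : Type*} [Field K] [NumberField K] [Algebra K ℂ] {d : ℕ} {s : K}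

theorem hasArea_lat (hb : Base K d s) (I : Idl K) : HasArea (lat I) (nI I * Real.sqrt d / 2) := by
  have hpos : 0 < nI I := nI_pos I
  obtain ⟨hK, hs, hq, hq16⟩ := hb
  obtain ⟨W, k, hW, -, hx⟩ := Qd.exists_W hK hs hq (by omega)
  set φ := algebraMap K ℂ with hφ
  obtain ⟨hre, him⟩ := Pool.Agent.Work.MP_787500_nt.Quad.emb_re_im hs (Nat.pos_of_ne_zero hq.ne_zero) φ
  set w : ℂ := φ (algebraMap (𝓞 K) K W) with hw
  have h2w : 2 * w = 1 + φ s := by
    have := congrArg φ hW
    rw [map_mul, map_add, map_one, map_ofNat] at this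
    exact this
  have hq0 : (0 : ℝ) < d := by exact_mod_cast (Nat.pos_of_ne_zero hq.ne_zero)
  have hims : (φ s).im ≠ 0 := by
    intro h0
    rw [h0] at him
    norm_num at him
    rw [← him] at hq0
    exact lt_irrefl _ hq0
  have h2im : 2 * w.im = (φ s).im := by
    have h1 := congrArg Complex.im h2w
    simpa using h1
  have hwim : w.im ≠ 0 := by
    intro h0
    rw [h0, mul_zero] at h2im
    exact hims h2im.symm
  have habs : |w.im| = Real.sqrt d / 2 := by
    have h1 : |(φ s).im| = Real.sqrt d := by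
      rw [← him, Real.sqrt_sq_eq_abs]
    rw [← h1, ← h2im, abs_mul, abs_two]
    ring
  -- the basis `1, W` of the ring of integers
  have hli : LinearIndependent ℤ ![(1 : 𝓞 K), W] := by
    rw [LinearIndependent.pair_iff]
    intro x y hxy
    have h1 : φ (algebraMap (𝓞 K) K (x • (1 : 𝓞 K) + y • W)) = 0 := by
      rw [hxy, map_zero, map_zero]
    rw [zsmul_eq_mul, zsmul_eq_mul, mul_one, map_add, map_mul, map_intCast, map_intCast, map_add,
      map_mul, map_intCast, map_intCast] at h1
    have h2 := congrArg Complex.im h1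
    have h3 := congrArg Complex.re h1
    rw [← hw] at h2 h3
    simp at h2 h3
    have hy : y = 0 := by
      rcases h2 with h2 | h2
      · exact h2
      · exact absurd h2 hwim
    rw [hy] at h3
    simp at h3
    exact ⟨h3, hy⟩
  have hsp : ⊤ ≤ Submodule.span ℤ (Set.range ![(1 : 𝓞 K), W]) := by
    rintro x -
    obtain ⟨a, b, rfl⟩ := hx x
    rw [Matrix.range_cons, Matrix.range_cons, Matrix.range_empty, Set.union_empty,
      Set.singleton_union, Submodule.mem_span_pair]
    exact ⟨a, b, by rw [zsmul_eq_mul, zsmul_eq_mul, mul_one]⟩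
  set b : Module.Basis (Fin 2) ℤ (𝓞 K) := Module.Basis.mk hli hsp with hbdef
  have hb0 : b 0 = 1 := by rw [hbdef, Module.Basis.mk_apply]; rfl
  have hb1 : b 1 = W := by rw [hbdef, Module.Basis.mk_apply]; rfl
  -- a basis of the ideal
  have hcard : Fintype.card (Module.Free.ChooseBasisIndex ℤ (I : FractionalIdeal (𝓞 K)⁰ K)) = 2 := by
    rw [← Module.finrank_eq_card_chooseBasisIndex, fractionalIdeal_rank, RingOfIntegers.rank, hK]
  set bI : Module.Basis (Fin 2) ℤ (I : FractionalIdeal (𝓞 K)⁰ K) :=
    (fractionalIdealBasis K (I : FractionalIdeal (𝓞 K)⁰ K)).reindex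
      (Fintype.equivFinOfCardEq hcard) with hbI
  have hdet := FractionalIdeal.abs_det_basis_change b (I : FractionalIdeal (𝓞 K)⁰ K) bI
  set B := b.localizationLocalization ℚ ℤ⁰ K with hB
  have hB0 : B 0 = 1 := by
    rw [hB, Module.Basis.localizationLocalization_apply, hb0, map_one]
  have hB1 : B 1 = algebraMap (𝓞 K) K W := by
    rw [hB, Module.Basis.localizationLocalization_apply, hb1]
  have hrep : ∀ x : K, φ x = (B.repr x 0 : ℂ) + (B.repr x 1 : ℂ) * w := by
    intro x
    have h1 := B.sum_repr x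
    rw [Fin.sum_univ_two, hB0, hB1] at h1
    have h2 := congrArg φ h1
    rw [map_add, Algebra.smul_def, Algebra.smul_def, map_mul, map_mul, map_one, mul_one] at h2
    rw [← h2]
    simp [hw]
  rw [Module.Basis.det_apply, Matrix.det_fin_two] at hdet
  simp only [Module.Basis.toMatrix_apply, Function.comp_apply] at hdet
  set α : K := ((bI 0 : (I : FractionalIdeal (𝓞 K)⁰ K)) : K) with hα
  set β : K := ((bI 1 : (I : FractionalIdeal (𝓞 K)⁰ K)) : K) with hβ
  refine ⟨by positivity, φ α, φ β, ?_, ?_⟩
  · ext z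
    rw [mem_lat, Submodule.mem_span_pair]
    constructor
    · rintro ⟨x, hx1, rfl⟩
      have h1 := bI.sum_repr ⟨x, hx1⟩
      rw [Fin.sum_univ_two] at h1
      have h2 := congrArg (fun y : (I : FractionalIdeal (𝓞 K)⁰ K) => φ (y : K)) h1
      refine ⟨bI.repr ⟨x, hx1⟩ 0, bI.repr ⟨x, hx1⟩ 1, ?_⟩
      rw [← map_zsmul φ, ← map_zsmul φ, ← map_add φ]
      exact h2
    · rintro ⟨m, n, rfl⟩
      refine ⟨((m • bI 0 + n • bI 1 : (I : FractionalIdeal (𝓞 K)⁰ K)) : K), Subtype.property _, ?_⟩
      rw [← map_zsmul φ, ← map_zsmul φ, ← map_add φ]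
      rfl
  · have hdet' : |((B.repr α 0 : ℝ)) * (B.repr β 1 : ℝ) - (B.repr β 0 : ℝ) * (B.repr α 1 : ℝ)| =
        nI I := by
      have := congrArg (fun y : ℚ => (y : ℝ)) hdet
      simp only [Rat.cast_abs] at this
      push_cast at this
      exact this
    rw [← hdet', mul_div_assoc, ← habs, ← abs_mul, hrep α, hrep β]
    congr 1
    simp only [map_add, map_mul, map_ratCast, Complex.mul_im, Complex.add_re,
      Complex.add_im, Complex.mul_re, Complex.conj_re, Complex.conj_im, Complex.ratCast_re,
      Complex.ratCast_im]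
    ring

end Pool.Agent.Work.MP_8efaaa_nt.KL
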