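import Mathlib

/-!
# KL/QChr (S-M): the Jacobi symbol as a Dirichlet character

`n ↦ jacobiSym n N` depends on `n` modulo `N` (`jacobiSym.mod_left`), is multiplicative (`jacobiSym.mul_left`), and is zero iff `gcd (n, N) ≠ 1`
(`jacobiSym.eq_zero_iff_not_coprime`). So it is a `MulChar (ZMod N) ℂ` (`toFun a = jacobiSym a.val N`, or with `ZMod.cast`). It is not trivial: `N = p m`
with `p` an odd prime, `p ∤ m`; take `n` a nonresidue modulo `p` and `1` modulo `m` (Chinese remainder; `jacobiSym.mul_right`, `ZMod.exists_nonsquare`-like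
`FiniteField.exists_nonsquare`): `jacobiSym n N = -1`.
-/

set_option autoImplicit false

namespace Pool.Agent.Work.MP_8efaaa_nt.KL

private theorem jac_int {N : ℕ} [NeZero N] (n : ℤ) :
    jacobiSym (((n : ZMod N).val : ℕ) : ℤ) N = jacobiSym n N := by
  rw [ZMod.val_intCast]
  exact (jacobiSym.mod_left n N).symm

private theorem jac_neg {N : ℕ} (hN : Squarefree N) (h2 : N % 2 = 1) (h1 : N ≠ 1) :
    ∃ k : ℤ, jacobiSym k N = -1 := by
  obtain ⟨p, hp, m, rfl⟩ := Nat.exists_prime_and_dvd h1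
  have := Fact.mk hp
  have hp2 : p ≠ 2 := by
    rintro rfl
    omega
  have hm0 : m ≠ 0 := by
    rintro rfl
    simp at h2
  have := NeZero.mk hm0
  have := NeZero.mk hp.ne_zero
  have hco : p.Coprime m := by
    rw [hp.coprime_iff_not_dvd]
    rintro ⟨r, rfl⟩
    have h3 := hN p ⟨r, by ring⟩
    exact hp.one_lt.ne' (Nat.isUnit_iff.1 h3)
  obtain ⟨a, ha⟩ := FiniteField.exists_nonsquare (F := ZMod p) (by
    rw [ZMod.ringChar_zmod_n]
    exact hp2)
  obtain ⟨k, hk1, hk2⟩ := Nat.chineseRemainder hco a.val 1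
  refine ⟨k, ?_⟩
  rw [jacobiSym.mul_right]
  have e1 : jacobiSym (k : ℤ) p = -1 := by
    rw [← jacobiSym.legendreSym.to_jacobiSym, legendreSym.eq_neg_one_iff]
    have h3 : (((k : ℕ) : ℤ) : ZMod p) = a := by
      rw [Int.cast_natCast, (ZMod.natCast_eq_natCast_iff _ _ _).2 hk1, ZMod.natCast_zmod_val]
    rw [h3]
    exact ha
  have e2 : jacobiSym (k : ℤ) m = 1 := by
    rw [← jacobiSym.one_left m]
    apply jacobiSym.mod_left'
    have h3 : k % m = 1 % m := hk2
    exact_mod_cast h3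
  rw [e1, e2, mul_one]

theorem exists_char {N : ℕ} (hN : Squarefree N) (h2 : N % 2 = 1) (h1 : N ≠ 1) :
    ∃ χ : DirichletCharacter ℂ N, χ ≠ 1 ∧ ∀ n : ℤ, χ (n : ZMod N) = ((jacobiSym n N : ℤ) : ℂ) := by
  have hN0 : N ≠ 0 := by
    rintro rfl
    simp at h2
  have := NeZero.mk hN0
  let χ : DirichletCharacter ℂ N :=
    { toFun := fun a => ((jacobiSym ((a.val : ℕ) : ℤ) N : ℤ) : ℂ)
      map_one' := by
        have h3 := jac_int (N := N) 1
        rw [Int.cast_one] at h3
        rw [h3, jacobiSym.one_left, Int.cast_one]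
      map_mul' := fun a b => by
        have h3 := jac_int (N := N) (((a.val : ℕ) : ℤ) * ((b.val : ℕ) : ℤ))
        rw [Int.cast_mul, Int.cast_natCast, Int.cast_natCast, ZMod.natCast_zmod_val,
          ZMod.natCast_zmod_val] at h3
        rw [h3, jacobiSym.mul_left, Int.cast_mul]
      map_nonunit' := fun a ha => by
        have h3 : jacobiSym ((a.val : ℕ) : ℤ) N = 0 := by
          rw [jacobiSym.eq_zero_iff_not_coprime]
          intro h4
          apply ha
          have h5 := (ZMod.isUnit_iff_coprime a.val N).2 (by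
            rw [Int.gcd_natCast_natCast] at h4
            exact h4)
          rwa [ZMod.natCast_zmod_val] at h5
        show ((jacobiSym ((a.val : ℕ) : ℤ) N : ℤ) : ℂ) = 0
        rw [h3, Int.cast_zero] }
  have hχ : ∀ n : ℤ, χ (n : ZMod N) = ((jacobiSym n N : ℤ) : ℂ) := fun n => by
    show ((jacobiSym (((n : ZMod N).val : ℕ) : ℤ) N : ℤ) : ℂ) = _
    rw [jac_int]
  refine ⟨χ, fun h => ?_, hχ⟩
  obtain ⟨k, hk⟩ := jac_neg hN h2 h1
  have h3 := hχ k
  rw [hk, h] at h3
  by_cases hu : IsUnit (k : ZMod N)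
  · rw [MulChar.one_apply hu] at h3
    norm_num at h3
  · rw [MulChar.map_nonunit _ hu] at h3
    norm_num at h3

end Pool.Agent.Work.MP_8efaaa_nt.KL
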