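import Mathlib
import Pool.Agent.Work.MP_8efaaa_nt.KL.QDefs

/-!
# KL/QRing (M): the ring of integers of a quadratic field of discriminant `D = 1 (mod 4)`

As `exists_theta` and `discr_QS` in `MP_29211c_nt/Field.lean` (there `D = p` prime) and `T/Quad.lean` / `MP_787500_nt/H10_Quad.lean` (there `D = -q`).
`1, s` is a basis of `F` over `ℚ` (`s` is not rational: `D` squarefree, `D ≠ 1`). `θ = (1 + s) / 2` satisfies `θ ^ 2 - θ - (D - 1) / 4 = 0`. If `x = a + b s` is
integral, then its trace `2 a` and its norm `a ^ 2 - D b ^ 2` are integers (work in `ℂ` or with `Algebra.trace`, `Algebra.norm`, or with the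
conjugation `s ↦ -s`), so `D (2 b) ^ 2 ∈ ℤ`, `2 b ∈ ℤ` as `D` is squarefree, and `2 a ≡ 2 b mod 2` because `(2 a) ^ 2 ≡ D (2 b) ^ 2 mod 4`. So
`x = (a - b) + 2 b θ`. The discriminant of the basis `1, θ` is `1 + 4 (D - 1) / 4 = D`
(`NumberField.discr_eq_discr`, `Algebra.discr` of a power basis, `Matrix.det_fin_two`, see `discr_QS`).
-/

set_option autoImplicit false

namespace Pool.Agent.Work.MP_8efaaa_nt.KL

open NumberField Polynomial

variable {F : Type*} [Field F] [NumberField F] {D : ℤ} {s : F}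

theorem QB.exists_theta (h : QB D s) : ∃ θ : 𝓞 F, 2 * algebraMap (𝓞 F) F θ = 1 + s ∧
    Algebra.adjoin ℤ {θ} = ⊤ ∧ minpoly ℤ θ = X ^ 2 - X - C ((D - 1) / 4) := by
  sorry

theorem QB.discr_eq (h : QB D s) : NumberField.discr F = D := by
  sorry

end Pool.Agent.Work.MP_8efaaa_nt.KL
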