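import Mathlib
import Pool.Agent.Work.MP_29211c_nt.IdealCount
import Pool.Agent.Work.MP_8efaaa_nt.KL.QDefs
import Pool.Agent.Work.MP_8efaaa_nt.KL.QRing

/-!
# KL/QCnt (M): the number of ideals of norm `n`

As `card_ideal` in `MP_29211c_nt/IdealCount.lean` (there `D = p` prime): the general part there (`card_mul`, `card_two`, `card_one`, `inert_card`,
`exists_hom`, `norm_ker`, `hom_ext`) can be used; `exists_lift`, `root_of_hom`, `count_two`, `count_one`, `count_zero` are for
`c : ℕ` there, copy them with `c : ℤ` (`c = (D - 1) / 4`). The new part is `roots_cases`: for a prime `q`, the number of roots of `X ^ 2 - X - c` modulo `q`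
is 2, 1, 0 when `jacobiSym q D.natAbs` is `1, 0, -1`. For `q = 2`: the roots are `0, 1` if `c` is even (`D = 1 mod 8`) and there is none if `c` is odd
(`D = 5 mod 8`); `jacobiSym.at_two`, `ZMod.χ₈_nat_eq_if_mod_eight` (`D.natAbs = ±D`, so `D.natAbs % 8 ∈ {1, 7}` resp. `{3, 5}`). For odd `q`:
`jacobiSym q D.natAbs = jacobiSym D q` (for `D > 0`: `jacobiSym.quadratic_reciprocity_one_mod_four`; for `D < 0`, `D.natAbs = 3 mod 4`:
`jacobiSym.quadratic_reciprocity`, `jacobiSym.at_neg_one`, by `q mod 4`) `= legendreSym q D`, and the roots are those of `(2 b - 1) ^ 2 = D`.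
-/

set_option autoImplicit false

namespace Pool.Agent.Work.MP_8efaaa_nt.KL

open NumberField

variable {F : Type*} [Field F] [NumberField F] {D : ℤ} {s : F}

theorem QB.card_ideal (h : QB D s) {n : ℕ} (hn : n ≠ 0) :
    (Nat.card {I : Ideal (𝓞 F) // Ideal.absNorm I = n} : ℤ) =
      ∑ δ ∈ n.divisors, jacobiSym δ D.natAbs := by
  sorry

end Pool.Agent.Work.MP_8efaaa_nt.KL
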