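import Mathlib
import Pool.Agent.Work.MP_787500_nt.HC.ClsA
import Pool.Agent.Work.MP_8efaaa_nt.T.Quad
import Pool.Agent.Work.MP_8efaaa_nt.KL.QDefs
import Pool.Agent.Work.MP_8efaaa_nt.KL.QNrm
import Pool.Agent.Work.MP_8efaaa_nt.KL.QCnt

/-!
# KL/QCls (M/L): the sum over the classes and their elements

For a nonzero integral ideal `𝔞` of norm `n` there are exactly one class `C` and exactly two elements `x` of `lat (rep C)` (`x` and `-x`) with
`𝔞 = (x) (rep C)⁻¹`: `C = (class of 𝔞)⁻¹`, and `x` is unique up to units; the units of `𝓞 K` are `±1` (`d ≥ 7`; a unit `a + b W` has norm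
`a ^ 2 + a b + b ^ 2 (1 + d) / 4 = 1`, i.e. `(2 a + b) ^ 2 + d b ^ 2 = 4`). Moreover `nn (rep C) x = n`. So the map `(C, x) ↦ (x) (rep C)⁻¹` from
`Σ C, {x ∈ lat (rep C), x ≠ 0}` to the nonzero ideals is two-to-one, and
`∑_C ∑'_x f (nn (rep C) x) = 2 ∑'_{𝔞 ≠ 0} f (absNorm 𝔞) = 2 ∑'_n #{𝔞 : absNorm 𝔞 = n} f n`, with the number of ideals from `QB.card_ideal` for
`QB (-d) s` (`(-d).natAbs = d`), which is at most the number of divisors of `n`; everything is absolutely summable by `hf`.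
(`lat I` is the image of `I` under the injective map `algebraMap K ℂ`.)
-/

set_option autoImplicit false

namespace Pool.Agent.Work.MP_8efaaa_nt.KL

open Pool.Agent.Work.CM Pool.Agent.Work.MP_787500_nt.HC NumberField IsDedekindDomain
open Pool.Agent.Work.MP_8efaaa_nt.T
open scoped Pointwise nonZeroDivisors

variable {K : Type*} [Field K] [NumberField K] [Algebra K ℂ] {d : ℕ} {s : K}

omit [Algebra K ℂ] in
theorem qb_of_base (hb : Base K d s) : QB (-(d : ℤ)) s where
  dim := hb.dim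
  sq := by rw [hb.sq]; push_cast; ring
  sf := by
    rw [← Int.squarefree_natAbs, Int.natAbs_neg, Int.natAbs_natCast]
    exact hb.sf
  mod := by have := hb.mod; omega
  ne := by omega

omit [Algebra K ℂ] in
/-- the units of the ring of integers -/
private theorem unit_cases (hb : Base K d s) (u : (𝓞 K)ˣ) : (u : 𝓞 K) = 1 ∨ (u : 𝓞 K) = -1 := by
  have hd := hb.mod
  have key : ∀ x : 𝓞 K, ∃ a b : ℤ, 2 * (x : K) = (a : K) + b * s ∧
      ∃ m : ℤ, a ^ 2 + d * b ^ 2 = 4 * m := by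
    intro x
    obtain ⟨a, b, hab, c, hc⟩ := Qd.exists_int_coords hb.dim hb.sq hb.sf (by omega)
      x.isIntegral_coe
    refine ⟨a, b, hab, ?_⟩
    obtain ⟨k, hk⟩ : ∃ k : ℕ, d = 4 * k + 3 := ⟨d / 4, by omega⟩
    have ha : a = b + 2 * c := by linarith
    refine ⟨b ^ 2 + b * c + c ^ 2 + k * b ^ 2, ?_⟩
    rw [hk, ha]
    push_cast
    ring
  have φ : K →+* ℂ := Classical.arbitrary _
  have hd0 : 0 < d := by omega
  obtain ⟨a, b, hab, m, hm⟩ := key u
  obtain ⟨a', b', hab', m', hm'⟩ := key ((u⁻¹ : (𝓞 K)ˣ) : 𝓞 K)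
  have h1 : ((u : 𝓞 K) : K) * (((u⁻¹ : (𝓞 K)ˣ) : 𝓞 K) : K) = 1 := by
    rw [← map_mul, Units.mul_inv, map_one]
  have n1 : Complex.normSq (φ (2 * ((u : 𝓞 K) : K))) = 4 * m := by
    have h := Pool.Agent.Work.MP_787500_nt.Quad.normSq_emb hb.sq hd0 φ a b
    push_cast at h
    rw [hab, h]
    exact_mod_cast hm
  have n2 : Complex.normSq (φ (2 * (((u⁻¹ : (𝓞 K)ˣ) : 𝓞 K) : K))) = 4 * m' := by
    have h := Pool.Agent.Work.MP_787500_nt.Quad.normSq_emb hb.sq hd0 φ a' b'
    push_cast at h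
    rw [hab', h]
    exact_mod_cast hm'
  have n3 : (4 * m : ℝ) * (4 * m') = 16 := by
    rw [← n1, ← n2, ← Complex.normSq_mul, ← map_mul]
    have : 2 * ((u : 𝓞 K) : K) * (2 * (((u⁻¹ : (𝓞 K)ˣ) : 𝓞 K) : K)) = 4 := by
      linear_combination 4 * h1
    rw [this, map_ofNat]
    norm_num [Complex.normSq_apply]
  have n4 : m * m' = 1 := by
    have : (m : ℝ) * m' = 1 := by linarith
    exact_mod_cast this
  have m0 : 0 ≤ m := by
    have : 0 ≤ a ^ 2 + d * b ^ 2 := by positivity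
    omega
  have m1 : m = 1 := by
    rcases Int.eq_one_or_neg_one_of_mul_eq_one n4 with h | h
    · exact h
    · omega
  rw [m1] at hm
  have hb0 : b = 0 := by
    by_contra h
    have hb1 : 1 ≤ b ^ 2 := by
      have := sq_pos_of_ne_zero h
      omega
    have hd7 : (7 : ℤ) ≤ d := by omega
    nlinarith [sq_nonneg a]
  have ha : a = 2 ∨ a = -2 := by
    rw [hb0] at hm
    have : (a - 2) * (a + 2) = 0 := by linarith
    rcases mul_eq_zero.1 this with h | h
    · left; omega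
    · right; omega
  rw [hb0] at hab
  rcases ha with ha | ha
  · left
    apply RingOfIntegers.ext
    rw [ha] at hab
    have h2 : (2 : K) * ((u : 𝓞 K) : K) = 2 * 1 := by
      rw [hab]; push_cast; ring
    have := mul_left_cancel₀ two_ne_zero h2
    show ((u : 𝓞 K) : K) = algebraMap (𝓞 K) K 1
    rw [this, map_one]
  · right
    apply RingOfIntegers.ext
    rw [ha] at hab
    have h2 : (2 : K) * ((u : 𝓞 K) : K) = 2 * (-1) := by
      rw [hab]; push_cast; ring
    have := mul_left_cancel₀ two_ne_zero h2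
    show ((u : 𝓞 K) : K) = algebraMap (𝓞 K) K (-1)
    rw [this, map_neg, map_one]

omit [Algebra K ℂ] in
private theorem coe_prin (x : Kˣ) : ((prin x : Idl K) : FractionalIdeal (𝓞 K)⁰ K) =
    FractionalIdeal.spanSingleton (𝓞 K)⁰ (x : K) := by
  unfold prin
  rw [coe_toPrincipalIdeal]

omit [Algebra K ℂ] in
private theorem prin_eq (hb : Base K d s) {x y : Kˣ} (h : prin x = prin y) :
    (x : K) = y ∨ (x : K) = -y := by
  have h1 : FractionalIdeal.spanSingleton (𝓞 K)⁰ (y : K) =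
      FractionalIdeal.spanSingleton (𝓞 K)⁰ (x : K) := by
    rw [← coe_prin, ← coe_prin, h]
  obtain ⟨z, hz⟩ := FractionalIdeal.spanSingleton_eq_spanSingleton.1 h1
  rw [Units.smul_def, Algebra.smul_def] at hz
  rcases unit_cases hb z with h2 | h2
  · left
    rw [← hz, h2, map_one, one_mul]
  · right
    rw [← hz, h2, map_neg, map_one, neg_one_mul]

omit [Algebra K ℂ] in
private theorem prin_neg (x : Kˣ) : prin (-x) = prin x := by
  apply Units.ext
  rw [coe_prin, coe_prin, FractionalIdeal.spanSingleton_eq_spanSingleton]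
  exact ⟨-1, by rw [Units.smul_def, Algebra.smul_def]; simp⟩

/-- an integral ideal as a fractional ideal -/
private noncomputable def jj (I : Ideal (𝓞 K)) (hI : I ≠ ⊥) : Idl K :=
  Units.mk0 (I : FractionalIdeal (𝓞 K)⁰ K) (FractionalIdeal.coeIdeal_ne_zero.2 hI)

omit [Algebra K ℂ] in
private theorem nI_jj (I : Ideal (𝓞 K)) (hI : I ≠ ⊥) : nI (jj I hI) = Ideal.absNorm I := by
  unfold nI jj
  rw [Units.val_mk0, FractionalIdeal.coeIdeal_absNorm]
  norm_cast

omit [Algebra K ℂ] in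
private theorem exists_gen (rep : ClassGroup (𝓞 K) → Idl K) (hrep : ∀ C, cl (rep C) = C)
    (I : Ideal (𝓞 K)) (hI : I ≠ ⊥) :
    ∃ x : Kˣ, jj I hI * rep ((cl (jj I hI))⁻¹) = prin x := by
  have h1 : cl (1 : Idl K) = cl (jj I hI * rep ((cl (jj I hI))⁻¹)) := by
    rw [cl_mul, hrep, mul_inv_cancel, cl_one]
  obtain ⟨x, hx⟩ := cl_eq_iff.1 h1
  exact ⟨x, by rw [hx, mul_one]⟩

/-- a generator -/
private noncomputable def gg (rep : ClassGroup (𝓞 K) → Idl K) (hrep : ∀ C, cl (rep C) = C)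
    (I : Ideal (𝓞 K)) (hI : I ≠ ⊥) : Kˣ := Classical.choose (exists_gen rep hrep I hI)

omit [Algebra K ℂ] in
private theorem gg_spec (rep : ClassGroup (𝓞 K) → Idl K) (hrep : ∀ C, cl (rep C) = C)
    (I : Ideal (𝓞 K)) (hI : I ≠ ⊥) :
    jj I hI * rep ((cl (jj I hI))⁻¹) = prin (gg rep hrep I hI) :=
  Classical.choose_spec (exists_gen rep hrep I hI)

omit [Algebra K ℂ] in
private theorem gg_mem (rep : ClassGroup (𝓞 K) → Idl K) (hrep : ∀ C, cl (rep C) = C)
    (I : Ideal (𝓞 K)) (hI : I ≠ ⊥) (u : ℤˣ) :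
    (((u : ℤ) : K) * (gg rep hrep I hI : K)) ∈
      ((rep ((cl (jj I hI))⁻¹) : Idl K) : FractionalIdeal (𝓞 K)⁰ K) := by
  have h1 : (gg rep hrep I hI : K) ∈
      ((rep ((cl (jj I hI))⁻¹) : Idl K) : FractionalIdeal (𝓞 K)⁰ K) := by
    have h2 : (gg rep hrep I hI : K) ∈
        ((prin (gg rep hrep I hI) : Idl K) : FractionalIdeal (𝓞 K)⁰ K) := by
      rw [coe_prin]
      exact FractionalIdeal.mem_spanSingleton_self _ _
    rw [← gg_spec, Units.val_mul] at h2
    have h3 : ((jj I hI : Idl K) : FractionalIdeal (𝓞 K)⁰ K) *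
        ((rep ((cl (jj I hI))⁻¹) : Idl K) : FractionalIdeal (𝓞 K)⁰ K) ≤
        1 * ((rep ((cl (jj I hI))⁻¹) : Idl K) : FractionalIdeal (𝓞 K)⁰ K) := by
      apply mul_le_mul_left
      unfold jj
      rw [Units.val_mk0]
      exact FractionalIdeal.coeIdeal_le_one
    rw [one_mul] at h3
    exact h3 h2
  rcases Int.units_eq_one_or u with rfl | rfl
  · simpa using h1
  · have h4 := ((((rep ((cl (jj I hI))⁻¹) : Idl K) : FractionalIdeal (𝓞 K)⁰ K)) :
      Submodule (𝓞 K) K).neg_mem h1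
    have h5 : ((((-1 : ℤˣ) : ℤ) : K) * (gg rep hrep I hI : K)) = -(gg rep hrep I hI : K) := by
      simp
    rw [h5]
    exact h4

/-- the pairs of a class and an element of its lattice of norm `n` -/
private theorem equiv_fib (hb : Base K d s) (rep : ClassGroup (𝓞 K) → Idl K)
    (hrep : ∀ C, cl (rep C) = C) {n : ℕ} (hn : n ≠ 0) :
    Nonempty ({I : Ideal (𝓞 K) // Ideal.absNorm I = n} × ℤˣ ≃
      {p : (C : ClassGroup (𝓞 K)) × lat (rep C) // nn (rep p.1) p.2 = n}) := by
  have hne : ∀ I : {I : Ideal (𝓞 K) // Ideal.absNorm I = n}, (I : Ideal (𝓞 K)) ≠ ⊥ := by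
    intro I h
    apply hn
    rw [← I.2, h, Ideal.absNorm_bot]
  have hinj : Function.Injective (algebraMap K ℂ) := (algebraMap K ℂ).injective
  let G : {I : Ideal (𝓞 K) // Ideal.absNorm I = n} × ℤˣ →
      {p : (C : ClassGroup (𝓞 K)) × lat (rep C) // nn (rep p.1) p.2 = n} := fun q =>
    ⟨⟨(cl (jj q.1.1 (hne q.1)))⁻¹, ⟨algebraMap K ℂ (((q.2 : ℤ) : K) *
      (gg rep hrep q.1.1 (hne q.1) : K)), ⟨_, gg_mem rep hrep q.1.1 (hne q.1) q.2, rfl⟩⟩⟩, by
        show ⌊‖algebraMap K ℂ (((q.2 : ℤ) : K) * (gg rep hrep q.1.1 (hne q.1) : K))‖ ^ 2 /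
          nI (rep ((cl (jj q.1.1 (hne q.1)))⁻¹))⌋₊ = n
        have h1 : ‖algebraMap K ℂ (((q.2 : ℤ) : K) * (gg rep hrep q.1.1 (hne q.1) : K))‖ =
            ‖algebraMap K ℂ (gg rep hrep q.1.1 (hne q.1) : K)‖ := by
          rcases Int.units_eq_one_or q.2 with h | h <;> rw [h] <;> simp
        have h2 := congrArg nI (gg_spec rep hrep q.1.1 (hne q.1))
        rw [nI_mul, nI_jj, nI_prin hb, q.1.2] at h2
        rw [h1, ← h2, mul_div_assoc, div_self (nI_pos _).ne', mul_one, Nat.floor_natCast]⟩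
  refine ⟨Equiv.ofBijective G ⟨?_, ?_⟩⟩
  · rintro ⟨I, u⟩ ⟨I', u'⟩ h
    have h1 : (G (I, u)).1.1 = (G (I', u')).1.1 := by rw [h]
    have h2 : ((G (I, u)).1.2 : ℂ) = ((G (I', u')).1.2 : ℂ) := by rw [h]
    have h1' : (cl (jj I.1 (hne I)))⁻¹ = (cl (jj I'.1 (hne I')))⁻¹ := h1
    have h2' : ((u : ℤ) : K) * (gg rep hrep I.1 (hne I) : K) =
        ((u' : ℤ) : K) * (gg rep hrep I'.1 (hne I') : K) := hinj h2
    have h3 : prin (gg rep hrep I.1 (hne I)) = prin (gg rep hrep I'.1 (hne I')) := by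
      have h4 : gg rep hrep I.1 (hne I) = gg rep hrep I'.1 (hne I') ∨
          gg rep hrep I.1 (hne I) = -gg rep hrep I'.1 (hne I') := by
        rcases Int.units_eq_one_or u with rfl | rfl <;>
          rcases Int.units_eq_one_or u' with rfl | rfl
        · left; apply Units.ext; simpa using h2'
        · right; apply Units.ext; simpa using h2'
        · right; apply Units.ext
          push_cast at h2' ⊢
          linear_combination -h2'
        · left; apply Units.ext
          push_cast at h2' ⊢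
          linear_combination -h2'
      rcases h4 with h4 | h4
      · rw [h4]
      · rw [h4, prin_neg]
    rw [← gg_spec, ← gg_spec, h1'] at h3
    have h5 : jj I.1 (hne I) = jj I'.1 (hne I') := mul_right_cancel h3
    have h6 : I = I' := by
      apply Subtype.ext
      have h7 := congrArg (fun J : Idl K => (J : FractionalIdeal (𝓞 K)⁰ K)) h5
      unfold jj at h7
      simp only [Units.val_mk0] at h7
      exact FractionalIdeal.coeIdeal_injective h7
    subst h6
    have h8 : ((u : ℤ) : K) = ((u' : ℤ) : K) := mul_right_cancel₀ (Units.ne_zero _) h2'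
    have h9 : (u : ℤ) = (u' : ℤ) := by exact_mod_cast h8
    rw [Units.ext h9]
  · rintro ⟨⟨C, ⟨_, y, hy, rfl⟩⟩, hp⟩
    have hp' : nn (rep C) (algebraMap K ℂ y) = n := hp
    have hy0 : y ≠ 0 := by
      rintro rfl
      apply hn
      rw [← hp']
      unfold nn
      simp
    set α : Kˣ := Units.mk0 y hy0 with hα
    have h1 : ((prin α * (rep C)⁻¹ : Idl K) : FractionalIdeal (𝓞 K)⁰ K) ≤ 1 := by
      have h2 : ((prin α : Idl K) : FractionalIdeal (𝓞 K)⁰ K) ≤ (rep C : Idl K) := by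
        rw [coe_prin, FractionalIdeal.spanSingleton_le_iff_mem]
        exact hy
      have h3 : ((prin α : Idl K) : FractionalIdeal (𝓞 K)⁰ K) *
          (((rep C)⁻¹ : Idl K) : FractionalIdeal (𝓞 K)⁰ K) ≤
          ((rep C : Idl K) : FractionalIdeal (𝓞 K)⁰ K) *
          (((rep C)⁻¹ : Idl K) : FractionalIdeal (𝓞 K)⁰ K) := mul_le_mul_left h2 _
      rwa [← Units.val_mul, ← Units.val_mul, mul_inv_cancel, Units.val_one] at h3
    obtain ⟨I, hI⟩ := FractionalIdeal.le_one_iff_exists_coeIdeal.1 h1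
    have hI0 : I ≠ ⊥ := by
      rintro rfl
      rw [FractionalIdeal.coeIdeal_bot] at hI
      exact Units.ne_zero _ hI.symm
    have hJ : jj I hI0 = prin α * (rep C)⁻¹ := Units.ext hI
    have hC : (cl (jj I hI0))⁻¹ = C := by
      rw [hJ, cl_mul, cl_inv, hrep]
      have : cl (prin α) = 1 := by
        rw [← cl_one]
        exact (cl_eq_iff.2 ⟨α, by rw [mul_one]⟩).symm
      rw [this, one_mul, inv_inv]
    have hnorm : Ideal.absNorm I = n := by
      rw [← hp']
      unfold nn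
      have h4 := congrArg nI hJ
      rw [nI_jj] at h4
      have h5 : nI (rep C) * nI (rep C)⁻¹ = 1 := by
        rw [← nI_mul, mul_inv_cancel]
        unfold nI
        rw [Units.val_one, FractionalIdeal.absNorm_one]
        norm_num
      have h6 : nI (rep C)⁻¹ = (nI (rep C))⁻¹ := eq_inv_of_mul_eq_one_right h5
      rw [nI_mul, nI_prin hb, h6, ← div_eq_mul_inv] at h4
      have h7 : (α : K) = y := rfl
      rw [h7] at h4
      rw [← h4, Nat.floor_natCast]
    have hg := gg_spec rep hrep I hI0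
    rw [hC, hJ, inv_mul_cancel_right] at hg
    have hu : ∃ u : ℤˣ, y = ((u : ℤ) : K) * (gg rep hrep I hI0 : K) := by
      rcases prin_eq hb hg with h | h
      · exact ⟨1, by simpa [hα] using h⟩
      · exact ⟨-1, by simpa [hα] using h⟩
    obtain ⟨u, hu⟩ := hu
    refine ⟨(⟨I, hnorm⟩, u), ?_⟩
    apply Subtype.ext
    show (⟨(cl (jj I hI0))⁻¹, ⟨algebraMap K ℂ (((u : ℤ) : K) * (gg rep hrep I hI0 : K)), _⟩⟩ :
      (C : ClassGroup (𝓞 K)) × lat (rep C)) = _
    subst hC
    refine Sigma.ext rfl (heq_of_eq ?_)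
    apply Subtype.ext
    show algebraMap K ℂ (((u : ℤ) : K) * (gg rep hrep I hI0 : K)) = algebraMap K ℂ y
    rw [hu]

private theorem finite_fib (hb : Base K d s) (rep : ClassGroup (𝓞 K) → Idl K)
    (hrep : ∀ C, cl (rep C) = C) {n : ℕ} (hn : n ≠ 0) :
    Nat.card {p : (C : ClassGroup (𝓞 K)) × lat (rep C) // nn (rep p.1) p.2 = n} =
      2 * Nat.card {I : Ideal (𝓞 K) // Ideal.absNorm I = n} := by
  rw [← Nat.card_congr (equiv_fib hb rep hrep hn).some, Nat.card_prod]
  have : Nat.card ℤˣ = 2 := by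
    rw [Nat.card_eq_fintype_card]
    rfl
  rw [this, mul_comm]

private theorem fib_finite (hb : Base K d s) (rep : ClassGroup (𝓞 K) → Idl K)
    (hrep : ∀ C, cl (rep C) = C) {n : ℕ} (hn : n ≠ 0) :
    Finite {p : (C : ClassGroup (𝓞 K)) × lat (rep C) // nn (rep p.1) p.2 = n} := by
  have h1 : Finite {I : Ideal (𝓞 K) // Ideal.absNorm I = n} :=
    (Ideal.finite_setOfPred_absNorm_eq n).to_subtype
  exact Finite.of_equiv _ (equiv_fib hb rep hrep hn).some

theorem class_sum (hb : Base K d s) (rep : ClassGroup (𝓞 K) → Idl K) (hrep : ∀ C, cl (rep C) = C)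
    {f : ℕ → ℝ} (h0 : f 0 = 0) (hf : Summable fun n : ℕ => (n.divisors.card : ℝ) * |f n|) :
    ∑ C, ∑' x : lat (rep C), f (nn (rep C) x) =
      2 * ∑' n : ℕ, ((∑ δ ∈ n.divisors, jacobiSym δ d : ℤ) : ℝ) * f n := by
  classical
  let N : (C : ClassGroup (𝓞 K)) × lat (rep C) → ℕ := fun p => nn (rep p.1) p.2
  have hcard : ∀ n : ℕ, n ≠ 0 → (Nat.card {p // N p = n} : ℝ) =
      2 * ((∑ δ ∈ n.divisors, jacobiSym δ d : ℤ) : ℝ) := by
    intro n hn
    have h1 := finite_fib hb rep hrep hn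
    have h2 := (qb_of_base hb).card_ideal hn
    rw [Int.natAbs_neg, Int.natAbs_natCast] at h2
    have h3 : (Nat.card {p // N p = n} : ℝ) =
        2 * (Nat.card {I : Ideal (𝓞 K) // Ideal.absNorm I = n} : ℝ) := by exact_mod_cast h1
    rw [h3]
    congr 1
    exact_mod_cast h2
  have hle : ∀ n : ℕ, n ≠ 0 → ((∑ δ ∈ n.divisors, jacobiSym δ d : ℤ) : ℝ) ≤
      n.divisors.card := by
    intro n _
    have h1 : (∑ δ ∈ n.divisors, jacobiSym δ d : ℤ) ≤ ∑ δ ∈ n.divisors, (1 : ℤ) := by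
      refine Finset.sum_le_sum fun δ _ => ?_
      rcases jacobiSym.trichotomy (δ : ℤ) d with h | h | h <;> rw [h] <;> norm_num
    have h2 : ∑ δ ∈ n.divisors, (1 : ℤ) = n.divisors.card := by simp
    rw [h2] at h1
    exact_mod_cast h1
  have hfib : ∀ (g : ℕ → ℝ) (n : ℕ), ∑' p : {p // N p = n}, g (N p) =
      Nat.card {p // N p = n} * g n := by
    intro g n
    have : ∀ p : {p // N p = n}, g (N p) = g n := fun p => by rw [p.2]
    rw [tsum_congr this, tsum_const, nsmul_eq_mul]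
  have hsumabs : Summable fun p : (n : ℕ) × {p // N p = n} => |f (N p.2)| := by
    rw [summable_sigma_of_nonneg fun _ => abs_nonneg _]
    constructor
    · intro n
      rcases eq_or_ne n 0 with rfl | hn
      · have : ∀ p : {p // N p = 0}, |f (N p)| = 0 := fun p => by rw [p.2, h0, abs_zero]
        exact (summable_congr this).2 summable_zero
      · have : Finite {p // N p = n} := fib_finite hb rep hrep hn
        exact Summable.of_finite
    · refine (hf.mul_left 2).of_nonneg_of_le (fun n => tsum_nonneg fun _ => abs_nonneg _) ?_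
      intro n
      show ∑' p : {p // N p = n}, |f (N p)| ≤ _
      rw [hfib (fun m => |f m|) n]
      rcases eq_or_ne n 0 with rfl | hn
      · simp [h0]
      · rw [hcard n hn, mul_assoc]
        have := mul_le_mul_of_nonneg_right (hle n hn) (abs_nonneg (f n))
        linarith
  have hS : Summable fun p : (C : ClassGroup (𝓞 K)) × lat (rep C) => f (N p) := by
    have h1 : Summable fun p : (n : ℕ) × {p // N p = n} => f (N p.2) := hsumabs.of_abs
    exact (Equiv.sigmaFiberEquiv N).summable_iff.1 h1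
  have h2 : ∑' p : (C : ClassGroup (𝓞 K)) × lat (rep C), f (N p) =
      ∑' n : ℕ, ∑' p : {p // N p = n}, f (N p) := by
    rw [← (Equiv.sigmaFiberEquiv N).tsum_eq]
    exact Summable.tsum_sigma (f := fun p : (n : ℕ) × {p // N p = n} => f (N p.2)) hsumabs.of_abs
  have h3 : ∑' p : (C : ClassGroup (𝓞 K)) × lat (rep C), f (N p) =
      ∑ C, ∑' x : lat (rep C), f (nn (rep C) x) := by
    rw [Summable.tsum_sigma hS, tsum_fintype]
  rw [← h3, h2, ← tsum_mul_left]
  refine tsum_congr fun n => ?_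
  rw [hfib f n]
  rcases eq_or_ne n 0 with rfl | hn
  · simp [h0]
  · rw [hcard n hn, mul_assoc]

end Pool.Agent.Work.MP_8efaaa_nt.KL
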