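import Mathlib
import Pool.Agent.Work.MP_8efaaa_nt.KL.QDefs
import Pool.Agent.Work.MP_8efaaa_nt.KL.QRing

/-!
# KL/QImag (M): the residue for an imaginary quadratic field

`dedekindZeta_residue_def`, `QB.discr_eq`. There is no real embedding (`s ^ 2 = D < 0`), so `nrRealPlaces = 0`, `nrComplexPlaces = 1`, the rank of the unit
group is 0 and the regulator is 1 (`Units.regulator_eq_one_of_rank_zero`-like; the regulator is a determinant of size 0). The roots of unity: a unit is
`a + b θ` with norm `a ^ 2 + a b + b ^ 2 (1 - D) / 4 = 1` (`4 ·`: `(2 a + b) ^ 2 + |D| b ^ 2 = 4`), so `u = ±1` when `D < -4` and for `D = -3` the six sixth roots of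
unity. `torsionOrder` is the order of the torsion subgroup of the units: show `torsionOrder = 2` for `D ≠ -3` (`D < -4` as `D = 1 mod 4`) and `= 6` for `D = -3`
(the six elements are powers of `θ`, `θ ^ 2 = θ - 1`, `θ ^ 3 = -1`).
-/

set_option autoImplicit false

namespace Pool.Agent.Work.MP_8efaaa_nt.KL

open NumberField

variable {F : Type*} [Field F] [NumberField F] {D : ℤ} {s : F}

theorem QB.residue_imag (h : QB D s) (hD : D < 0) :
    dedekindZeta_residue F = 2 * Real.pi * (classNumber F : ℝ) /
      ((if D = -3 then 6 else 2) * Real.sqrt |(D : ℝ)|) := by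
  sorry

end Pool.Agent.Work.MP_8efaaa_nt.KL
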