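import Mathlib
import Pool.Agent.Work.CM.Bas
import Pool.Agent.Work.CM.Hom
import Pool.Agent.Work.MP_8efaaa_nt.KL.QDefs
import Pool.Agent.Work.MP_8efaaa_nt.KL.Zeta

/-!
# KL/QLin (M): the sublattices of prime index

`L = span {w1, w2}` (basis), `L / l L` is a vector space of dimension 2 over `ZMod l`; `lns l L` corresponds to its lines: for `x ∈ L`, `x ∉ l L` there is exactly one
`M ∈ lns l L` with `x ∈ M`, namely `M = ℤ x + l L`; for `y ∈ M` there is `k : ℤ` with `y - k x ∈ l L`, and `k` is prime to `l` when `y ∉ l L`. The number of sublattices is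
finite (each is `ℤ x + l L` for one of the `l ^ 2` classes of `x`). `hasArea_line`: a basis `(v1, v2)` of `L` with `M = span {v1, l v2}` (for `M = ℤ x + l L`: `x = a w1 + b w2` with `(a, b)` not both divisible by `l`;
change `x` modulo `l L` to have `gcd (a, b) = 1`, complete to a basis by Bezout; or: a superlattice of index `l` inside `l⁻¹ M`...; or via the determinant of a basis of `M` in terms of a basis of
`L`, whose absolute value is the index `l`: any way is fine).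
`sum_lines`: `∑_M G M zl M t = ∑_M G M (∑_{x ∈ M, x ∉ l L} ‖x‖ ^ (-2 t) + ∑_{x ∈ l L} ‖x‖ ^ (-2 t))`; the second part is zero by `hsum`, the first is
`∑_{x ∈ L, x ∉ l L} g x ‖x‖ ^ (-2 t)` because each such `x` is in exactly one `M`, with `G M = g x`; and `g x = 0` for `x ∈ l L`.
`sum_lines_zero`: `M ↦ α M + l L` is an injective map of the finite set `lns l L` into itself (`hα, hα'`: multiplication by `α` induces a bijective linear map of `L / l L`), hence a bijection, and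
`G (α M + l L) = -G M`; so the sum is equal to its negative.
-/

set_option autoImplicit false

namespace Pool.Agent.Work.MP_8efaaa_nt.KL

open Pool.Agent.Work.CM
open scoped Pointwise

variable {L M : Submodule ℤ ℂ} {l : ℕ} {g : ℂ → ℤ} {G : Submodule ℤ ℂ → ℤ}

/-- the point with coordinates `a, b` -/
private noncomputable def pt (w1 w2 : ℂ) (a b : ℤ) : ℂ := (a : ℂ) * w1 + (b : ℂ) * w2

/-- coordinates -/
private structure Co (L : Submodule ℤ ℂ) (w1 w2 : ℂ) : Prop where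
  im : ((starRingEnd ℂ) w1 * w2).im ≠ 0
  eq : L = Submodule.span ℤ {w1, w2}

private lemma exists_co (hL : IsLat L) : ∃ w1 w2, Co L w1 w2 := by
  obtain ⟨A, hA, w1, w2, h, h2⟩ := exists_hasArea hL
  refine ⟨w1, w2, ?_, h⟩
  intro h0
  rw [h0, abs_zero] at h2
  exact hA.ne' h2

section co

variable {w1 w2 : ℂ} (h : Co L w1 w2)

include h

private lemma Co.mem {z : ℂ} : z ∈ L ↔ ∃ a b : ℤ, pt w1 w2 a b = z := by
  rw [h.eq, Submodule.mem_span_pair]
  simp only [pt, zsmul_eq_mul]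

private lemma Co.mem_pt (a b : ℤ) : pt w1 w2 a b ∈ L := h.mem.2 ⟨a, b, rfl⟩

private lemma Co.inj {a b c d : ℤ} (e : pt w1 w2 a b = pt w1 w2 c d) : a = c ∧ b = d := by
  have him := h.im
  have e1 := congrArg Complex.re e
  have e2 := congrArg Complex.im e
  simp only [pt, Complex.add_re, Complex.add_im, Complex.mul_re, Complex.mul_im,
    Complex.intCast_re, Complex.intCast_im, zero_mul, sub_zero, add_zero] at e1 e2
  simp only [Complex.mul_im, Complex.conj_re, Complex.conj_im] at him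
  have him' : w1.re * w2.im - w1.im * w2.re ≠ 0 := by
    intro h0
    apply him
    linarith
  constructor
  · have e3 : ((a : ℝ) - c) * (w1.re * w2.im - w1.im * w2.re) = 0 := by
      linear_combination w2.im * e1 - w2.re * e2
    rcases mul_eq_zero.1 e3 with e4 | e4
    · exact_mod_cast sub_eq_zero.1 e4
    · exact absurd e4 him'
  · have e3 : ((b : ℝ) - d) * (w1.re * w2.im - w1.im * w2.re) = 0 := by
      linear_combination w1.re * e2 - w1.im * e1
    rcases mul_eq_zero.1 e3 with e4 | e4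
    · exact_mod_cast sub_eq_zero.1 e4
    · exact absurd e4 him'

private lemma Co.mem_l {a b : ℤ} :
    pt w1 w2 a b ∈ (l : ℂ) • L ↔ (l : ℤ) ∣ a ∧ (l : ℤ) ∣ b := by
  rw [Submodule.mem_smul_pointwise_iff_exists]
  constructor
  · rintro ⟨y, hy, e⟩
    obtain ⟨c, d, rfl⟩ := h.mem.1 hy
    have e2 : pt w1 w2 (l * c) (l * d) = pt w1 w2 a b := by
      rw [← e]
      simp only [pt, smul_eq_mul]
      push_cast
      ring
    obtain ⟨h1, h2⟩ := h.inj e2
    exact ⟨⟨c, h1.symm⟩, ⟨d, h2.symm⟩⟩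
  · rintro ⟨⟨c, rfl⟩, ⟨d, rfl⟩⟩
    refine ⟨pt w1 w2 c d, h.mem_pt c d, ?_⟩
    simp only [pt, smul_eq_mul]
    push_cast
    ring

omit h in
private lemma pt_lin (a b c d u v : ℤ) :
    u • pt w1 w2 a b + v • pt w1 w2 c d = pt w1 w2 (u * a + v * c) (u * b + v * d) := by
  simp only [pt, zsmul_eq_mul]
  push_cast
  ring

private lemma Co.det (hl : l.Prime) (hM : M ∈ lns l L) {a b c d : ℤ} (h1 : pt w1 w2 a b ∈ M)
    (h2 : pt w1 w2 c d ∈ M) : (l : ℤ) ∣ a * d - b * c := by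
  by_contra hnd
  have hco : IsCoprime (l : ℤ) (a * d - b * c) :=
    ((Nat.prime_iff_prime_int.1 hl).coprime_iff_not_dvd).2 hnd
  obtain ⟨u, v, huv⟩ := hco
  have hM1 : (l : ℂ) • L < M := hM.1
  have hM2 : M < L := hM.2
  apply hM2.not_ge
  intro z hz
  obtain ⟨e, f, rfl⟩ := h.mem.1 hz
  have h3 : pt w1 w2 (l * e) (l * f) ∈ M :=
    hM1.le (h.mem_l.2 ⟨dvd_mul_right _ _, dvd_mul_right _ _⟩)
  have h4 : pt w1 w2 ((a * d - b * c) * e) ((a * d - b * c) * f) ∈ M := by
    have h5 := M.add_mem (M.smul_mem (e * d - f * c) h1) (M.smul_mem (a * f - b * e) h2)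
    rw [pt_lin] at h5
    convert h5 using 2 <;> ring
  have h6 := M.add_mem (M.smul_mem u h3) (M.smul_mem v h4)
  rw [pt_lin] at h6
  convert h6 using 2
  · linear_combination -e * huv
  · linear_combination -f * huv

omit h in
private lemma exists_k (hl : l.Prime) {a b c d : ℤ} (hab : ¬ ((l : ℤ) ∣ a ∧ (l : ℤ) ∣ b))
    (hd : (l : ℤ) ∣ a * d - b * c) : ∃ k : ℤ, (l : ℤ) ∣ c - k * a ∧ (l : ℤ) ∣ d - k * b := by
  have hp := Nat.prime_iff_prime_int.1 hl
  by_cases ha : (l : ℤ) ∣ a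
  · have hb : ¬ (l : ℤ) ∣ b := fun hb => hab ⟨ha, hb⟩
    obtain ⟨u, v, huv⟩ := (hp.coprime_iff_not_dvd).2 hb
    refine ⟨d * v, ?_, ?_⟩
    · have h1 : (l : ℤ) ∣ b * (c - d * v * a) := by
        obtain ⟨w, hw⟩ := hd
        obtain ⟨a', rfl⟩ := ha
        refine ⟨-w + a' * d - b * d * v * a', ?_⟩
        linear_combination -hw
      exact (hp.dvd_mul.1 h1).resolve_left hb
    · refine ⟨d * u, ?_⟩
      linear_combination -d * huv
  · obtain ⟨u, v, huv⟩ := (hp.coprime_iff_not_dvd).2 ha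
    refine ⟨c * v, ?_, ?_⟩
    · refine ⟨c * u, ?_⟩
      linear_combination -c * huv
    · obtain ⟨w, hw⟩ := hd
      have h1 : (l : ℤ) ∣ a * (d - c * v * b) := by
        refine ⟨w + b * c * u, ?_⟩
        linear_combination hw - b * c * huv
      exact (hp.dvd_mul.1 h1).resolve_left ha

private lemma Co.repr (hl : l.Prime) (hM : M ∈ lns l L) {x y : ℂ} (hx : x ∈ M)
    (hx' : x ∉ (l : ℂ) • L) (hy : y ∈ M) : ∃ k : ℤ, y - k * x ∈ (l : ℂ) • L := by
  have hM2 : M < L := hM.2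
  obtain ⟨a, b, rfl⟩ := h.mem.1 (hM2.le hx)
  obtain ⟨c, d, rfl⟩ := h.mem.1 (hM2.le hy)
  rw [h.mem_l] at hx'
  obtain ⟨k, h1, h2⟩ := exists_k hl hx' (h.det hl hM hx hy)
  refine ⟨k, ?_⟩
  have e : pt w1 w2 c d - k * pt w1 w2 a b = pt w1 w2 (c - k * a) (d - k * b) := by
    simp only [pt]
    push_cast
    ring
  rw [e, h.mem_l]
  exact ⟨h1, h2⟩

private lemma Co.mem_iff (hl : l.Prime) (hM : M ∈ lns l L) {a b c d : ℤ}
    (hx : pt w1 w2 a b ∈ M) (hx' : ¬ ((l : ℤ) ∣ a ∧ (l : ℤ) ∣ b)) :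
    pt w1 w2 c d ∈ M ↔ (l : ℤ) ∣ a * d - b * c := by
  refine ⟨fun hy => h.det hl hM hx hy, fun hd => ?_⟩
  obtain ⟨k, h1, h2⟩ := exists_k hl hx' hd
  have hM1 : (l : ℂ) • L < M := hM.1
  have h3 : pt w1 w2 (c - k * a) (d - k * b) ∈ M := hM1.le (h.mem_l.2 ⟨h1, h2⟩)
  have h4 := M.add_mem h3 (M.smul_mem k hx)
  have e : pt w1 w2 (c - k * a) (d - k * b) + k • pt w1 w2 a b = pt w1 w2 c d := by
    simp only [pt, zsmul_eq_mul]
    push_cast
    ring
  rwa [e] at h4

private lemma Co.exists (hl : l.Prime) {a b : ℤ} (hx' : ¬ ((l : ℤ) ∣ a ∧ (l : ℤ) ∣ b)) :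
    ∃ M, M ∈ lns l L ∧ pt w1 w2 a b ∈ M := by
  let N : Submodule ℤ ℂ :=
    { carrier := {z | ∃ c d : ℤ, pt w1 w2 c d = z ∧ (l : ℤ) ∣ a * d - b * c}
      add_mem' := by
        rintro _ _ ⟨c, d, rfl, hd⟩ ⟨c', d', rfl, hd'⟩
        refine ⟨c + c', d + d', ?_, ?_⟩
        · simp only [pt]
          push_cast
          ring
        · have e : a * (d + d') - b * (c + c') = (a * d - b * c) + (a * d' - b * c') := by ring
          rw [e]
          exact dvd_add hd hd'
      zero_mem' := ⟨0, 0, by simp [pt], by simp⟩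
      smul_mem' := by
        rintro k _ ⟨c, d, rfl, hd⟩
        refine ⟨k * c, k * d, ?_, ?_⟩
        · simp only [pt, zsmul_eq_mul]
          push_cast
          ring
        · have e : a * (k * d) - b * (k * c) = k * (a * d - b * c) := by ring
          rw [e]
          exact Dvd.dvd.mul_left hd k }
  have hN : ∀ z, z ∈ N ↔ ∃ c d : ℤ, pt w1 w2 c d = z ∧ (l : ℤ) ∣ a * d - b * c :=
    fun z => Iff.rfl
  have hxN : pt w1 w2 a b ∈ N := (hN _).2 ⟨a, b, rfl, by
    have e : a * b - b * a = 0 := by ring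
    rw [e]
    exact dvd_zero _⟩
  refine ⟨N, ⟨lt_of_le_of_ne ?_ ?_, lt_of_le_of_ne ?_ ?_⟩, hxN⟩
  · intro z hz
    have hzL : z ∈ L := by
      rw [Submodule.mem_smul_pointwise_iff_exists] at hz
      obtain ⟨y, hy, rfl⟩ := hz
      have := L.smul_mem (l : ℤ) hy
      simpa using this
    obtain ⟨c, d, rfl⟩ := h.mem.1 hzL
    obtain ⟨h1, h2⟩ := h.mem_l.1 hz
    exact (hN _).2 ⟨c, d, rfl, dvd_sub (Dvd.dvd.mul_left h2 _) (Dvd.dvd.mul_left h1 _)⟩
  · intro e
    rw [← e] at hxN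
    exact hx' (h.mem_l.1 hxN)
  · intro z hz
    obtain ⟨c, d, rfl, -⟩ := (hN _).1 hz
    exact h.mem_pt c d
  · intro e
    apply hx'
    constructor
    · have h1 : pt w1 w2 0 1 ∈ N := by
        rw [e]
        exact h.mem_pt 0 1
      obtain ⟨c, d, h2, h3⟩ := (hN _).1 h1
      obtain ⟨rfl, rfl⟩ := h.inj h2
      simpa using h3
    · have h1 : pt w1 w2 1 0 ∈ N := by
        rw [e]
        exact h.mem_pt 1 0
      obtain ⟨c, d, h2, h3⟩ := (hN _).1 h1
      obtain ⟨rfl, rfl⟩ := h.inj h2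
      simpa using h3

private lemma Co.unique (hl : l.Prime) {N : Submodule ℤ ℂ} (hM : M ∈ lns l L) (hN : N ∈ lns l L)
    {x : ℂ} (hx' : x ∉ (l : ℂ) • L) (h1 : x ∈ M) (h2 : x ∈ N) : M = N := by
  have hM2 : M < L := hM.2
  have hN2 : N < L := hN.2
  obtain ⟨a, b, rfl⟩ := h.mem.1 (hM2.le h1)
  rw [h.mem_l] at hx'
  ext z
  constructor
  · intro hz
    obtain ⟨c, d, rfl⟩ := h.mem.1 (hM2.le hz)
    exact (h.mem_iff hl hN h2 hx').2 ((h.mem_iff hl hM h1 hx').1 hz)
  · intro hz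
    obtain ⟨c, d, rfl⟩ := h.mem.1 (hN2.le hz)
    exact (h.mem_iff hl hM h1 hx').2 ((h.mem_iff hl hN h2 hx').1 hz)

end co

private lemma exists_pt (hM : M ∈ lns l L) : ∃ x ∈ M, x ∉ (l : ℂ) • L := by
  have h1 : (l : ℂ) • L < M := hM.1
  exact SetLike.exists_of_lt h1

theorem finite_lns (hL : IsLat L) (hl : l.Prime) : (lns l L).Finite := by
  obtain ⟨w1, w2, h⟩ := exists_co hL
  classical
  -- a choice of a sublattice for every residue class
  have hch : ∀ M ∈ lns l L, ∃ p : Fin l × Fin l,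
      pt w1 w2 (p.1 : ℕ) (p.2 : ℕ) ∈ M ∧ pt w1 w2 (p.1 : ℕ) (p.2 : ℕ) ∉ (l : ℂ) • L := by
    intro M hM
    have hM1 : (l : ℂ) • L < M := hM.1
    have hM2 : M < L := hM.2
    obtain ⟨x, hx, hx'⟩ := exists_pt hM
    obtain ⟨a, b, rfl⟩ := h.mem.1 (hM2.le hx)
    have hl0 : (0 : ℤ) < l := by exact_mod_cast hl.pos
    have ha := Int.emod_nonneg a hl0.ne'
    have hb := Int.emod_nonneg b hl0.ne'
    have ha2 := Int.emod_lt_of_pos a hl0
    have hb2 := Int.emod_lt_of_pos b hl0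
    refine ⟨(⟨(a % l).toNat, by omega⟩, ⟨(b % l).toNat, by omega⟩), ?_⟩
    have e1 : (((a % l).toNat : ℕ) : ℤ) = a % l := Int.toNat_of_nonneg ha
    have e2 : (((b % l).toNat : ℕ) : ℤ) = b % l := Int.toNat_of_nonneg hb
    simp only [e1, e2]
    have d1 : (l : ℤ) ∣ a - a % l := Int.dvd_self_sub_emod
    have d2 : (l : ℤ) ∣ b - b % l := Int.dvd_self_sub_emod
    have hq : pt w1 w2 (a - a % l) (b - b % l) ∈ (l : ℂ) • L := h.mem_l.2 ⟨d1, d2⟩
    have e : pt w1 w2 a b - pt w1 w2 (a % l) (b % l) = pt w1 w2 (a - a % l) (b - b % l) := by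
      simp only [pt, Int.cast_sub]
      ring
    constructor
    · have h3 := M.sub_mem hx (hM1.le hq)
      rw [← e] at h3
      simpa using h3
    · intro h4
      apply hx'
      have h3 := ((l : ℂ) • L).add_mem hq h4
      rw [← e] at h3
      simpa using h3
  have : Nonempty (Fin l × Fin l) := ⟨(⟨0, hl.pos⟩, ⟨0, hl.pos⟩)⟩
  choose! f hf using hch
  refine Set.Finite.of_injOn (f := f) (t := Set.univ) (fun _ _ => Set.mem_univ _) ?_
    Set.finite_univ
  intro M hM N hN e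
  have h1 := hf M hM
  have h2 := hf N hN
  rw [← e] at h2
  exact h.unique hl hM hN h1.2 h1.1 h2.1

theorem lns_unique (hL : IsLat L) (hl : l.Prime) {x : ℂ} (hx : x ∈ L) (hx' : x ∉ (l : ℂ) • L) :
    ∃! M, M ∈ lns l L ∧ x ∈ M := by
  obtain ⟨w1, w2, h⟩ := exists_co hL
  obtain ⟨a, b, rfl⟩ := h.mem.1 hx
  have h1 := hx'
  rw [h.mem_l] at h1
  obtain ⟨M, hM, hxM⟩ := h.exists hl h1
  refine ⟨M, ⟨hM, hxM⟩, ?_⟩
  rintro N ⟨hN, hxN⟩
  exact h.unique hl hN hM hx' hxN hxM

theorem lns_repr (hL : IsLat L) (hl : l.Prime) (hM : M ∈ lns l L) {x y : ℂ} (hx : x ∈ M)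
    (hx' : x ∉ (l : ℂ) • L) (hy : y ∈ M) : ∃ k : ℤ, y - k * x ∈ (l : ℂ) • L := by
  obtain ⟨w1, w2, h⟩ := exists_co hL
  exact h.repr hl hM hx hx' hy

theorem hasArea_line {A : ℝ} (hA : HasArea L A) (hl : l.Prime) (hM : M ∈ lns l L) :
    HasArea M (l * A) := by
  obtain ⟨hA0, w1, w2, hw, hA2⟩ := hA
  have h : Co L w1 w2 := ⟨by
    intro h0
    rw [h0, abs_zero] at hA2
    exact hA0.ne' hA2, hw⟩
  have hl0 : (0 : ℝ) < l := by exact_mod_cast hl.pos
  have hM2 : M < L := hM.2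
  obtain ⟨x, hx, hx'⟩ := exists_pt hM
  obtain ⟨a, b, rfl⟩ := h.mem.1 (hM2.le hx)
  rw [h.mem_l] at hx'
  have hp := Nat.prime_iff_prime_int.1 hl
  refine ⟨by positivity, ?_⟩
  by_cases ha : (l : ℤ) ∣ a
  · have hb : ¬ (l : ℤ) ∣ b := fun hb => hx' ⟨ha, hb⟩
    refine ⟨l * w1, w2, ?_, ?_⟩
    · ext z
      rw [Submodule.mem_span_pair]
      constructor
      · intro hz
        obtain ⟨c, d, rfl⟩ := h.mem.1 (hM2.le hz)
        have h1 := (h.mem_iff hl hM hx hx').1 hz
        have h2 : (l : ℤ) ∣ b * c := by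
          have := dvd_sub (Dvd.dvd.mul_right ha d) h1
          simpa using this
        obtain ⟨c', rfl⟩ := (hp.dvd_mul.1 h2).resolve_left hb
        refine ⟨c', d, ?_⟩
        simp only [pt, zsmul_eq_mul]
        push_cast
        ring
      · rintro ⟨c, d, rfl⟩
        have e : c • ((l : ℂ) * w1) + d • w2 = pt w1 w2 (l * c) d := by
          simp only [pt, zsmul_eq_mul]
          push_cast
          ring
        rw [e, h.mem_iff hl hM hx hx']
        exact dvd_sub (Dvd.dvd.mul_right ha d) ⟨b * c, by ring⟩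
    · have e : ((starRingEnd ℂ) ((l : ℂ) * w1) * w2).im = l * ((starRingEnd ℂ) w1 * w2).im := by
        simp only [Complex.mul_im, Complex.mul_re, Complex.conj_re, Complex.conj_im,
          Complex.natCast_re, Complex.natCast_im]
        ring
      rw [e, hA2, abs_mul, abs_of_pos hl0]
  · obtain ⟨u, v, huv⟩ := (hp.coprime_iff_not_dvd).2 ha
    -- b = (b v) a mod l
    refine ⟨w1 + ((b * v : ℤ) : ℂ) * w2, l * w2, ?_, ?_⟩
    · ext z
      rw [Submodule.mem_span_pair]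
      constructor
      · intro hz
        obtain ⟨c, d, rfl⟩ := h.mem.1 (hM2.le hz)
        have h1 := (h.mem_iff hl hM hx hx').1 hz
        have h2 : (l : ℤ) ∣ a * (d - b * v * c) := by
          obtain ⟨w, hw'⟩ := h1
          refine ⟨w + b * c * u, ?_⟩
          linear_combination hw' - b * c * huv
        obtain ⟨t, ht⟩ := (hp.dvd_mul.1 h2).resolve_left ha
        refine ⟨c, t, ?_⟩
        have hd : d = l * t + b * v * c := by linarith
        rw [hd]
        simp only [pt, zsmul_eq_mul]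
        push_cast
        ring
      · rintro ⟨c, t, rfl⟩
        have e : c • (w1 + ((b * v : ℤ) : ℂ) * w2) + t • ((l : ℂ) * w2) =
            pt w1 w2 c (l * t + b * v * c) := by
          simp only [pt, zsmul_eq_mul]
          push_cast
          ring
        rw [e, h.mem_iff hl hM hx hx']
        refine ⟨a * t - b * c * u, ?_⟩
        linear_combination b * c * huv
    · have e : ((starRingEnd ℂ) (w1 + ((b * v : ℤ) : ℂ) * w2) * (l * w2)).im =
          l * ((starRingEnd ℂ) w1 * w2).im := by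
        simp only [Complex.mul_im, Complex.mul_re, Complex.add_re, Complex.add_im,
          Complex.conj_re, Complex.conj_im, Complex.natCast_re, Complex.natCast_im,
          Complex.intCast_re, Complex.intCast_im]
        ring
      rw [e, hA2, abs_mul, abs_of_pos hl0]

theorem sum_lines (hL : IsLat L) (hl : l.Prime) (g0 : ∀ x ∈ (l : ℂ) • L, g x = 0)
    (hG : ∀ M ∈ lns l L, ∀ x ∈ M, x ∉ (l : ℂ) • L → G M = g x)
    (hg : ∀ x ∈ L, |g x| ≤ 1) (hsum : ∑ᶠ M ∈ lns l L, G M = 0) {t : ℝ} (ht : 1 < t) :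
    ∑ᶠ M ∈ lns l L, (G M : ℝ) * zl M t = ∑' x : L, (g x : ℝ) * ‖(x : ℂ)‖ ^ (-(2 * t)) := by
  have hfin := finite_lns hL hl
  rw [finsum_mem_eq_finite_toFinset_sum _ hfin] at hsum ⊢
  obtain ⟨A, hA⟩ := exists_hasArea hL
  set f : ℂ → ℝ := fun z => ‖z‖ ^ (-(2 * t)) with hf
  have hs : ∀ M ∈ hfin.toFinset, Summable fun z : ℂ => (G M : ℝ) * (M : Set ℂ).indicator f z := by
    intro M hM
    rw [Set.Finite.mem_toFinset] at hM
    refine Summable.mul_left _ ?_
    have h1 := summable_zl (hasArea_line hA hl hM).isLat ht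
    exact summable_subtype_iff_indicator.1 h1
  have h2 : ∑ M ∈ hfin.toFinset, (G M : ℝ) * zl M t =
      ∑ M ∈ hfin.toFinset, ∑' z : ℂ, (G M : ℝ) * (M : Set ℂ).indicator f z := by
    refine Finset.sum_congr rfl fun M _ => ?_
    rw [tsum_mul_left]
    congr 1
    exact tsum_subtype (M : Set ℂ) f
  have h3 : ∑' x : L, (g x : ℝ) * ‖(x : ℂ)‖ ^ (-(2 * t)) =
      ∑' z : ℂ, (L : Set ℂ).indicator (fun z => (g z : ℝ) * f z) z :=
    tsum_subtype (L : Set ℂ) (fun z => (g z : ℝ) * f z)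
  rw [h2, h3, ← Summable.tsum_finsetSum hs]
  refine tsum_congr fun z => ?_
  by_cases hz : z ∈ L
  · rw [Set.indicator_of_mem (show z ∈ (L : Set ℂ) from hz)]
    by_cases hz' : z ∈ (l : ℂ) • L
    · rw [g0 z hz', Int.cast_zero, zero_mul]
      have h4 : ∀ M ∈ hfin.toFinset, (G M : ℝ) * (M : Set ℂ).indicator f z = (G M : ℝ) * f z := by
        intro M hM
        rw [Set.Finite.mem_toFinset] at hM
        have h5 : (l : ℂ) • L < M := hM.1
        rw [Set.indicator_of_mem (show z ∈ (M : Set ℂ) from h5.le hz')]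
      rw [Finset.sum_congr rfl h4, ← Finset.sum_mul]
      have h6 : (∑ M ∈ hfin.toFinset, (G M : ℝ)) = 0 := by
        rw [← Int.cast_sum, hsum, Int.cast_zero]
      rw [h6, zero_mul]
    · obtain ⟨M0, ⟨hM0, hzM0⟩, huniq⟩ := lns_unique hL hl hz hz'
      rw [Finset.sum_eq_single M0]
      · rw [Set.indicator_of_mem (show z ∈ (M0 : Set ℂ) from hzM0), hG M0 hM0 z hzM0 hz']
      · intro M hM hne
        rw [Set.Finite.mem_toFinset] at hM
        rw [Set.indicator_of_notMem, mul_zero]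
        intro h4
        exact hne (huniq M ⟨hM, h4⟩)
      · intro h4
        exact absurd ((Set.Finite.mem_toFinset hfin).2 hM0) h4
  · rw [Set.indicator_of_notMem (show z ∉ (L : Set ℂ) from hz)]
    refine Finset.sum_eq_zero fun M hM => ?_
    rw [Set.Finite.mem_toFinset] at hM
    have h5 : M < L := hM.2
    rw [Set.indicator_of_notMem, mul_zero]
    intro h4
    exact hz (h5.le h4)

theorem sum_lines_zero (hL : IsLat L) (hl : l.Prime) {α : ℂ} (hα : ∀ x ∈ L, α * x ∈ L)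
    (hα' : ∀ x ∈ L, α * x ∈ (l : ℂ) • L → x ∈ (l : ℂ) • L)
    (hG : ∀ M ∈ lns l L, ∀ x ∈ M, x ∉ (l : ℂ) • L → G M = g x)
    (hneg : ∀ x ∈ L, g (α * x) = -g x) : ∑ᶠ M ∈ lns l L, G M = 0 := by
  classical
  have hfin := finite_lns hL hl
  rw [finsum_mem_eq_finite_toFinset_sum _ hfin]
  -- the induced map
  have hch : ∀ M ∈ lns l L, ∃ N, N ∈ lns l L ∧ ∃ x ∈ M, x ∉ (l : ℂ) • L ∧ α * x ∈ N := by
    intro M hM
    have hM2 : M < L := hM.2
    obtain ⟨x, hx, hx'⟩ := exists_pt hM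
    obtain ⟨N, ⟨hN, hxN⟩, -⟩ := lns_unique hL hl (hα x (hM2.le hx))
      (fun h => hx' (hα' x (hM2.le hx) h))
    exact ⟨N, hN, x, hx, hx', hxN⟩
  choose! φ hφ using hch
  have hinj : ∀ M ∈ lns l L, ∀ N ∈ lns l L, φ M = φ N → M = N := by
    intro M hM N hN e
    have hM1 : (l : ℂ) • L < M := hM.1
    have hM2 : M < L := hM.2
    have hN2 : N < L := hN.2
    obtain ⟨h1, x, hx, hx', hx2⟩ := hφ M hM
    obtain ⟨-, y, hy, hy', hy2⟩ := hφ N hN
    rw [← e] at hy2
    obtain ⟨k, hk⟩ := lns_repr hL hl h1 hx2 (fun h => hx' (hα' x (hM2.le hx) h)) hy2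
    have e2 : α * y - k * (α * x) = α * (y - k * x) := by ring
    rw [e2] at hk
    have h3 : y - k * x ∈ L := by
      have := L.sub_mem (hN2.le hy) (L.smul_mem k (hM2.le hx))
      simpa [zsmul_eq_mul] using this
    have h4 := hM1.le (hα' _ h3 hk)
    have h5 : y ∈ M := by
      have := M.add_mem h4 (M.smul_mem k hx)
      simpa [zsmul_eq_mul] using this
    obtain ⟨M1, -, huniq⟩ := lns_unique hL hl (hN2.le hy) hy'
    rw [huniq M ⟨hM, h5⟩, huniq N ⟨hN, hy⟩]
  have himg : hfin.toFinset.image φ = hfin.toFinset := by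
    apply Finset.eq_of_subset_of_card_le
    · intro N hN
      obtain ⟨M, hM, rfl⟩ := Finset.mem_image.1 hN
      rw [Set.Finite.mem_toFinset] at hM ⊢
      exact (hφ M hM).1
    · rw [Finset.card_image_of_injOn]
      intro M hM N hN e
      exact hinj M ((Set.Finite.mem_toFinset hfin).1 hM) N ((Set.Finite.mem_toFinset hfin).1 hN) e
  have hsum : ∑ M ∈ hfin.toFinset, G M = ∑ M ∈ hfin.toFinset, G (φ M) := by
    conv_lhs => rw [← himg]
    rw [Finset.sum_image]
    intro M hM N hN e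
    exact hinj M ((Set.Finite.mem_toFinset hfin).1 hM) N ((Set.Finite.mem_toFinset hfin).1 hN) e
  have hval : ∀ M ∈ hfin.toFinset, G (φ M) = -G M := by
    intro M hM
    rw [Set.Finite.mem_toFinset] at hM
    have hM2 : M < L := hM.2
    obtain ⟨h1, x, hx, hx', hx2⟩ := hφ M hM
    rw [hG _ h1 _ hx2 (fun h => hx' (hα' x (hM2.le hx) h)), hG M hM x hx hx',
      hneg x (hM2.le hx)]
  rw [Finset.sum_congr rfl hval, Finset.sum_neg_distrib] at hsum
  omega

end Pool.Agent.Work.MP_8efaaa_nt.KL
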