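import Mathlib
import Pool.Agent.Work.MP_8efaaa_nt.T.Quad
import Pool.Agent.Work.MP_8efaaa_nt.KL.QDefs
import Pool.Agent.Work.MP_8efaaa_nt.KL.QNrm

/-!
# KL/QNon (S-M): a norm which is not a square modulo `l`

`nn 1 (algebraMap (a + b s)) = a ^ 2 + d b ^ 2` for integers `a, b` (`nI 1 = 1`, `nn_spec`, `s ^ 2 = -d`). The form `a ^ 2 + d b ^ 2` represents every residue
class modulo the odd prime `l ∤ d` (`FiniteField.exists_root_sum_quadratic`, or `ZMod.exists_sq_add_sq`-like pigeonhole), in particular a nonresidue; lift `a, b` to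
natural numbers. `jacobiSym` at a prime is `legendreSym` (`jacobiSym.legendreSym.to_jacobiSym`).
-/

set_option autoImplicit false

namespace Pool.Agent.Work.MP_8efaaa_nt.KL

open Pool.Agent.Work.CM Pool.Agent.Work.MP_787500_nt.HC NumberField IsDedekindDomain
open Pool.Agent.Work.MP_8efaaa_nt.T
open scoped Pointwise nonZeroDivisors

variable {K : Type*} [Field K] [NumberField K] [Algebra K ℂ] {d l : ℕ} {s : K}

private theorem exists_nat_nonres {d l : ℕ} (hl : l.Prime) (h2 : l ≠ 2) (hd : ¬ l ∣ d) :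
    ∃ a b : ℕ, jacobiSym ((a ^ 2 + d * b ^ 2 : ℕ) : ℤ) l = -1 := by
  have : Fact l.Prime := ⟨hl⟩
  obtain ⟨n, hn⟩ := FiniteField.exists_nonsquare (F := ZMod l)
    (by rw [ZMod.ringChar_zmod_n]; exact h2)
  have hd0 : (d : ZMod l) ≠ 0 := by
    intro h
    exact hd ((ZMod.natCast_eq_zero_iff _ _).1 h)
  obtain ⟨a, b, hab⟩ := FiniteField.exists_root_sum_quadratic (R := ZMod l)
    (f := Polynomial.X ^ 2) (g := Polynomial.C (d : ZMod l) * Polynomial.X ^ 2 + Polynomial.C 0 * Polynomial.X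
      + Polynomial.C (-n))
    (by rw [Polynomial.degree_X_pow]; rfl)
    (Polynomial.degree_quadratic hd0)
    (by
      rw [ZMod.card]
      exact (hl.eq_two_or_odd.resolve_left h2))
  simp only [Polynomial.eval_add, Polynomial.eval_mul, Polynomial.eval_pow, Polynomial.eval_X,
    Polynomial.eval_C, zero_mul, add_zero] at hab
  refine ⟨a.val, b.val, ?_⟩
  rw [← jacobiSym.legendreSym.to_jacobiSym, legendreSym.eq_neg_one_iff]
  have h : (((a.val ^ 2 + d * b.val ^ 2 : ℕ) : ℤ) : ZMod l) = n := by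
    push_cast
    rw [ZMod.natCast_zmod_val, ZMod.natCast_zmod_val]
    linear_combination hab
  rw [h]
  exact hn

theorem exists_nonres (hb : Base K d s) (hl : l.Prime) (h2 : l ≠ 2) (hd : ¬ l ∣ d) :
    ∃ α ∈ lat (1 : Idl K), jacobiSym (nn (1 : Idl K) α) l = -1 := by
  obtain ⟨a, b, hab⟩ := exists_nat_nonres hl h2 hd
  obtain ⟨hre, him⟩ := Pool.Agent.Work.MP_787500_nt.Quad.emb_re_im hb.sq (Nat.pos_of_ne_zero hb.sf.ne_zero)
    (algebraMap K ℂ)
  have hint : IsIntegral ℤ s := by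
    refine ⟨Polynomial.X ^ 2 + Polynomial.C (d : ℤ), ?_, ?_⟩
    · exact Polynomial.monic_X_pow_add_C _ two_ne_zero
    · simp [hb.sq]
  set x : 𝓞 K := (a : 𝓞 K) + (b : 𝓞 K) * ⟨s, hint⟩ with hx
  have hxs : (x : K) = (a : K) + (b : K) * s := by
    rw [hx]
    push_cast
    rfl
  have hmem : algebraMap K ℂ ((a : K) + (b : K) * s) ∈ lat (1 : Idl K) := by
    rw [mem_lat]
    refine ⟨_, ?_, rfl⟩
    rw [Units.val_one, FractionalIdeal.mem_one_iff]
    exact ⟨x, hxs⟩
  refine ⟨_, hmem, ?_⟩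
  have hn1 : nI (1 : Idl K) = 1 := by
    have h1 := nI_prin hb (1 : Kˣ)
    have h2 : (prin (1 : Kˣ) : Idl K) = 1 := map_one _
    rw [h2] at h1
    rw [h1]
    simp
  have hnn : (nn (1 : Idl K) (algebraMap K ℂ ((a : K) + (b : K) * s)) : ℝ) =
      ((a ^ 2 + d * b ^ 2 : ℕ) : ℝ) := by
    rw [nn_spec hb hmem, hn1, div_one, ← Complex.normSq_eq_norm_sq, Complex.normSq_apply]
    simp only [map_add, map_mul, map_natCast, Complex.add_re, Complex.add_im, Complex.mul_re,
      Complex.mul_im, Complex.natCast_re, Complex.natCast_im, hre]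
    push_cast
    linear_combination (b : ℝ) ^ 2 * him
  have hnn' : nn (1 : Idl K) (algebraMap K ℂ ((a : K) + (b : K) * s)) = a ^ 2 + d * b ^ 2 := by
    exact_mod_cast hnn
  rw [hnn']
  exact hab

end Pool.Agent.Work.MP_8efaaa_nt.KL
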