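import Mathlib
import Pool.Agent.Work.MP_8efaaa_nt.KL.QDefs
import Pool.Agent.Work.MP_8efaaa_nt.KL.QNrm
import Pool.Agent.Work.MP_8efaaa_nt.KL.QLin
import Pool.Agent.Work.MP_8efaaa_nt.KL.QNon

/-!
# KL/QPsi (M): the character `psi`

`psi_eq`: for `M ∈ lns l (lat I)` the set `{x ∈ M, x ∉ l lat I}` is not empty (`Classical.epsilon_spec`), and for two of its elements `x`, `y`: `y = k x + l z`
with `k : ℤ` prime to `l`, `z ∈ lat I` (`lns_repr`), so `nn I y = k ^ 2 nn I x mod l` (`nn_add_modEq`, `nn_int_mul`), and the symbols are equal (`jacobiSym.mod_left`, the symbol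
of the square `k ^ 2` is 1). `psi_prin`: `M ↦ α M` maps `lns l (lat I)` to `lns l (lat (prin α * I))` (`lat_prin`), and `nn_prin`; for `M` not in `lns`... it is stated
only for `M ∈ lns`. `psi_sum`: `sum_lines_zero` with `α` of `exists_nonres`, `g x = jacobiSym (nn I x) l`, `nn I (α x) = nn 1 α * nn I x` (`nn_mul`); the hypothesis
`hα'`: `α` has norm prime to `l`, and `α' α = nn 1 α` for the complex conjugate `α' ∈ lat 1`, so `α x ∈ l lat I` gives `(nn 1 α) x ∈ l lat I`, `x ∈ l lat I` by Bezout.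
`psi_zeta`: `sum_lines`.
-/

set_option autoImplicit false

namespace Pool.Agent.Work.MP_8efaaa_nt.KL

open Pool.Agent.Work.CM Pool.Agent.Work.MP_787500_nt.HC NumberField IsDedekindDomain
open Pool.Agent.Work.MP_8efaaa_nt.T
open scoped Pointwise nonZeroDivisors

variable {K : Type*} [Field K] [NumberField K] [Algebra K ℂ] {d l : ℕ} {s : K} {I : Idl K}
  {M : Submodule ℤ ℂ}

private theorem ps_nz (hb : Base K d s) (hl : l.Prime) {x : ℂ} (hx : x ∈ lat I) {k : ℤ}
    (hk : (k : ℂ) * x ∉ (l : ℂ) • lat I) : k.gcd l = 1 := by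
  have h1 : ¬ (l : ℤ) ∣ k := by
    rintro ⟨m, rfl⟩
    apply hk
    rw [Submodule.mem_smul_pointwise_iff_exists]
    refine ⟨m • x, (lat I).smul_mem m hx, ?_⟩
    rw [smul_eq_mul, zsmul_eq_mul]
    push_cast
    ring
  rw [Int.gcd_comm]
  exact Int.isCoprime_iff_gcd_eq_one.1 ((Nat.prime_iff_prime_int.1 hl).coprime_iff_not_dvd.2 h1)

private theorem ps_jac_sq {k : ℤ} (hk : k.gcd l = 1) (m : ℕ) :
    jacobiSym ((k.natAbs ^ 2 * m : ℕ) : ℤ) l = jacobiSym m l := by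
  push_cast
  rw [jacobiSym.mul_left, sq_abs, jacobiSym.sq_one' hk, one_mul]

private theorem ps_mod {m n : ℕ} (h : m ≡ n [MOD l]) : jacobiSym m l = jacobiSym n l := by
  apply jacobiSym.mod_left'
  exact_mod_cast h

theorem psi_eq (hb : Base K d s) (hl : l.Prime) (hM : M ∈ lns l (lat I)) {x : ℂ} (hx : x ∈ M)
    (hx' : x ∉ (l : ℂ) • lat I) : psi l I M = jacobiSym (nn I x) l := by
  have hspec := Classical.epsilon_spec
    (p := fun x => x ∈ M ∧ x ∉ (l : ℂ) • lat I) ⟨x, hx, hx'⟩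
  unfold psi
  generalize Classical.epsilon (fun x => x ∈ M ∧ x ∉ (l : ℂ) • lat I) = y at hspec
  obtain ⟨hy, hy'⟩ := hspec
  obtain ⟨k, hk⟩ := lns_repr (isLat_lat hb I) hl hM hx hx' hy
  rw [Submodule.mem_smul_pointwise_iff_exists] at hk
  obtain ⟨z, hz, hz2⟩ := hk
  have hxI : x ∈ lat I := hM.2.le hx
  have hkI : (k : ℂ) * x ∈ lat I := by
    rw [← zsmul_eq_mul]
    exact (lat I).smul_mem k hxI
  have e : y = (k : ℂ) * x + l * z := by
    rw [smul_eq_mul] at hz2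
    rw [hz2]
    ring
  have hk2 : (k : ℂ) * x ∉ (l : ℂ) • lat I := by
    intro h0
    apply hy'
    rw [e]
    exact add_mem h0 (Submodule.smul_mem_pointwise_smul z _ _ hz)
  rw [e, ps_mod (nn_add_modEq hb hkI hz), nn_int_mul hb hxI, ps_jac_sq (ps_nz hb hl hxI hk2)]

private theorem ps_smul_le {a : ℂ} (ha : a ≠ 0) {A B : Submodule ℤ ℂ} :
    a • A ≤ a • B ↔ A ≤ B := by
  constructor
  · intro h x hx
    have h1 := h (Submodule.smul_mem_pointwise_smul x a A hx)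
    rw [Submodule.mem_smul_pointwise_iff_exists] at h1
    obtain ⟨y, hy, hy2⟩ := h1
    rw [smul_eq_mul, smul_eq_mul] at hy2
    rwa [← mul_left_cancel₀ ha hy2]
  · intro h x hx
    rw [Submodule.mem_smul_pointwise_iff_exists] at hx ⊢
    obtain ⟨y, hy, rfl⟩ := hx
    exact ⟨y, h hy, rfl⟩

private theorem ps_smul_lt {a : ℂ} (ha : a ≠ 0) {A B : Submodule ℤ ℂ} :
    a • A < a • B ↔ A < B := by
  rw [lt_iff_le_not_ge, lt_iff_le_not_ge, ps_smul_le ha, ps_smul_le ha]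

private theorem ps_ne (α : Kˣ) : algebraMap K ℂ (α : K) ≠ 0 := (map_ne_zero _).2 α.ne_zero

theorem lns_prin (α : Kˣ) (I : Idl K) (M : Submodule ℤ ℂ) :
    algebraMap K ℂ (α : K) • M ∈ lns l (lat (prin α * I)) ↔ M ∈ lns l (lat I) := by
  unfold lns
  rw [Set.mem_ofPred_eq, Set.mem_ofPred_eq, lat_prin, smul_comm, ps_smul_lt (ps_ne α),
    ps_smul_lt (ps_ne α)]

theorem psi_prin (hb : Base K d s) (hl : l.Prime) (α : Kˣ) (hM : M ∈ lns l (lat I)) :
    psi l (prin α * I) (algebraMap K ℂ (α : K) • M) = psi l I M := by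
  obtain ⟨x, hx, hx'⟩ := SetLike.exists_of_lt hM.1
  rw [psi_eq hb hl hM hx hx', psi_eq hb hl ((lns_prin α I M).2 hM)
    (Submodule.smul_mem_pointwise_smul x _ M hx), smul_eq_mul, nn_prin hb]
  intro h
  rw [lat_prin, smul_comm, Submodule.mem_smul_pointwise_iff_exists] at h
  obtain ⟨y, hy, hy2⟩ := h
  rw [smul_eq_mul, smul_eq_mul] at hy2
  exact hx' (mul_left_cancel₀ (ps_ne α) hy2 ▸ hy)

private theorem ps_nI_one (hb : Base K d s) : nI (1 : Idl K) = 1 := by
  have h1 := nI_mul (1 : Idl K) 1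
  rw [mul_one] at h1
  have h2 := nI_pos (1 : Idl K)
  exact (mul_left_cancel₀ h2.ne' (by rw [mul_one]; exact h1)).symm

/-- The complex conjugate of an integer. -/
private theorem ps_conj (hb : Base K d s) {α : ℂ} (hα : α ∈ lat (1 : Idl K)) :
    ∃ β ∈ lat (1 : Idl K), β * α = (nn (1 : Idl K) α : ℂ) := by
  obtain ⟨W, k, hW1, -, hW3⟩ := Qd.exists_W hb.dim hb.sq hb.sf hb.mod
  obtain ⟨x, hx1, rfl⟩ := hα
  rw [Units.val_one, FractionalIdeal.mem_one_iff] at hx1
  obtain ⟨y, rfl⟩ := hx1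
  obtain ⟨a, b, rfl⟩ := hW3 y
  set w : ℂ := algebraMap K ℂ (algebraMap (𝓞 K) K W) with hw
  have e1 : 2 * w = 1 + algebraMap K ℂ s := by
    have := congrArg (algebraMap K ℂ) hW1
    rw [map_mul, map_add, map_one, map_ofNat] at this
    exact this
  have e2 : (algebraMap K ℂ s) ^ 2 = -(d : ℂ) := by
    rw [← map_pow, hb.sq, map_neg, map_natCast]
  have e3 : (starRingEnd ℂ) (algebraMap K ℂ s) = -(algebraMap K ℂ s) := by
    have h1 : ((starRingEnd ℂ) (algebraMap K ℂ s)) ^ 2 = (algebraMap K ℂ s) ^ 2 := by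
      rw [← map_pow, e2, map_neg, map_natCast]
    rcases sq_eq_sq_iff_eq_or_eq_neg.1 h1 with h2 | h2
    · exfalso
      obtain ⟨r, hr⟩ := Complex.conj_eq_iff_real.1 h2
      rw [hr] at e2
      have e4 : r ^ 2 = -(d : ℝ) := by exact_mod_cast e2
      have h3 : (0 : ℝ) < d := by
        have : d ≠ 0 := hb.sf.ne_zero
        positivity
      nlinarith [sq_nonneg r]
    · exact h2
  have e5 : (starRingEnd ℂ) w = 1 - w := by
    have h1 : (starRingEnd ℂ) (2 * w) = 2 * (1 - w) := by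
      rw [e1, map_add, map_one, e3]
      linear_combination e1
    rw [map_mul, map_ofNat] at h1
    exact mul_left_cancel₀ two_ne_zero h1
  have e6 : algebraMap K ℂ (algebraMap (𝓞 K) K ((a : 𝓞 K) + b * W)) = a + b * w := by
    rw [map_add, map_mul, map_intCast, map_intCast, map_add, map_mul, map_intCast, map_intCast]
  refine ⟨(a : ℂ) + b * (1 - w), ?_, ?_⟩
  · refine ⟨algebraMap (𝓞 K) K ((a : 𝓞 K) + b * (1 - W)), ?_, ?_⟩
    · rw [Units.val_one, FractionalIdeal.mem_one_iff]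
      exact ⟨_, rfl⟩
    · rw [map_add, map_mul, map_sub, map_intCast, map_intCast, map_one, map_add, map_mul, map_sub,
        map_intCast, map_intCast, map_one]
  · rw [e6]
    have hmem : (a : ℂ) + b * w ∈ lat (1 : Idl K) := by
      refine ⟨algebraMap (𝓞 K) K ((a : 𝓞 K) + b * W), ?_, e6⟩
      rw [Units.val_one, FractionalIdeal.mem_one_iff]
      exact ⟨_, rfl⟩
    have h1 := nn_spec hb hmem
    rw [ps_nI_one hb, div_one] at h1
    have h2 : ((nn (1 : Idl K) ((a : ℂ) + b * w) : ℝ) : ℂ) = ((‖(a : ℂ) + b * w‖ ^ 2 : ℝ) : ℂ) := by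
      rw [h1]
    rw [Complex.ofReal_natCast] at h2
    rw [h2, Complex.ofReal_pow, ← Complex.mul_conj', map_add, map_mul, e5, map_intCast,
      map_intCast]
    ring

private theorem ps_hG (hb : Base K d s) (hl : l.Prime) (I : Idl K) :
    ∀ M ∈ lns l (lat I), ∀ x ∈ M, x ∉ (l : ℂ) • lat I → psi l I M = jacobiSym (nn I x) l :=
  fun _ hM _ hx hx' => psi_eq hb hl hM hx hx'

private theorem ps_mul_mem {α x : ℂ} (hα : α ∈ lat (1 : Idl K)) (hx : x ∈ lat I) :
    α * x ∈ lat I := lat_one_mul I (Submodule.mul_mem_mul hα hx)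

theorem psi_sum (hb : Base K d s) (hl : l.Prime) (h2 : l ≠ 2) (hd : ¬ l ∣ d) (I : Idl K) :
    ∑ᶠ M ∈ lns l (lat I), psi l I M = 0 := by
  obtain ⟨α, hα, hα1⟩ := exists_nonres hb hl h2 hd
  refine sum_lines_zero (isLat_lat hb I) hl (α := α) (g := fun x => jacobiSym (nn I x) l)
    (fun x hx => ps_mul_mem hα hx) (fun x hx hx' => ?_) (ps_hG hb hl I) (fun x hx => ?_)
  · obtain ⟨β, hβ, hβα⟩ := ps_conj hb hα
    have h1 : β * (α * x) ∈ (l : ℂ) • lat I := by
      rw [Submodule.mem_smul_pointwise_iff_exists] at hx' ⊢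
      obtain ⟨y, hy, hy2⟩ := hx'
      refine ⟨β * y, ps_mul_mem hβ hy, ?_⟩
      rw [smul_eq_mul] at hy2 ⊢
      rw [← hy2]
      ring
    rw [← mul_assoc, hβα] at h1
    have h3 : (l : ℂ) * x ∈ (l : ℂ) • lat I := Submodule.smul_mem_pointwise_smul x _ _ hx
    have h4 : IsCoprime ((nn (1 : Idl K) α : ℕ) : ℤ) (l : ℤ) := by
      rw [Int.isCoprime_iff_gcd_eq_one]
      by_contra hne
      have : NeZero l := ⟨hl.ne_zero⟩
      rw [jacobiSym.eq_zero_iff_not_coprime.2 hne] at hα1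
      norm_num at hα1
    obtain ⟨u, v, huv⟩ := h4
    have h5 : ((u : ℂ) * (nn (1 : Idl K) α : ℂ) + v * l) = 1 := by exact_mod_cast huv
    have h6 := add_mem (((l : ℂ) • lat I).smul_mem u h1) (((l : ℂ) • lat I).smul_mem v h3)
    have e : u • ((nn (1 : Idl K) α : ℂ) * x) + v • ((l : ℂ) * x) = x := by
      rw [zsmul_eq_mul, zsmul_eq_mul]
      linear_combination x * h5
    rwa [e] at h6
  · have h3 := nn_mul hb hα hx
    rw [one_mul] at h3
    rw [h3]
    push_cast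
    rw [jacobiSym.mul_left, hα1]
    ring

theorem psi_zeta (hb : Base K d s) (hl : l.Prime) (h2 : l ≠ 2) (hd : ¬ l ∣ d) (I : Idl K) {t : ℝ}
    (ht : 1 < t) : ∑ᶠ M ∈ lns l (lat I), (psi l I M : ℝ) * zl M t =
      ∑' x : lat I, (jacobiSym (nn I x) l : ℝ) * ‖(x : ℂ)‖ ^ (-(2 * t)) := by
  refine sum_lines (isLat_lat hb I) hl (g := fun x => jacobiSym (nn I x) l) (fun x hx => ?_)
    (ps_hG hb hl I) (fun x _ => ?_) (psi_sum hb hl h2 hd I) ht
  · rw [Submodule.mem_smul_pointwise_iff_exists] at hx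
    obtain ⟨y, hy, rfl⟩ := hx
    have h1 := nn_int_mul hb hy (l : ℤ)
    rw [Int.natAbs_natCast, Int.cast_natCast] at h1
    rw [smul_eq_mul, h1]
    have : NeZero l := ⟨hl.ne_zero⟩
    rw [jacobiSym.eq_zero_iff_not_coprime]
    intro h0
    have h3 : (l : ℤ) ∣ (((l ^ 2 * nn I y : ℕ) : ℤ).gcd (l : ℤ) : ℤ) := by
      apply Int.dvd_coe_gcd _ dvd_rfl
      push_cast
      exact Dvd.intro (l * (nn I y : ℤ)) (by ring)
    rw [h0] at h3
    have h4 : l ∣ 1 := by exact_mod_cast h3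
    exact hl.one_lt.ne' (Nat.dvd_one.1 h4)
  · rcases jacobiSym.trichotomy (nn I x) l with h | h | h
    · rw [h]; norm_num
    · rw [h]; norm_num
    · rw [h]; norm_num

end Pool.Agent.Work.MP_8efaaa_nt.KL
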