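import Mathlib
import Pool.Agent.Work.MP_8efaaa_nt.KL.QDefs

/-!
# KL/QTw (M): a product of two series

For `t > 1` all series converge absolutely (`|jacobiSym| ≤ 1`). The coefficient of `n` in `Lr l t * Lr (l * d) t` is
`∑_{δ ε = n} (δ / l d) (ε / l) = ∑_{δ | n} (δ / d) (n / l)` (`jacobiSym.mul_right`, `jacobiSym.mul_left`). Either by `LSeries` of a
Dirichlet convolution (`LSeries_convolution'`, `ArithmeticFunction.LSeries_mul'`, as in `MP_29211c_nt/Zeta.lean`), or directly: product of two summable families over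
`ℕ × ℕ`, grouped by the value of `m n` (`tsum_mul_tsum_of_summable_norm`, `Nat.divisorsAntidiagonal`, `sigmaAntidiagonalEquivProd`-like; terms with
`n = 0` vanish because `0 ^ (-t) = 0`).
-/

set_option autoImplicit false

namespace Pool.Agent.Work.MP_8efaaa_nt.KL

private theorem term_real {f : ℕ → ℝ} {t : ℝ} (ht : 1 < t) (n : ℕ) :
    LSeries.term (fun n => (f n : ℂ)) (t : ℂ) n = ((f n * (n : ℝ) ^ (-t) : ℝ) : ℂ) := by
  rw [LSeries.term_def]
  split_ifs with h
  · subst h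
    rw [Nat.cast_zero, Real.zero_rpow (by linarith), mul_zero, Complex.ofReal_zero]
  · rw [Complex.ofReal_mul, Real.rpow_neg (Nat.cast_nonneg n), Complex.ofReal_inv,
      Complex.ofReal_cpow (Nat.cast_nonneg n), Complex.ofReal_natCast, div_eq_mul_inv]

private theorem lsum {f : ℕ → ℝ} (hf : ∀ n, |f n| ≤ 1) {t : ℝ} (ht : 1 < t) :
    LSeriesSummable (fun n => (f n : ℂ)) (t : ℂ) := by
  refine LSeriesSummable_of_bounded_of_one_lt_re (m := 1) (fun n _ => ?_) (by simpa using ht)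
  rw [Complex.norm_real, Real.norm_eq_abs]
  exact hf n

private theorem jle (a : ℤ) (b : ℕ) : |(jacobiSym a b : ℝ)| ≤ 1 := by
  rcases jacobiSym.trichotomy a b with h | h | h <;> rw [h] <;> norm_num

private theorem conv {l d : ℕ} (hl : l ≠ 0) (hd : d ≠ 0) (n : ℕ) :
    ∑ p ∈ n.divisorsAntidiagonal, ((jacobiSym p.1 l : ℝ) : ℂ) * ((jacobiSym p.2 (l * d) : ℝ) : ℂ) =
      (((jacobiSym n l : ℝ) * ((∑ δ ∈ n.divisors, jacobiSym δ d : ℤ) : ℝ) : ℝ) : ℂ) := by
  have : NeZero l := ⟨hl⟩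
  have : NeZero d := ⟨hd⟩
  have h1 : ∀ p ∈ n.divisorsAntidiagonal,
      ((jacobiSym p.1 l : ℝ) : ℂ) * ((jacobiSym p.2 (l * d) : ℝ) : ℂ) =
        ((jacobiSym n l : ℝ) : ℂ) * ((jacobiSym p.2 d : ℝ) : ℂ) := by
    intro p hp
    rw [Nat.mem_divisorsAntidiagonal] at hp
    rw [jacobiSym.mul_right, ← hp.1]
    push_cast
    rw [jacobiSym.mul_left]
    push_cast
    ring
  rw [Finset.sum_congr rfl h1, ← Finset.mul_sum,
    Nat.sum_divisorsAntidiagonal' (f := fun _ i => ((jacobiSym i d : ℝ) : ℂ))]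
  push_cast
  rfl

/-- absolute convergence of the series with the number of divisors as coefficients -/
theorem summable_divisors {t : ℝ} (ht : 1 < t) :
    Summable fun n : ℕ => (n.divisors.card : ℝ) * (n : ℝ) ^ (-t) := by
  have h1 : LSeriesSummable (fun n => (((fun _ => 1 : ℕ → ℝ) n : ℝ) : ℂ)) (t : ℂ) :=
    lsum (f := fun _ => 1) (fun n => by norm_num) ht
  have h2 := h1.convolution h1
  have h3 := h2.norm
  refine h3.congr fun n => ?_
  have h4 : (LSeries.convolution (fun n => (((fun _ => 1 : ℕ → ℝ) n : ℝ) : ℂ))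
      (fun n => (((fun _ => 1 : ℕ → ℝ) n : ℝ) : ℂ))) = fun n : ℕ => (((n.divisors.card : ℝ) : ℝ) : ℂ) := by
    funext n
    rw [LSeries.convolution_def]
    simp [Nat.sum_divisorsAntidiagonal (f := fun _ _ => (1 : ℂ))]
  rw [h4, term_real (f := fun n : ℕ => (n.divisors.card : ℝ)) ht, Complex.norm_real, Real.norm_eq_abs,
    abs_of_nonneg (by positivity)]

/-- absolute convergence -/
theorem summable_twist (l d : ℕ) {t : ℝ} (ht : 1 < t) :
    Summable fun n : ℕ =>
      |(jacobiSym n l : ℝ) * ((∑ δ ∈ n.divisors, jacobiSym δ d : ℤ) : ℝ) * (n : ℝ) ^ (-t)| := by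
  refine Summable.of_nonneg_of_le (fun n => abs_nonneg _) (fun n => ?_) (summable_divisors ht)
  rw [abs_mul, abs_mul, abs_of_nonneg (Real.rpow_nonneg (Nat.cast_nonneg n) (-t))]
  refine mul_le_mul_of_nonneg_right ?_ (Real.rpow_nonneg (Nat.cast_nonneg n) (-t))
  have h1 : |((∑ δ ∈ n.divisors, jacobiSym δ d : ℤ) : ℝ)| ≤ n.divisors.card := by
    push_cast
    refine (Finset.abs_sum_le_sum_abs _ _).trans ?_
    refine (Finset.sum_le_sum (fun (δ : ℕ) _ => jle (δ : ℤ) d)).trans ?_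
    simp
  calc |(jacobiSym n l : ℝ)| * |((∑ δ ∈ n.divisors, jacobiSym δ d : ℤ) : ℝ)| ≤
      1 * n.divisors.card := mul_le_mul (jle n l) h1 (abs_nonneg _) (by norm_num)
    _ = _ := one_mul _

theorem tsum_twist {l d : ℕ} (hl : l ≠ 0) (hd : d ≠ 0) {t : ℝ} (ht : 1 < t) :
    ∑' n : ℕ, (jacobiSym n l : ℝ) * ((∑ δ ∈ n.divisors, jacobiSym δ d : ℤ) : ℝ) * (n : ℝ) ^ (-t) =
      Lr l t * Lr (l * d) t := by
  have h1 := LSeries_convolution' (lsum (f := fun n => (jacobiSym n l : ℝ)) (fun n => jle n l) ht)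
    (lsum (f := fun n => (jacobiSym n (l * d) : ℝ)) (fun n => jle n (l * d)) ht)
  have h2 : LSeries.convolution (fun n => ((jacobiSym n l : ℝ) : ℂ))
      (fun n => ((jacobiSym n (l * d) : ℝ) : ℂ)) = fun n : ℕ =>
        (((jacobiSym n l : ℝ) * ((∑ δ ∈ n.divisors, jacobiSym δ d : ℤ) : ℝ) : ℝ) : ℂ) := by
    funext n
    rw [LSeries.convolution_def]
    exact conv hl hd n
  rw [h2] at h1
  unfold LSeries at h1
  simp only [term_real (f := fun n : ℕ => (jacobiSym n l : ℝ) * ((∑ δ ∈ n.divisors, jacobiSym δ d : ℤ) : ℝ)) ht,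
    term_real (f := fun n : ℕ => (jacobiSym n l : ℝ)) ht,
    term_real (f := fun n : ℕ => (jacobiSym n (l * d) : ℝ)) ht, ← Complex.ofReal_tsum, ← Complex.ofReal_mul] at h1
  exact Complex.ofReal_injective h1

end Pool.Agent.Work.MP_8efaaa_nt.KL
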