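import Mathlib
import Pool.Agent.Work.CM.Tw5
import Pool.Agent.Work.MP_8efaaa_nt.T.LatD
import Pool.Agent.Work.MP_8efaaa_nt.KL.QDefs
import Pool.Agent.Work.MP_8efaaa_nt.KL.QNrm
import Pool.Agent.Work.MP_8efaaa_nt.KL.QLin
import Pool.Agent.Work.MP_8efaaa_nt.KL.QPsi

/-!
# KL/QUp (M): the superlattices of index two

`J = (pr v)⁻¹ * I`, `lat I ≤ lat J` of index two (`two_lat`), `2 • lat J ≤ lat I`; `up v I M = {x ∈ lat J : 2 x ∈ M}`. `l` is odd, so `lat I ∩ l lat J = l lat I`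
(`x = l y`, `y ∈ lat J`: `l y ∈ lat I` and `2 y ∈ lat I` give `y ∈ lat I`) and `lat J = lat I + l lat J` (`x = -((l - 1) / 2) (2 x) + l x`). Hence
`M ↦ up v I M = M + l lat J` is a bijection from the sublattices between `l lat I` and `lat I` to those between `l lat J` and `lat J`, with inverse `M' ↦ M' ∩ lat I`.
`up_two`: `M` has index two in `M + l lat J` (an element is `l u`, `u ∈ lat J`, `u ∉ lat I`). `up_ne`: `up v I M ∩ lat.. `: if `up v I M = up v' I M` then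
`lat ((pr v)⁻¹ I) = lat I + up v I M` would be equal to `lat ((pr v')⁻¹ I)`, against `lat_pr_ne`. `psi_up`: for `x ∈ M`, `x ∉ l lat I` (then `x ∉ l lat J`):
`nn J x = 2 nn I x` (`nn_up`), `jacobiSym 2 l = -1` for `l = 3 mod 8` (`jacobiSym.at_two`, `ZMod.χ₈_nat_eq_if_mod_eight`). `up_smul`: `up` is compatible with scaling (`lat_prin`).
-/

set_option autoImplicit false

namespace Pool.Agent.Work.MP_8efaaa_nt.KL

open Pool.Agent.Work.CM Pool.Agent.Work.MP_787500_nt.HC NumberField IsDedekindDomain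
open Pool.Agent.Work.MP_8efaaa_nt.T
open scoped Pointwise nonZeroDivisors

variable {K : Type*} [Field K] [NumberField K] [Algebra K ℂ] {d l : ℕ} {s : K} {I : Idl K}
  {M : Submodule ℤ ℂ} {v v' : HeightOneSpectrum (𝓞 K)}

private theorem qu_mem_smul {L : Submodule ℤ ℂ} {m z : ℂ} :
    z ∈ m • L ↔ ∃ y ∈ L, m * y = z := by
  rw [Submodule.mem_smul_pointwise_iff_exists]
  rfl

private theorem qu_mem {I : Idl K} {M : Submodule ℤ ℂ} {v : HeightOneSpectrum (𝓞 K)} {x : ℂ} :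
    x ∈ up v I M ↔ 2 * x ∈ M ∧ x ∈ lat ((pr v)⁻¹ * I) := by
  unfold up
  rw [Submodule.mem_inf, mem_half]

/-- If `2 x` and `l x` lie in `N`, `l` odd, then `x` lies in `N`. -/
private theorem qu_odd {N : Submodule ℤ ℂ} {l : ℕ} (hl : l % 2 = 1) {x : ℂ} (h2 : 2 * x ∈ N)
    (h1 : (l : ℂ) * x ∈ N) : x ∈ N := by
  obtain ⟨k, hk⟩ : ∃ k : ℕ, l = 2 * k + 1 := ⟨l / 2, by omega⟩
  have h3 := N.sub_mem h1 (N.smul_mem (k : ℤ) h2)
  have e : (l : ℂ) * x - (k : ℤ) • (2 * x) = x := by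
    rw [hk, zsmul_eq_mul]
    push_cast
    ring
  rwa [e] at h3

private theorem qu_lodd {l : ℕ} (hl : l.Prime) (h2 : l ≠ 2) : l % 2 = 1 :=
  Nat.odd_iff.1 (hl.odd_of_ne_two h2)

private theorem qu_down {L L' : Submodule ℤ ℂ} (T : Two L L') {l : ℕ} (hl : l % 2 = 1) {x : ℂ}
    (hx : x ∈ L') (h : (l : ℂ) * x ∈ L) : x ∈ L := qu_odd hl (T.two_mem hx) h

private theorem qu_smul_le {L L' M : Submodule ℤ ℂ} (T : Two L L') {l : ℕ}
    (hM : M ∈ lns l L) {x : ℂ} (hx : x ∈ L') : 2 * ((l : ℂ) * x) ∈ M := by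
  have h1 : (l : ℂ) * (2 * x) ∈ (l : ℂ) • L := qu_mem_smul.2 ⟨_, T.two_mem hx, rfl⟩
  have h2 := hM.1.le h1
  rwa [mul_left_comm] at h2

private theorem qu_l {l : ℕ} {L' : Submodule ℤ ℂ} {x : ℂ} (hx : x ∈ L') : (l : ℂ) * x ∈ L' := by
  have := L'.smul_mem (l : ℤ) hx
  rw [zsmul_eq_mul] at this
  simpa using this

private theorem qu_up_inf (hb : Base K d s) (hv : (2 : 𝓞 K) ∈ v.asIdeal) (hl : l % 2 = 1)
    (hM : M ∈ lns l (lat I)) {x : ℂ} (hx : x ∈ up v I M) (hx' : x ∈ lat I) : x ∈ M := by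
  refine qu_odd hl (qu_mem.1 hx).1 (hM.1.le (qu_mem_smul.2 ⟨x, hx', rfl⟩))

private theorem qu_le_up (hb : Base K d s) (hv : (2 : 𝓞 K) ∈ v.asIdeal)
    (hM : M ∈ lns l (lat I)) {x : ℂ} (hx : x ∈ M) : x ∈ up v I M := by
  refine qu_mem.2 ⟨?_, (two_lat hb hv I).le (hM.2.le hx)⟩
  rw [two_mul]
  exact M.add_mem hx hx

private theorem qu_l_mem_up (hb : Base K d s) (hv : (2 : 𝓞 K) ∈ v.asIdeal)
    (hM : M ∈ lns l (lat I)) {x : ℂ} (hx : x ∈ lat ((pr v)⁻¹ * I)) : (l : ℂ) * x ∈ up v I M :=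
  qu_mem.2 ⟨qu_smul_le (two_lat hb hv I) hM hx, qu_l hx⟩

theorem up_two (hb : Base K d s) (hv : (2 : 𝓞 K) ∈ v.asIdeal) (hl : l.Prime) (h2 : l ≠ 2)
    (hM : M ∈ lns l (lat I)) : Two M (up v I M) := by
  have T := two_lat hb hv I
  have hodd := qu_lodd hl h2
  have hl0 : (l : ℂ) ≠ 0 := by exact_mod_cast hl.ne_zero
  obtain ⟨u0, hu0, hu0', -⟩ := T.ex
  have hu : (l : ℂ) * u0 ∉ lat I := fun h => hu0' (qu_down T hodd hu0 h)
  refine ⟨isLat_of_sandwich (m := (l : ℂ)) T.lat T.lat hl0 hM.1.le hM.2.le,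
    isLat_of_sandwich (m := (l : ℂ)) T.lat' T.lat' hl0 ?_ (fun x hx => (qu_mem.1 hx).2),
    fun x hx => qu_le_up hb hv hM hx, (l : ℂ) * u0, qu_l_mem_up hb hv hM hu0,
    fun h => hu (hM.2.le h), ?_⟩
  · intro x hx
    obtain ⟨y, hy, rfl⟩ := qu_mem_smul.1 hx
    exact qu_l_mem_up hb hv hM hy
  · intro z hz
    by_cases hzL : z ∈ lat I
    · exact Or.inl (qu_up_inf hb hv hodd hM hz hzL)
    · right
      refine qu_up_inf hb hv hodd hM ((up v I M).sub_mem hz (qu_l_mem_up hb hv hM hu0)) ?_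
      exact T.sub_mem (qu_mem.1 hz).2 hzL (qu_l hu0) hu

theorem up_ne (hb : Base K d s) (hne : v ≠ v') (hv : (2 : 𝓞 K) ∈ v.asIdeal)
    (hv' : (2 : 𝓞 K) ∈ v'.asIdeal) (hl : l.Prime) (h2 : l ≠ 2) (hM : M ∈ lns l (lat I)) :
    up v I M ≠ up v' I M := by
  intro h
  have T := two_lat hb hv I
  have T' := two_lat hb hv' I
  obtain ⟨u0, hu0, hu0', -⟩ := T.ex
  have hu : (l : ℂ) * u0 ∉ lat I := fun h => hu0' (qu_down T (qu_lodd hl h2) hu0 h)
  have h1 : (l : ℂ) * u0 ∈ up v I M := qu_l_mem_up hb hv hM hu0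
  have h3 : (l : ℂ) * u0 ∈ lat ((pr v')⁻¹ * I) := by
    rw [h] at h1
    exact (qu_mem.1 h1).2
  exact lat_pr_ne hne I (T.eq_of_mem T' (qu_l hu0) h3 hu)

theorem up_bij (hb : Base K d s) (hv : (2 : 𝓞 K) ∈ v.asIdeal) (hl : l.Prime) (h2 : l ≠ 2)
    (I : Idl K) : Set.BijOn (up v I) (lns l (lat I)) (lns l (lat ((pr v)⁻¹ * I))) := by
  have T := two_lat hb hv I
  have hodd := qu_lodd hl h2
  refine ⟨fun M hM => ?_, fun M hM M' hM' he => ?_, fun M' hM' => ?_⟩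
  · constructor
    · refine lt_of_le_of_ne (fun x hx => ?_) (fun he => ?_)
      · obtain ⟨y, hy, rfl⟩ := qu_mem_smul.1 hx
        exact qu_l_mem_up hb hv hM hy
      · obtain ⟨x, hx, hx'⟩ := SetLike.exists_of_lt hM.1
        have h1 := qu_le_up hb hv hM hx
        rw [← he] at h1
        obtain ⟨y, hy, rfl⟩ := qu_mem_smul.1 h1
        exact hx' (qu_mem_smul.2 ⟨y, qu_down T hodd hy (hM.2.le hx), rfl⟩)
    · refine lt_of_le_of_ne (fun x hx => (qu_mem.1 hx).2) (fun he => ?_)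
      obtain ⟨x, hx, hx'⟩ := SetLike.exists_of_lt hM.2
      have h1 : x ∈ up v I M := by
        rw [he]
        exact T.le hx
      exact hx' (qu_up_inf hb hv hodd hM h1 hx)
  · apply le_antisymm
    · intro x hx
      have h1 := qu_le_up hb hv hM hx
      have he' : up v I M = up v I M' := he
      rw [he'] at h1
      exact qu_up_inf hb hv hodd hM' h1 (hM.2.le hx)
    · intro x hx
      have h1 := qu_le_up hb hv hM' hx
      have he' : up v I M = up v I M' := he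
      rw [← he'] at h1
      exact qu_up_inf hb hv hodd hM h1 (hM'.2.le hx)
  · have hlL : ∀ x ∈ lat ((pr v)⁻¹ * I), (l : ℂ) * x ∈ M' := fun x hx =>
      hM'.1.le (qu_mem_smul.2 ⟨x, hx, rfl⟩)
    have hmem : M' ⊓ lat I ∈ lns l (lat I) := by
      constructor
      · refine lt_of_le_of_ne (fun x hx => ?_) (fun he => ?_)
        · obtain ⟨y, hy, rfl⟩ := qu_mem_smul.1 hx
          exact ⟨hlL y (T.le hy), qu_l hy⟩
        · obtain ⟨x, hx, hx'⟩ := SetLike.exists_of_lt hM'.1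
          have h1 : 2 * x ∈ M' ⊓ lat I := by
            refine ⟨?_, T.two_mem (hM'.2.le hx)⟩
            rw [two_mul]
            exact M'.add_mem hx hx
          rw [← he] at h1
          obtain ⟨y, hy, hy2⟩ := qu_mem_smul.1 h1
          apply hx'
          obtain ⟨k, hk⟩ : ∃ k : ℕ, l = 2 * k + 1 := ⟨l / 2, by omega⟩
          refine qu_mem_smul.2 ⟨x - (k : ℤ) • y, (lat ((pr v)⁻¹ * I)).sub_mem (hM'.2.le hx)
            ((lat ((pr v)⁻¹ * I)).smul_mem _ (T.le hy)), ?_⟩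
          rw [zsmul_eq_mul, mul_sub]
          have e : (l : ℂ) * (((k : ℤ) : ℂ) * y) = (k : ℂ) * (2 * x) := by
            rw [← hy2]
            push_cast
            ring
          rw [e, hk]
          push_cast
          ring
      · refine lt_of_le_of_ne inf_le_right (fun he => ?_)
        obtain ⟨x, hx, hx'⟩ := SetLike.exists_of_lt hM'.2
        have h1 : 2 * x ∈ M' ⊓ lat I := by
          rw [he]
          exact T.two_mem hx
        exact hx' (qu_odd hodd h1.1 (hlL x hx))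
    refine ⟨M' ⊓ lat I, hmem, ?_⟩
    ext x
    rw [qu_mem]
    constructor
    · rintro ⟨h1, h3⟩
      exact qu_odd hodd h1.1 (hlL x h3)
    · intro hx
      refine ⟨⟨?_, T.two_mem (hM'.2.le hx)⟩, hM'.2.le hx⟩
      rw [two_mul]
      exact M'.add_mem hx hx

theorem psi_up (hb : Base K d s) (hv : (2 : 𝓞 K) ∈ v.asIdeal) (hl : l.Prime) (h8 : l % 8 = 3)
    (hM : M ∈ lns l (lat I)) : psi l ((pr v)⁻¹ * I) (up v I M) = -psi l I M := by
  have T := two_lat hb hv I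
  have h2 : l ≠ 2 := by
    rintro rfl
    omega
  have hodd := qu_lodd hl h2
  obtain ⟨x, hx, hx'⟩ := SetLike.exists_of_lt hM.1
  have hx2 : x ∉ (l : ℂ) • lat ((pr v)⁻¹ * I) := by
    intro h
    obtain ⟨y, hy, rfl⟩ := qu_mem_smul.1 h
    exact hx' (qu_mem_smul.2 ⟨y, qu_down T hodd hy (hM.2.le hx), rfl⟩)
  rw [psi_eq hb hl hM hx hx', psi_eq hb hl ((up_bij hb hv hl h2 I).mapsTo hM)
    (qu_le_up hb hv hM hx) hx2, nn_up hb hv (hM.2.le hx)]
  push_cast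
  rw [jacobiSym.mul_left, jacobiSym.at_two (Nat.odd_iff.2 hodd), ZMod.χ₈_nat_eq_if_mod_eight,
    if_neg (by omega), if_neg (by omega)]
  ring

theorem up_smul (α : Kˣ) (I : Idl K) (M : Submodule ℤ ℂ) :
    up v (prin α * I) (algebraMap K ℂ (α : K) • M) = algebraMap K ℂ (α : K) • up v I M := by
  have ha : algebraMap K ℂ (α : K) ≠ 0 := by
    rw [Ne, map_eq_zero]
    exact α.ne_zero
  have hsm : ∀ (N : Submodule ℤ ℂ) (w : ℂ), algebraMap K ℂ (α : K) * w ∈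
      algebraMap K ℂ (α : K) • N ↔ w ∈ N := by
    intro N w
    rw [qu_mem_smul]
    constructor
    · rintro ⟨y, hy, he⟩
      rwa [mul_left_cancel₀ ha he] at hy
    · intro hw
      exact ⟨w, hw, rfl⟩
  ext z
  obtain ⟨w, rfl⟩ : ∃ w, z = algebraMap K ℂ (α : K) * w :=
    ⟨(algebraMap K ℂ (α : K))⁻¹ * z, by rw [mul_inv_cancel_left₀ ha]⟩
  rw [hsm, qu_mem, qu_mem, mul_left_comm (pr v)⁻¹, lat_prin, hsm, mul_left_comm (2 : ℂ), hsm]

end Pool.Agent.Work.MP_8efaaa_nt.KL
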