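import Mathlib
import Pool.Agent.Work.MP_8efaaa_nt.KL.QDefs
import Pool.Agent.Work.MP_8efaaa_nt.KL.QNrm
import Pool.Agent.Work.MP_8efaaa_nt.KL.QCls
import Pool.Agent.Work.MP_8efaaa_nt.KL.QTw
import Pool.Agent.Work.MP_8efaaa_nt.KL.QPsi
import Pool.Agent.Work.MP_8efaaa_nt.KL.QUp

/-!
# KL/QPhi (M): the sum over classes and sublattices

`Ph l I t = nI I ^ t * ∑ᶠ_{M ∈ lns l (lat I)} psi l I M * zl M t`.
`ph_prin`: the bijection `M ↦ α M` (`lns_prin`, `psi_prin`, `zl_smul`, `nI_mul`, `nI_prin`: `(‖α‖ ^ 2) ^ t * ‖α‖ ^ (-(2 t)) = 1`). So `Ph` depends only on the class of `I`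
(`cl I = cl J` iff `J = prin α * I`: see `HC/ClsA.lean`, `ClassGroup.mk_eq_mk_of_coe_ideal`-like).
`ph_up`: the bijection `M ↦ up v I M` (`up_bij`, `psi_up`), and `nI ((pr v)⁻¹ * I) = nI I / 2`.
`sum_ph`: `nI I ^ t * ‖x‖ ^ (-(2 t)) = (nn I x) ^ (-t)` for `x ∈ lat I`, `x ≠ 0` (`nn_spec`), so by `psi_zeta`,
`Ph l I t = ∑' x, f (nn I x)` with `f n = jacobiSym n l * n ^ (-t)`, `f 0 = 0`; then `class_sum` (`summable_divisors`) and `tsum_twist`.
-/

set_option autoImplicit false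

namespace Pool.Agent.Work.MP_8efaaa_nt.KL

open Pool.Agent.Work.CM Pool.Agent.Work.MP_787500_nt.HC NumberField IsDedekindDomain
open Pool.Agent.Work.MP_8efaaa_nt.T
open scoped Pointwise nonZeroDivisors

variable {K : Type*} [Field K] [NumberField K] [Algebra K ℂ] {d l : ℕ} {s : K}

/-- the normalised sum over the sublattices of index `l` -/
noncomputable def Ph (l : ℕ) (I : Idl K) (t : ℝ) : ℝ :=
  nI I ^ t * ∑ᶠ M ∈ lns l (lat I), (psi l I M : ℝ) * zl M t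

theorem ph_prin (hb : Base K d s) (hl : l.Prime) (α : Kˣ) (I : Idl K) (t : ℝ) :
    Ph l (prin α * I) t = Ph l I t := by
  have hα0 : algebraMap K ℂ (α : K) ≠ 0 := by
    rw [Ne, map_eq_zero]
    exact α.ne_zero
  have hbij : Set.BijOn (fun M : Submodule ℤ ℂ => algebraMap K ℂ (α : K) • M) (lns l (lat I))
      (lns l (lat (prin α * I))) := by
    refine ⟨fun M hM => (lns_prin α I M).2 hM, ?_, ?_⟩
    · intro M _ M' _ h
      have h1 := congrArg (fun N : Submodule ℤ ℂ => (algebraMap K ℂ (α : K))⁻¹ • N) h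
      simp only [inv_smul_smul₀ hα0] at h1
      exact h1
    · intro N hN
      refine ⟨(algebraMap K ℂ (α : K))⁻¹ • N, ?_, smul_inv_smul₀ hα0 N⟩
      rw [← lns_prin α I, smul_inv_smul₀ hα0]
      exact hN
  have h1 : ∑ᶠ M ∈ lns l (lat (prin α * I)), (psi l (prin α * I) M : ℝ) * zl M t =
      ‖algebraMap K ℂ (α : K)‖ ^ (-(2 * t)) * ∑ᶠ M ∈ lns l (lat I), (psi l I M : ℝ) * zl M t := by
    rw [mul_finsum_mem]
    refine (finsum_mem_eq_of_bijOn _ hbij fun M hM => ?_).symm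
    rw [psi_prin hb hl α hM, zl_smul hα0]
    ring
  unfold Ph
  rw [h1, nI_mul, nI_prin hb, Real.mul_rpow (sq_nonneg _) (nI_pos I).le]
  have h2 : (‖algebraMap K ℂ (α : K)‖ ^ 2) ^ t * ‖algebraMap K ℂ (α : K)‖ ^ (-(2 * t)) = 1 := by
    have h3 : 0 < ‖algebraMap K ℂ (α : K)‖ := norm_pos_iff.2 hα0
    rw [← Real.rpow_natCast, ← Real.rpow_mul h3.le, ← Real.rpow_add h3, Nat.cast_ofNat,
      add_neg_cancel, Real.rpow_zero]
  linear_combination (nI I ^ t * ∑ᶠ M ∈ lns l (lat I), (psi l I M : ℝ) * zl M t) * h2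

theorem ph_class (hb : Base K d s) (hl : l.Prime) {I J : Idl K} (h : cl I = cl J) (t : ℝ) :
    Ph l I t = Ph l J t := by
  obtain ⟨x, hx⟩ := cl_eq_iff.1 h
  rw [hx, ph_prin hb hl]

theorem ph_up (hb : Base K d s) {v : HeightOneSpectrum (𝓞 K)} (hv : (2 : 𝓞 K) ∈ v.asIdeal)
    (hl : l.Prime) (h8 : l % 8 = 3) (I : Idl K) (t : ℝ) :
    nI I ^ t * ∑ᶠ M ∈ lns l (lat I), (psi l I M : ℝ) * zl (up v I M) t =
      -(2 ^ t * Ph l ((pr v)⁻¹ * I) t) := by
  have h2 : l ≠ 2 := by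
    rintro rfl
    omega
  have h1 : ∑ᶠ N ∈ lns l (lat ((pr v)⁻¹ * I)), (psi l ((pr v)⁻¹ * I) N : ℝ) * zl N t =
      -∑ᶠ M ∈ lns l (lat I), (psi l I M : ℝ) * zl (up v I M) t := by
    rw [neg_eq_neg_one_mul, mul_finsum_mem]
    refine (finsum_mem_eq_of_bijOn _ (up_bij hb hv hl h2 I) fun M hM => ?_).symm
    rw [psi_up hb hv hl h8 hM]
    push_cast
    ring
  have h3 : nI I = 2 * nI ((pr v)⁻¹ * I) := by
    rw [← nI_pr hb hv, ← nI_mul, mul_inv_cancel_left]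
  unfold Ph
  rw [h1, h3, Real.mul_rpow (by norm_num) (nI_pos _).le]
  ring

theorem sum_ph (hb : Base K d s) (hl : l.Prime) (h2 : l ≠ 2) (hd : ¬ l ∣ d)
    (rep : ClassGroup (𝓞 K) → Idl K) (hrep : ∀ C, cl (rep C) = C) {t : ℝ} (ht : 1 < t) :
    ∑ C, Ph l (rep C) t = 2 * (Lr l t * Lr (l * d) t) := by
  have hd0 : d ≠ 0 := by
    rintro rfl
    exact not_squarefree_zero hb.sf
  have ht0 : -t ≠ 0 := by
    have : t ≠ 0 := by linarith
    simpa using this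
  let f : ℕ → ℝ := fun n => (jacobiSym n l : ℝ) * (n : ℝ) ^ (-t)
  have hf0 : f 0 = 0 := by
    show (jacobiSym (0 : ℕ) l : ℝ) * ((0 : ℕ) : ℝ) ^ (-t) = 0
    rw [Nat.cast_zero, Nat.cast_zero, Real.zero_rpow ht0, mul_zero]
  have h1 : ∀ C, Ph l (rep C) t = ∑' x : lat (rep C), f (nn (rep C) x) := by
    intro C
    unfold Ph
    rw [psi_zeta hb hl h2 hd _ ht, ← tsum_mul_left]
    refine tsum_congr fun x => ?_
    show _ = (jacobiSym (nn (rep C) x) l : ℝ) * (nn (rep C) x : ℝ) ^ (-t)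
    have h3 := nI_pos (rep C)
    rw [nn_spec hb x.2, Real.div_rpow (sq_nonneg _) h3.le, Real.rpow_neg h3.le, div_inv_eq_mul,
      ← Real.rpow_natCast, ← Real.rpow_mul (norm_nonneg _), Nat.cast_ofNat, mul_neg]
    ring
  have hfs : Summable fun n : ℕ => (n.divisors.card : ℝ) * |f n| := by
    refine Summable.of_nonneg_of_le (fun n => by positivity) (fun n => ?_) (summable_divisors ht)
    refine mul_le_mul_of_nonneg_left ?_ (by positivity)
    show |(jacobiSym n l : ℝ) * (n : ℝ) ^ (-t)| ≤ _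
    have h4 : (0 : ℝ) ≤ (n : ℝ) ^ (-t) := Real.rpow_nonneg (Nat.cast_nonneg n) _
    rw [abs_mul, abs_of_nonneg h4]
    refine mul_le_of_le_one_left h4 ?_
    rcases jacobiSym.trichotomy (n : ℤ) l with h | h | h <;> rw [h] <;> norm_num
  rw [Finset.sum_congr rfl fun C _ => h1 C, class_sum hb rep hrep hf0 hfs,
    ← tsum_twist hl.ne_zero hd0 ht]
  congr 1
  refine tsum_congr fun n => ?_
  show _ * ((jacobiSym n l : ℝ) * (n : ℝ) ^ (-t)) = _
  ring

end Pool.Agent.Work.MP_8efaaa_nt.KL
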