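import Mathlib
import Pool.Agent.Work.MP_8efaaa_nt.KL.QDefs
import Pool.Agent.Work.MP_8efaaa_nt.KL.QRing

/-!
# KL/QReal (M): the residue for a real quadratic field

As `MP_29211c_nt/Units.lean` (`torsion_cases`, `torsionOrder_QS`, `unit_abs`, `regulator_QS`) and `residue_val` in
`MP_29211c_nt/CNF.lean`, there for `QS p ⊂ ℝ`; here `F` is any field with `QB D s`, `0 < D`, and `ι : F →+* ℝ` an embedding (given). Every embedding of `F` in `ℂ` is real
(`φ s ^ 2 = D > 0`), so `nrRealPlaces = 2`, `nrComplexPlaces = 0`, the roots of unity are `±1`, the rank of the unit group is 1, the regulator is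
`|log |ι u₀||` for a fundamental unit `u₀`, and the least `x > 1` of the form `ι u` exists and is `|ι u₀| ^ {±1}`.
`dedekindZeta_residue_def`, `QB.discr_eq`.
-/

set_option autoImplicit false

namespace Pool.Agent.Work.MP_8efaaa_nt.KL

open NumberField

variable {F : Type*} [Field F] [NumberField F] {D : ℤ} {s : F}

/-- the complex embedding of a real embedding -/
private noncomputable def emR (ι : F →+* ℝ) : F →+* ℂ := Complex.ofRealHom.comp ι

private theorem emR_place (ι : F →+* ℝ) (x : F) : InfinitePlace.mk (emR ι) x = |ι x| := by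
  rw [InfinitePlace.apply]
  simp [emR]

private theorem emR_isReal (ι : F →+* ℝ) : (InfinitePlace.mk (emR ι)).IsReal := by
  rw [InfinitePlace.isReal_mk_iff, ComplexEmbedding.isReal_iff]
  ext x
  simp [emR, ComplexEmbedding.conjugate_coe_eq]

private theorem real_places (hd : Module.finrank ℚ F = 2) (ι : F →+* ℝ) :
    InfinitePlace.nrRealPlaces F = 2 ∧ InfinitePlace.nrComplexPlaces F = 0 := by
  classical
  have h := InfinitePlace.card_add_two_mul_card_eq_rank F
  rw [hd] at h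
  have h1 : 0 < InfinitePlace.nrRealPlaces F := by
    unfold InfinitePlace.nrRealPlaces
    exact Fintype.card_pos_iff.2 ⟨⟨InfinitePlace.mk (emR ι), emR_isReal ι⟩⟩
  omega

private theorem tors_cases (ι : F →+* ℝ) (x : (𝓞 F)ˣ) (hx : x ∈ Units.torsion F) :
    x = 1 ∨ x = -1 := by
  rw [Units.torsion, CommGroup.mem_torsion, isOfFinOrder_iff_pow_eq_one] at hx
  obtain ⟨n, hn, hx⟩ := hx
  have h1 : ι ((x : 𝓞 F) : F) ^ n = 1 := by
    have := congrArg (fun z : (𝓞 F)ˣ => ι ((z : 𝓞 F) : F)) hx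
    simpa using this
  have h2 : |ι ((x : 𝓞 F) : F)| = 1 := by
    have := congrArg abs h1
    rw [abs_pow, abs_one] at this
    exact (pow_eq_one_iff_of_nonneg (abs_nonneg _) hn.ne').1 this
  rcases (abs_eq zero_le_one).1 h2 with h | h
  · left
    apply Units.ext
    apply RingOfIntegers.ext
    apply ι.injective
    rw [h]
    simp
  · right
    apply Units.ext
    apply RingOfIntegers.ext
    apply ι.injective
    rw [h]
    simp

private theorem tors_order (ι : F →+* ℝ) : Units.torsionOrder F = 2 := by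
  classical
  let := Fintype.ofFinite (Units.torsion F)
  rw [Units.torsionOrder, Nat.card_eq_fintype_card]
  refine (Finset.card_eq_two.2 ⟨1, ⟨-1, neg_one_mem_torsion⟩,
    by simp [← Subtype.coe_ne_coe], Finset.ext fun x ↦ ⟨fun _ ↦ ?_, fun _ ↦ Finset.mem_univ _⟩⟩)
  rw [Finset.mem_insert, Finset.mem_singleton, ← Subtype.val_inj, ← Subtype.val_inj]
  exact tors_cases ι x x.2

private theorem unit_abs' (hd : Module.finrank ℚ F = 2) (ι : F →+* ℝ) : ∃ u₀ : (𝓞 F)ˣ,
    Units.regulator F = abs (Real.log (abs (ι ((u₀ : 𝓞 F) : F)))) ∧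
    ∀ x : (𝓞 F)ˣ, ∃ k : ℤ, |ι ((x : 𝓞 F) : F)| = |ι ((u₀ : 𝓞 F) : F)| ^ k := by
  classical
  obtain ⟨hr, hc⟩ := real_places hd ι
  haveI : IsTotallyReal F := nrComplexPlaces_eq_zero_iff.1 hc
  have hcard : Fintype.card (InfinitePlace F) = 2 := by
    rw [InfinitePlace.card_eq_nrRealPlaces_add_nrComplexPlaces, hr, hc]
  have hrank : Units.rank F = 1 := by
    rw [Units.rank, hcard]
  set w₁ : InfinitePlace F := InfinitePlace.mk (emR ι) with hw₁
  obtain ⟨w₂, hw₂⟩ : ∃ w₂ : InfinitePlace F, w₂ ≠ w₁ := by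
    have : Nontrivial (InfinitePlace F) := by
      rw [← Fintype.one_lt_card_iff_nontrivial, hcard]
      norm_num
    exact exists_ne w₁
  have hcard2 : Fintype.card {w : InfinitePlace F // w ≠ w₂} = Units.rank F := by
    rw [Fintype.card_subtype_compl, Fintype.card_subtype_eq, hcard, hrank]
  let e : {w : InfinitePlace F // w ≠ w₂} ≃ Fin (Units.rank F) :=
    Fintype.equivOfCardEq (by rw [hcard2, Fintype.card_fin])
  have hsub : Subsingleton {w : InfinitePlace F // w ≠ w₂} := by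
    rw [← Fintype.card_le_one_iff_subsingleton, hcard2, hrank]
  have hsub2 : Subsingleton (Fin (Units.rank F)) := by
    rw [← Fintype.card_le_one_iff_subsingleton, Fintype.card_fin, hrank]
  let i₁ : {w : InfinitePlace F // w ≠ w₂} := ⟨w₁, hw₂.symm⟩
  refine ⟨Units.fundSystem F (e i₁), ?_, ?_⟩
  · rw [Units.regulator_eq_det F w₂ e, Matrix.det_eq_elem_of_subsingleton _ i₁,
      Matrix.of_apply]
    have hmult : (InfinitePlace.mult (i₁ : InfinitePlace F) : ℝ) = 1 := by
      rw [IsTotallyReal.mult_eq]; norm_num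
    rw [hmult, one_mul]
    have : ((i₁ : InfinitePlace F) : InfinitePlace F) = w₁ := rfl
    rw [this, hw₁, emR_place]
  · intro x
    obtain ⟨⟨ζ, f⟩, hx, -⟩ := Units.exist_unique_eq_mul_prod F x
    refine ⟨f (e i₁), ?_⟩
    have hprod : ∏ i, (Units.fundSystem F i) ^ (f i) =
        (Units.fundSystem F (e i₁)) ^ (f (e i₁)) := by
      apply Fintype.prod_subsingleton
    simp only at hx
    rw [hx, hprod]
    have hζ : |ι ((ζ : (𝓞 F)ˣ) : F)| = 1 := by
      have := (Units.mem_torsion F).1 ζ.2 w₁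
      rwa [hw₁, emR_place] at this
    have h3 : ι ((((ζ : (𝓞 F)ˣ) * Units.fundSystem F (e i₁) ^ f (e i₁) : (𝓞 F)ˣ) : F)) =
        ι ((ζ : (𝓞 F)ˣ) : F) * ι ((Units.fundSystem F (e i₁) : (𝓞 F)ˣ) : F) ^ f (e i₁) := by
      rw [Units.coe_mul, Units.coe_zpow, map_mul, map_zpow₀]
    rw [Units.coe_coe, h3, abs_mul, hζ, one_mul, abs_zpow]

private theorem reg_least (hd : Module.finrank ℚ F = 2) (ι : F →+* ℝ) :
    ∃ ε : ℝ, IsLeast {x : ℝ | 1 < x ∧ ∃ u : (𝓞 F)ˣ, x = ι (algebraMap (𝓞 F) F u)} ε ∧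
      Units.regulator F = Real.log ε := by
  obtain ⟨u₀, hR, hgen⟩ := unit_abs' hd ι
  have hRpos := Units.regulator_pos F
  set R := Units.regulator F with hRdef
  have hu0 : ι ((u₀ : 𝓞 F) : F) ≠ 0 := by
    have h := Units.coe_ne_zero u₀
    exact (map_ne_zero ι).2 h
  refine ⟨Real.exp R, ⟨⟨by simpa using hRpos, ?_⟩, ?_⟩, (Real.log_exp R).symm⟩
  · have habs : ∃ u₁ : (𝓞 F)ˣ, |ι ((u₁ : 𝓞 F) : F)| = Real.exp R := by
      rcases le_total 0 (Real.log (abs (ι ((u₀ : 𝓞 F) : F)))) with h | h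
      · refine ⟨u₀, ?_⟩
        rw [hR, abs_of_nonneg h, Real.exp_log (abs_pos.2 hu0)]
      · refine ⟨u₀⁻¹, ?_⟩
        rw [hR, abs_of_nonpos h, Real.exp_neg, Real.exp_log (abs_pos.2 hu0), ← abs_inv]
        congr 1
        have h1 : (((u₀⁻¹ : (𝓞 F)ˣ) : 𝓞 F) : F) * ((u₀ : 𝓞 F) : F) = 1 := by
          rw [← map_mul, Units.inv_mul, map_one]
        have h2 := congrArg ι h1
        rw [map_mul, map_one] at h2
        exact eq_inv_of_mul_eq_one_left h2
    obtain ⟨u₁, hu₁⟩ := habs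
    rcases abs_choice (ι ((u₁ : 𝓞 F) : F)) with h | h
    · exact ⟨u₁, by rw [← h, hu₁]⟩
    · refine ⟨-u₁, ?_⟩
      rw [← hu₁, h]
      simp
  · rintro v ⟨hv1, η, hη⟩
    obtain ⟨k, hk⟩ := hgen η
    have hv0 : 0 < v := by linarith
    rw [← hη, abs_of_pos hv0] at hk
    have hlog : Real.log v = k * Real.log (abs (ι ((u₀ : 𝓞 F) : F))) := by
      rw [hk, Real.log_zpow]
    have hlpos : 0 < Real.log v := Real.log_pos hv1
    have hk0 : k ≠ 0 := by
      rintro rfl
      rw [Int.cast_zero, zero_mul] at hlog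
      exact hlpos.ne' hlog
    have h1 : (1 : ℝ) ≤ |(k : ℝ)| := by
      have := Int.one_le_abs hk0
      exact_mod_cast this
    have h2 : Real.log v = |(k : ℝ)| * R := by
      rw [hR, ← abs_mul, ← hlog, abs_of_pos hlpos]
    have h3 : R ≤ Real.log v := by
      rw [h2]
      nlinarith
    calc Real.exp R ≤ Real.exp (Real.log v) := Real.exp_le_exp.2 h3
      _ = v := Real.exp_log hv0

theorem QB.residue_real (h : QB D s) (hD : 0 < D) (ι : F →+* ℝ) :
    ∃ ε : ℝ, IsLeast {x : ℝ | 1 < x ∧ ∃ u : (𝓞 F)ˣ, x = ι (algebraMap (𝓞 F) F u)} ε ∧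
      dedekindZeta_residue F = 2 * (classNumber F : ℝ) * Real.log ε / Real.sqrt D := by
  obtain ⟨ε, h1, h2⟩ := reg_least h.dim ι
  refine ⟨ε, h1, ?_⟩
  obtain ⟨hr, hc⟩ := real_places h.dim ι
  have hD' : (0 : ℝ) < D := by exact_mod_cast hD
  rw [dedekindZeta_residue_def, hr, hc, tors_order ι, h.discr_eq, h2, abs_of_pos hD']
  have hs : Real.sqrt D ≠ 0 := by positivity
  push_cast
  field_simp

end Pool.Agent.Work.MP_8efaaa_nt.KL
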