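import Mathlib
import Pool.Agent.Work.MP_8efaaa_nt.KL.QDefs
import Pool.Agent.Work.MP_8efaaa_nt.KL.QCnt
import Pool.Agent.Work.MP_8efaaa_nt.KL.QChr

/-!
# KL/QRes (M): the series of the Jacobi symbol at 1 is the residue of the zeta function

As in `MP_29211c_nt/Zeta.lean` (there for a prime). `N = D.natAbs` is odd, squarefree and `≠ 1` (`D = -1` is impossible modulo 4). With the character `χ` of
`exists_char`: `dedekindZeta F s = riemannZeta s * LFunction χ s` for `1 < s.re`, by `QB.card_ideal` (`χ.zetaMul`), so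
`dedekindZeta_residue F = LFunction χ 1` (`tendsto_sub_one_mul_dedekindZeta_nhdsGT`, `riemannZeta_residue_one`, continuity of `LFunction χ` as `χ ≠ 1`). For real
`t > 1`, `(Lr N t : ℂ) = LSeries χ t = LFunction χ t` (`n = 0`: both terms are 0), and `LFunction χ` is continuous at 1.
`summable_Lr`: `|jacobiSym| ≤ 1` (`jacobiSym.trichotomy`), `Real.summable_nat_rpow`. `Lr_pos` is not needed.
-/

set_option autoImplicit false

namespace Pool.Agent.Work.MP_8efaaa_nt.KL

open Filter Topology NumberField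

variable {F : Type*} [Field F] [NumberField F] {D : ℤ} {s : F}

open ArithmeticFunction in
private theorem zetaMul_eq {N : ℕ} (χ : DirichletCharacter ℂ N)
    (hχ : ∀ n : ℤ, χ (n : ZMod N) = ((jacobiSym n N : ℤ) : ℂ)) (n : ℕ) :
    χ.zetaMul n = ((∑ δ ∈ n.divisors, jacobiSym δ N : ℤ) : ℂ) := by
  push_cast
  rw [DirichletCharacter.zetaMul, coe_zeta_mul_apply]
  refine Finset.sum_congr rfl fun d hd => ?_
  have hd0 : d ≠ 0 := (Nat.pos_of_mem_divisors hd).ne'
  simp only [toArithmeticFunction, coe_mk, hd0, ↓reduceIte]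
  have h := hχ (d : ℤ)
  rw [Int.cast_natCast] at h
  exact h

open ArithmeticFunction in
private theorem lser_one {N : ℕ} (χ : DirichletCharacter ℂ N) {s : ℂ} :
    LSeries (fun n => (toArithmeticFunction (fun n => χ n)) n) s = LSeries (fun n => χ n) s := by
  apply LSeries_congr
  intro n hn
  simp only [toArithmeticFunction, coe_mk, hn, ↓reduceIte]

open ArithmeticFunction in
private theorem lser_summ {N : ℕ} (χ : DirichletCharacter ℂ N) {s : ℂ} (hs : 1 < s.re) :
    LSeriesSummable (fun n => (toArithmeticFunction (fun n => χ n)) n) s := by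
  refine LSeriesSummable_of_bounded_of_one_lt_re (m := 1) (fun n hn ↦ ?_) hs
  simpa only [toArithmeticFunction, coe_mk, hn, ↓reduceIte] using DirichletCharacter.norm_le_one χ _

open ArithmeticFunction in
private theorem lser_mul {N : ℕ} (χ : DirichletCharacter ℂ N) {s : ℂ} (hs : 1 < s.re) :
    LSeries (fun n => χ.zetaMul n) s
      = LSeries (fun n => ((ArithmeticFunction.zeta n : ℕ) : ℂ)) s * LSeries (fun n => χ n) s := by
  have h1 : LSeriesSummable
      (fun n => (((ArithmeticFunction.zeta : ArithmeticFunction ℕ) : ArithmeticFunction ℂ)) n) s :=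
    LSeriesSummable_zeta_iff.mpr hs
  have h2 := ArithmeticFunction.LSeries_mul' h1 (lser_summ χ hs)
  rw [lser_one] at h2
  rw [DirichletCharacter.zetaMul]
  exact h2

private theorem QB.odd (h : QB D s) : D.natAbs % 2 = 1 := by
  have := h.mod
  omega

private theorem QB.ne1 (h : QB D s) : D.natAbs ≠ 1 := by
  have h1 := h.mod
  have h2 := h.ne
  omega

private theorem Lr_eq {N : ℕ} (hN : 1 < N) (χ : DirichletCharacter ℂ N)
    (hχ : ∀ n : ℤ, χ (n : ZMod N) = ((jacobiSym n N : ℤ) : ℂ)) {t : ℝ} :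
    ((Lr N t : ℝ) : ℂ) = LSeries (fun n => χ n) t := by
  unfold Lr LSeries
  rw [Complex.ofReal_tsum]
  refine tsum_congr fun n => ?_
  have hn := hχ (n : ℤ)
  rw [Int.cast_natCast] at hn
  by_cases h0 : n = 0
  · subst h0
    rw [LSeries.term_zero, Nat.cast_zero, jacobiSym.zero_left hN]
    simp
  · rw [LSeries.term_of_ne_zero h0, hn, Complex.ofReal_mul, Complex.ofReal_intCast,
      Complex.ofReal_cpow (Nat.cast_nonneg n), Complex.ofReal_neg, Complex.ofReal_natCast,
      Complex.cpow_neg, div_eq_mul_inv]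

theorem summable_Lr (N : ℕ) {t : ℝ} (ht : 1 < t) :
    Summable fun n : ℕ => (jacobiSym n N : ℝ) * (n : ℝ) ^ (-t) := by
  refine (Real.summable_nat_rpow.2 (by linarith : -t < -1)).of_norm_bounded fun n => ?_
  rw [norm_mul, Real.norm_eq_abs, Real.norm_of_nonneg (Real.rpow_nonneg (Nat.cast_nonneg n) _)]
  have h1 : |(jacobiSym n N : ℝ)| ≤ 1 := by
    rcases jacobiSym.trichotomy n N with h | h | h <;> rw [h] <;> norm_num
  calc |(jacobiSym n N : ℝ)| * (n : ℝ) ^ (-t) ≤ 1 * (n : ℝ) ^ (-t) :=
        mul_le_mul_of_nonneg_right h1 (Real.rpow_nonneg (Nat.cast_nonneg n) _)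
    _ = (n : ℝ) ^ (-t) := one_mul _

theorem QB.tendsto_Lr (h : QB D s) :
    Tendsto (fun t : ℝ => Lr D.natAbs t) (𝓝[>] 1) (𝓝 (dedekindZeta_residue F)) := by
  have hsf : Squarefree D.natAbs := Int.squarefree_natAbs.2 h.sf
  obtain ⟨χ, hχ1, hχ⟩ := exists_char hsf h.odd h.ne1
  have hN0 : D.natAbs ≠ 0 := by
    have := h.odd
    omega
  have hN1 : 1 < D.natAbs := by
    have := h.ne1
    omega
  have := NeZero.mk hN0
  have hz : ∀ s : ℂ, 1 < s.re →
      dedekindZeta F s = riemannZeta s * DirichletCharacter.LFunction χ s := by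
    intro s hs
    rw [DirichletCharacter.LFunction_eq_LSeries _ hs, ← ArithmeticFunction.LSeries_zeta_eq_riemannZeta hs, ← lser_mul χ hs]
    refine LSeries_congr ?_ s
    intro n hn
    rw [zetaMul_eq χ hχ, ← h.card_ideal hn, Int.cast_natCast]
  have h1 := tendsto_sub_one_mul_dedekindZeta_nhdsGT F
  have hmap : Tendsto (fun s : ℝ => (s : ℂ)) (𝓝[>] 1) (𝓝[≠] 1) := by
    apply tendsto_nhdsWithin_of_tendsto_nhds_of_eventually_within
    · have : Tendsto (fun s : ℝ => (s : ℂ)) (𝓝 1) (𝓝 ((1 : ℝ) : ℂ)) :=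
        Complex.continuous_ofReal.continuousAt
      rw [Complex.ofReal_one] at this
      exact this.mono_left nhdsWithin_le_nhds
    · filter_upwards [self_mem_nhdsWithin] with s hs
      have hs' : (1 : ℝ) < s := hs
      simp only [Set.mem_compl_iff, Set.mem_singleton_iff]
      intro h
      have : s = 1 := by exact_mod_cast h
      linarith
  have hc : ContinuousAt (DirichletCharacter.LFunction χ) 1 :=
    ((DirichletCharacter.differentiable_LFunction hχ1) 1).continuousAt
  have hL : Tendsto (fun s : ℝ => DirichletCharacter.LFunction χ s) (𝓝[>] 1)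
      (𝓝 (DirichletCharacter.LFunction χ 1)) :=
    (hc.tendsto.mono_left nhdsWithin_le_nhds).comp hmap
  have h2 : Tendsto (fun s : ℝ => (((s : ℂ) - 1) * riemannZeta s) * DirichletCharacter.LFunction χ s)
      (𝓝[>] 1) (𝓝 (1 * DirichletCharacter.LFunction χ 1)) :=
    (riemannZeta_residue_one.comp hmap).mul hL
  rw [one_mul] at h2
  have hres : ((dedekindZeta_residue F : ℝ) : ℂ) = DirichletCharacter.LFunction χ 1 := by
    refine tendsto_nhds_unique h1 (h2.congr' ?_)
    filter_upwards [self_mem_nhdsWithin] with s hs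
    have hs' : (1 : ℝ) < s := hs
    rw [hz _ (by simpa using hs'), mul_assoc]
  have h3 : Tendsto (fun s : ℝ => (DirichletCharacter.LFunction χ s).re) (𝓝[>] 1)
      (𝓝 (DirichletCharacter.LFunction χ 1).re) := (Complex.continuous_re.tendsto _).comp hL
  rw [← hres, Complex.ofReal_re] at h3
  refine h3.congr' ?_
  filter_upwards [self_mem_nhdsWithin] with t ht
  have ht' : (1 : ℝ) < t := ht
  have h4 : DirichletCharacter.LFunction χ t = ((Lr D.natAbs t : ℝ) : ℂ) := by
    rw [DirichletCharacter.LFunction_eq_LSeries _ (by simpa using ht'), Lr_eq hN1 χ hχ]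
  rw [h4, Complex.ofReal_re]

end Pool.Agent.Work.MP_8efaaa_nt.KL
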