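import Mathlib
import Pool.Agent.Work.MP_8efaaa_nt.KL.Lim
import Pool.Agent.Work.MP_8efaaa_nt.KL.QDefs
import Pool.Agent.Work.MP_8efaaa_nt.KL.QRes
import Pool.Agent.Work.MP_8efaaa_nt.KL.QReal
import Pool.Agent.Work.MP_8efaaa_nt.KL.QImag
import Pool.Agent.Work.MP_8efaaa_nt.KL.QPhi
import Pool.Agent.Work.MP_8efaaa_nt.KL.QArea

/-!
# KL/QFin (M): the value of the sum of the logarithms

For `t > 1` and `I = rep C`, `M ∈ lns l (lat I)`, `MP = up v I M`, `MQ = up v' I M`: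
`∑_C nI I ^ t ∑ᶠ_M psi (2 zl MQ t + zl MP t - (4 ^ t + 2) zl M t) = -(3 * 2 ^ t + 4 ^ t + 2) * ∑_C Ph l (rep C) t` by `ph_up`, `ph_class` and the bijections
`C ↦ class of (pr v)⁻¹ (rep C)` of the class group (multiplication by `cl (pr v)⁻¹`; `cl ((pr v)⁻¹ * rep C) = cl (pr v)⁻¹ * C`), and the finite sums may be split
(`finite_lns`, `finsum_mem_eq_finite_toFinset_sum`). As `t → 1+`, the right side tends to `-12 * 2 * ρ' * ρ` (`sum_ph`, `QB.tendsto_Lr` for `QB (-l) s'`, `(-l).natAbs = l`, and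
`QB (l d) s''`), and the left side (finite sums; `tendsto_comb` for `M`, `MP`, `MQ`: `up_two`, `up_ne`, `hasArea_line`, `hasArea_lat`) to
`∑_C nI I ∑ᶠ_M psi * (-(π / (l * (nI I * √d / 2)))) * log ‖..‖ = -(2 π / (l √d)) * (the sum of the theorem)`. Compare.
`log_sum'`: insert `QB.residue_imag` (`D = -l`; `D = -3` iff `l = 3`), `QB.residue_real` (`D = l d`): `12 l √d / π * (2 π h' / (w √l)) * (2 h log ε / √(l d)) = 48 / w * h' h log ε`.
-/

set_option autoImplicit false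

namespace Pool.Agent.Work.MP_8efaaa_nt.KL

open Pool.Agent.Work.CM Pool.Agent.Work.MP_787500_nt.HC NumberField IsDedekindDomain
open Pool.Agent.Work.MP_8efaaa_nt.T
open scoped Pointwise nonZeroDivisors

variable {K : Type*} [Field K] [NumberField K] [Algebra K ℂ] {d l : ℕ} {s : K}

/-- the fourth power of `W` for a pair of superlattices of index two -/
noncomputable def w4 (M MP MQ : Submodule ℤ ℂ) : ℂ := (2 * ev M MP + ev M MQ) / (ev M MP - ev M MQ)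

theorem log_sum (hb : Base K d s) (hl : l.Prime) (h8 : l % 8 = 3) (hd : ¬ l ∣ d)
    {v v' : HeightOneSpectrum (𝓞 K)} (hne : v ≠ v') (hv : (2 : 𝓞 K) ∈ v.asIdeal)
    (hv' : (2 : 𝓞 K) ∈ v'.asIdeal) (rep : ClassGroup (𝓞 K) → Idl K) (hrep : ∀ C, cl (rep C) = C)
    {F F' : Type*} [Field F] [NumberField F] [Field F'] [NumberField F'] {sF : F} {sF' : F'}
    (hF : QB (l * d : ℤ) sF) (hF' : QB (-(l : ℤ)) sF') :
    ∑ C, ∑ᶠ M ∈ lns l (lat (rep C)), (psi l (rep C) M : ℝ) *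
        Real.log ‖w4 M (up v (rep C) M) (up v' (rep C) M)‖ =
      12 * l * Real.sqrt d / Real.pi * (dedekindZeta_residue F' * dedekindZeta_residue F) := by
  sorry

theorem log_sum' (hb : Base K d s) (hl : l.Prime) (h8 : l % 8 = 3) (hd : ¬ l ∣ d)
    {v v' : HeightOneSpectrum (𝓞 K)} (hne : v ≠ v') (hv : (2 : 𝓞 K) ∈ v.asIdeal)
    (hv' : (2 : 𝓞 K) ∈ v'.asIdeal) (rep : ClassGroup (𝓞 K) → Idl K) (hrep : ∀ C, cl (rep C) = C)
    {F F' : Type*} [Field F] [NumberField F] [Field F'] [NumberField F'] {sF : F} {sF' : F'}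
    (hF : QB (l * d : ℤ) sF) (hF' : QB (-(l : ℤ)) sF') (ι : F →+* ℝ) :
    ∃ ε : ℝ, IsLeast {x : ℝ | 1 < x ∧ ∃ u : (𝓞 F)ˣ, x = ι (algebraMap (𝓞 F) F u)} ε ∧
      ∑ C, ∑ᶠ M ∈ lns l (lat (rep C)), (psi l (rep C) M : ℝ) *
        Real.log ‖w4 M (up v (rep C) M) (up v' (rep C) M)‖ =
      48 / (if l = 3 then 6 else 2) * (classNumber F' : ℝ) * (classNumber F : ℝ) * Real.log ε := by
  sorry

end Pool.Agent.Work.MP_8efaaa_nt.KL
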